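import Mathlib

set_option autoImplicit false
set_option linter.unusedSimpArgs false
set_option linter.unusedVariables false
set_option linter.unusedSectionVars false

open Filter Topology Finset

namespace Pool.Agent.K4H57.UGW

section Abstract

variable {E : Type*} [NormedAddCommGroup E] [InnerProductSpace ℝ E]

/-- symmetric operator with norm at most `C` -/
structure SB (T : E →L[ℝ] E) (C : ℝ) : Prop where
  symm : ∀ x y, inner ℝ (T x) y = inner ℝ x (T y)
  bound : ∀ x, ‖T x‖ ≤ C * ‖x‖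
  pos : 0 < C

/-- `B = 1 - C⁻² T²` -/
noncomputable def BB (T : E →L[ℝ] E) (C : ℝ) : E →L[ℝ] E :=
  ContinuousLinearMap.id ℝ E - (C ^ 2)⁻¹ • (T.comp T)

/-- `B ^ n x` -/
noncomputable def it (T : E →L[ℝ] E) (C : ℝ) (x : E) : ℕ → E
  | 0 => x
  | n + 1 => BB T C (it T C x n)

/-- the moments `⟨x, B ^ n x⟩` -/
noncomputable def av (T : E →L[ℝ] E) (C : ℝ) (x : E) (n : ℕ) : ℝ := inner ℝ x (it T C x n)

variable {T : E →L[ℝ] E} {C : ℝ}

theorem BB_apply (x : E) : BB T C x = x - (C ^ 2)⁻¹ • T (T x) := rfl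

theorem SB.BB_symm (h : SB T C) (x y : E) : inner ℝ (BB T C x) y = inner ℝ x (BB T C y) := by
  rw [BB_apply, BB_apply, inner_sub_left, inner_sub_right, inner_smul_left, inner_smul_right,
    h.symm, h.symm]
  simp

theorem it_succ' (x : E) (n : ℕ) : it T C (BB T C x) n = BB T C (it T C x n) := by
  induction n with
  | zero => rfl
  | succ n ih => rw [it, ih]; rfl

theorem it_T (x : E) (n : ℕ) : it T C (T x) n = T (it T C x n) := by
  induction n with
  | zero => rfl
  | succ n ih =>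
    rw [it, ih, it, BB_apply, BB_apply, map_sub, map_smul]

theorem it_add (x : E) (n m : ℕ) : it T C x (n + m) = it T C (it T C x n) m := by
  induction m with
  | zero => rfl
  | succ m ih => rw [← add_assoc, it, ih]; rfl

theorem it_sub (x y : E) (n : ℕ) : it T C (x - y) n = it T C x n - it T C y n := by
  induction n with
  | zero => rfl
  | succ n ih => rw [it, ih, map_sub]; rfl

theorem SB.it_symm (h : SB T C) (x y : E) (n : ℕ) :
    inner ℝ (it T C x n) y = inner ℝ x (it T C y n) := by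
  induction n generalizing y with
  | zero => rfl
  | succ n ih => rw [it, h.BB_symm, ih, it_succ', it]

theorem it_ker {z : E} (hz : T z = 0) (n : ℕ) : it T C z n = z := by
  induction n with
  | zero => rfl
  | succ n ih => rw [it, ih, BB_apply, hz, map_zero, smul_zero, sub_zero]

theorem SB.BB_nonneg (h : SB T C) (x : E) : 0 ≤ inner ℝ x (BB T C x) := by
  rw [BB_apply, inner_sub_right, inner_smul_right, ← h.symm, real_inner_self_eq_norm_sq,
    real_inner_self_eq_norm_sq]
  have h1 := h.bound x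
  have h2 := h.pos
  have h3 : ‖T x‖ ^ 2 ≤ C ^ 2 * ‖x‖ ^ 2 := by
    rw [← mul_pow]; exact pow_le_pow_left₀ (norm_nonneg _) h1 2
  have h4 : (C ^ 2)⁻¹ * ‖T x‖ ^ 2 ≤ ‖x‖ ^ 2 := by
    rw [inv_mul_le_iff₀ (by positivity)]; exact h3
  linarith

theorem SB.av_add (h : SB T C) (x : E) (n m : ℕ) :
    av T C x (n + m) = inner ℝ (it T C x n) (it T C x m) := by
  rw [av, h.it_symm, ← it_add, add_comm]

theorem SB.av_nonneg (h : SB T C) (x : E) (n : ℕ) : 0 ≤ av T C x n := by
  rcases Nat.even_or_odd n with ⟨k, rfl⟩ | ⟨k, rfl⟩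
  · rw [h.av_add]; exact real_inner_self_nonneg
  · have : 2 * k + 1 = k + (k + 1) := by ring
    rw [this, h.av_add]
    exact h.BB_nonneg _

theorem SB.av_sub_succ (h : SB T C) (x : E) (n : ℕ) :
    av T C x n - av T C x (n + 1) = (C ^ 2)⁻¹ * av T C (T x) n := by
  rw [av, av, av, it, BB_apply, inner_sub_right, inner_smul_right, it_T, h.symm]
  ring

theorem SB.av_antitone (h : SB T C) (x : E) : Antitone (av T C x) := by
  refine antitone_nat_of_succ_le fun n => ?_
  have h1 := h.av_sub_succ x n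
  have h2 := h.av_nonneg (T x) n
  have h3 := h.pos
  have h4 : 0 ≤ (C ^ 2)⁻¹ * av T C (T x) n := by positivity
  linarith

theorem SB.tendsto_av (h : SB T C) (x : E) :
    ∃ L, 0 ≤ L ∧ Tendsto (av T C x) atTop (𝓝 L) := by
  refine ⟨_, ?_, tendsto_atTop_ciInf (h.av_antitone x) ⟨0, ?_⟩⟩
  · exact le_ciInf fun n => h.av_nonneg x n
  · rintro _ ⟨n, rfl⟩
    exact h.av_nonneg x n

theorem SB.norm_it_sub (h : SB T C) (x : E) (n m : ℕ) :
    ‖it T C x n - it T C x m‖ ^ 2 = av T C x (n + n) - 2 * av T C x (n + m) + av T C x (m + m) := by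
  rw [@norm_sub_sq_real, h.av_add, h.av_add, h.av_add, real_inner_self_eq_norm_sq,
    real_inner_self_eq_norm_sq]

variable [CompleteSpace E]

/-- the iterates converge to the projection onto the kernel -/
theorem SB.lim_exists (h : SB T C) (x : E) :
    ∃ u, T u = 0 ∧ (∀ z, T z = 0 → inner ℝ z u = inner ℝ z x) ∧
      Tendsto (av T C x) atTop (𝓝 (‖u‖ ^ 2)) ∧ Tendsto (it T C x) atTop (𝓝 u) := by
  obtain ⟨L, hL0, hL⟩ := h.tendsto_av x
  have hcau : CauchySeq (it T C x) := by
    rw [Metric.cauchySeq_iff']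
    intro ε hε
    have hev := (Metric.tendsto_atTop.1 hL) (ε ^ 2 / 4) (by positivity)
    obtain ⟨N, hN⟩ := hev
    refine ⟨N, fun n hn => ?_⟩
    rw [dist_eq_norm]
    have h1 := h.norm_it_sub x n N
    have e1 := abs_lt.1 (by simpa [Real.dist_eq] using hN (n + n) (by omega))
    have e2 := abs_lt.1 (by simpa [Real.dist_eq] using hN (n + N) (by omega))
    have e3 := abs_lt.1 (by simpa [Real.dist_eq] using hN (N + N) (by omega))
    have h2 : ‖it T C x n - it T C x N‖ ^ 2 < ε ^ 2 := by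
      rw [h1]
      linarith [e1.1, e1.2, e2.1, e2.2, e3.1, e3.2]
    exact lt_of_pow_lt_pow_left₀ 2 hε.le h2
  obtain ⟨u, hu⟩ := cauchySeq_tendsto_of_complete hcau
  have hTu : T u = 0 := by
    have h1 : Tendsto (fun n => ‖T (it T C x n)‖ ^ 2) atTop (𝓝 (‖T u‖ ^ 2)) :=
      ((T.continuous.tendsto u).comp hu).norm.pow 2
    have h2 : ∀ n, ‖T (it T C x n)‖ ^ 2 = C ^ 2 * (av T C x (n + n) - av T C x (n + n + 1)) := by
      intro n
      rw [h.av_sub_succ, ← mul_assoc, mul_inv_cancel₀ (by have := h.pos; positivity), one_mul,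
        h.av_add, it_T, real_inner_self_eq_norm_sq]
    have h3 : Tendsto (fun n => C ^ 2 * (av T C x (n + n) - av T C x (n + n + 1))) atTop
        (𝓝 (C ^ 2 * (L - L))) := by
      refine Tendsto.const_mul _ (Tendsto.sub ?_ ?_)
      · exact hL.comp (tendsto_atTop_mono (fun n => by omega : ∀ n, n ≤ n + n) tendsto_id)
      · exact hL.comp (tendsto_atTop_mono (fun n => by omega : ∀ n, n ≤ n + n + 1) tendsto_id)
    have h4 : ‖T u‖ ^ 2 = C ^ 2 * (L - L) :=
      tendsto_nhds_unique (h1.congr fun n => by rw [h2]) h3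
    have h5 : ‖T u‖ ^ 2 = 0 := by rw [h4]; ring
    exact norm_eq_zero.1 (pow_eq_zero_iff (two_ne_zero) |>.1 h5)
  have horth : ∀ z, T z = 0 → inner ℝ z u = inner ℝ z x := by
    intro z hz
    have h1 : Tendsto (fun n => inner ℝ z (it T C x n)) atTop (𝓝 (inner ℝ z u)) :=
      tendsto_const_nhds.inner hu
    have h2 : ∀ n, inner ℝ z (it T C x n) = inner ℝ z x := by
      intro n
      rw [← h.it_symm, it_ker hz]
    exact tendsto_nhds_unique (h1.congr fun n => by rw [h2 n]) tendsto_const_nhds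
  refine ⟨u, hTu, horth, ?_, hu⟩
  have h1 : Tendsto (av T C x) atTop (𝓝 (inner ℝ x u)) := tendsto_const_nhds.inner hu
  have h2 : inner ℝ x u = ‖u‖ ^ 2 := by
    rw [← real_inner_self_eq_norm_sq, horth u hTu, real_inner_comm]
  rwa [h2] at h1

theorem SB.sum_it (h : SB T C) (y : E) (M : ℕ) :
    (C ^ 2)⁻¹ • ∑ n ∈ range M, T (T (it T C y n)) = y - it T C y M := by
  induction M with
  | zero => simp [it]
  | succ M ih =>
    rw [sum_range_succ, smul_add, ih, it, BB_apply]
    abel

/-- the minimal solution of `T y = x` -/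
theorem SB.sol_min (h : SB T C) (x : E) (hx : ∃ y, T y = x) :
    ∃ y, T y = x ∧ (∀ z, T z = 0 → inner ℝ z y = 0) ∧
      HasSum (av T C x) (C ^ 2 * ‖y‖ ^ 2) ∧
      Tendsto (fun M : ℕ => (C ^ 2)⁻¹ • ∑ n ∈ range M, T (it T C x n)) atTop (𝓝 y) := by
  obtain ⟨y0, hy0⟩ := hx
  obtain ⟨u, hu, horth, -, -⟩ := h.lim_exists y0
  set y := y0 - u with hy
  have hTy : T y = x := by rw [hy, map_sub, hu, sub_zero, hy0]
  have hyk : ∀ z, T z = 0 → inner ℝ z y = 0 := by
    intro z hz
    rw [hy, inner_sub_right, horth z hz, sub_self]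
  have hC : (C ^ 2) ≠ 0 := by have := h.pos; positivity
  obtain ⟨u', hu', horth', -, hlim'⟩ := h.lim_exists y
  have hu'0 : u' = 0 := by
    have h1 := horth' u' hu'
    rw [hyk u' hu'] at h1
    exact inner_self_eq_zero.1 h1
  rw [hu'0] at hlim'
  refine ⟨y, hTy, hyk, ?_, ?_⟩
  · rw [hasSum_iff_tendsto_nat_of_nonneg (h.av_nonneg x)]
    have h1 : ∀ M : ℕ, ∑ n ∈ range M, av T C x n = C ^ 2 * (‖y‖ ^ 2 - inner ℝ y (it T C y M)) := by
      intro M
      have h2 : ∀ n, av T C x n = inner ℝ y (T (T (it T C y n))) := by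
        intro n
        rw [av, ← hTy, it_T, h.symm]
      simp_rw [h2]
      rw [← inner_sum]
      have h3 := h.sum_it y M
      have h4 : ∑ n ∈ range M, T (T (it T C y n)) = C ^ 2 • (y - it T C y M) := by
        rw [← h3, smul_smul, mul_inv_cancel₀ hC, one_smul]
      rw [h4, inner_smul_right, inner_sub_right, real_inner_self_eq_norm_sq]
    simp_rw [h1]
    have h5 : Tendsto (fun M => C ^ 2 * (‖y‖ ^ 2 - inner ℝ y (it T C y M))) atTop
        (𝓝 (C ^ 2 * (‖y‖ ^ 2 - inner ℝ y 0))) :=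
      (tendsto_const_nhds.sub (tendsto_const_nhds.inner hlim')).const_mul _
    simpa using h5
  · have h1 : ∀ M : ℕ, (C ^ 2)⁻¹ • ∑ n ∈ range M, T (it T C x n) = y - it T C y M := by
      intro M
      rw [← h.sum_it y M]
      congr 1
      refine sum_congr rfl fun n _ => ?_
      rw [← hTy, it_T]
    simp_rw [h1]
    have h5 : Tendsto (fun M => y - it T C y M) atTop (𝓝 (y - 0)) :=
      tendsto_const_nhds.sub hlim'
    simpa using h5

theorem SB.sol_of_summable (h : SB T C) (x : E) (hx : Summable (av T C x)) : ∃ y, T y = x := by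
  have hC : (C ^ 2) ≠ 0 := by have := h.pos; positivity
  -- the partial sums `S M = ∑ B^n x`
  set S : ℕ → E := fun M => ∑ n ∈ range M, it T C x n with hS
  set y : ℕ → E := fun M => (C ^ 2)⁻¹ • T (S M) with hy
  have hTy : ∀ M, T (y M) = x - it T C x M := by
    intro M
    rw [hy, ← h.sum_it x M]
    simp only [map_smul, hS, map_sum]
  have hnorm : ∀ N M, N ≤ M → ‖y M - y N‖ ^ 2 ≤
      (C ^ 2)⁻¹ * ∑ n ∈ Finset.Ico N M, av T C x (n + N) := by
    intro N M hNM
    have e1 : y M - y N = (C ^ 2)⁻¹ • T (S M - S N) := by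
      rw [hy]; simp only [map_sub, smul_sub]
    have e2 : S M - S N = ∑ n ∈ Finset.Ico N M, it T C x n := by
      rw [hS]; simp only; rw [Finset.sum_Ico_eq_sub _ hNM]
    have e3 : (C ^ 2)⁻¹ • T (T (S M - S N)) = it T C x N - it T C x M := by
      have := hTy M
      have h' := hTy N
      have : T (y M - y N) = it T C x N - it T C x M := by
        rw [map_sub, this, h']; abel
      rw [e1, map_smul] at this
      exact this
    have e4 : ‖y M - y N‖ ^ 2 = (C ^ 2)⁻¹ * inner ℝ (S M - S N) (it T C x N - it T C x M) := by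
      rw [← e3, inner_smul_right, ← h.symm, e1, ← real_inner_self_eq_norm_sq, inner_smul_left,
        inner_smul_right]
      simp
    rw [e4]
    have hCi : 0 ≤ (C ^ 2)⁻¹ := by have := h.pos; positivity
    refine mul_le_mul_of_nonneg_left ?_ hCi
    rw [inner_sub_right, e2, sum_inner, sum_inner]
    have e5 : 0 ≤ ∑ n ∈ Finset.Ico N M, inner ℝ (it T C x n) (it T C x M) := by
      refine Finset.sum_nonneg fun n _ => ?_
      rw [← h.av_add]; exact h.av_nonneg _ _
    have e6 : ∑ n ∈ Finset.Ico N M, inner ℝ (it T C x n) (it T C x N) =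
        ∑ n ∈ Finset.Ico N M, av T C x (n + N) := by
      refine Finset.sum_congr rfl fun n _ => ?_
      rw [← h.av_add]
    rw [e6]; linarith
  have hcau : CauchySeq y := by
    rw [Metric.cauchySeq_iff']
    intro ε hε
    have hCp := h.pos
    have htail : Tendsto (fun N => ∑' n, av T C x (n + N)) atTop (𝓝 0) := tendsto_sum_nat_add _
    obtain ⟨N, hN⟩ := ((tendsto_order.1 htail).2 (C ^ 2 * ε ^ 2) (by positivity)).exists
    refine ⟨N, fun n hn => ?_⟩
    rw [dist_eq_norm]
    have h1 := hnorm N n hn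
    have h2 : ∑ k ∈ Finset.Ico N n, av T C x (k + N) ≤ ∑' n, av T C x (n + N) := by
      have h3 : ∑ k ∈ Finset.Ico N n, av T C x (k + N) ≤ ∑ k ∈ Finset.Ico N n, av T C x k := by
        refine Finset.sum_le_sum fun k _ => h.av_antitone x (by omega)
      refine h3.trans ?_
      have h4 : ∑ k ∈ Finset.Ico N n, av T C x k = ∑ k ∈ range (n - N), av T C x (k + N) := by
        rw [Finset.sum_Ico_eq_sum_range]
        refine Finset.sum_congr rfl fun k _ => by rw [add_comm]
      rw [h4]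
      exact Summable.sum_le_tsum _ (fun k _ => h.av_nonneg x _) ((summable_nat_add_iff N).2 hx)
    have h3 : ‖y n - y N‖ ^ 2 < ε ^ 2 := by
      refine lt_of_le_of_lt h1 ?_
      rw [inv_mul_lt_iff₀ (by positivity)]
      exact lt_of_le_of_lt h2 hN
    exact lt_of_pow_lt_pow_left₀ 2 hε.le h3
  obtain ⟨z, hz⟩ := cauchySeq_tendsto_of_complete hcau
  refine ⟨z, ?_⟩
  obtain ⟨u, hu, horth, hav, hlim⟩ := h.lim_exists x
  have hu0 : u = 0 := by
    have h1 : ‖u‖ ^ 2 = 0 := tendsto_nhds_unique hav hx.tendsto_atTop_zero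
    exact norm_eq_zero.1 (pow_eq_zero_iff (two_ne_zero) |>.1 h1)
  rw [hu0] at hlim
  have h1 : Tendsto (fun M => T (y M)) atTop (𝓝 (T z)) := (T.continuous.tendsto z).comp hz
  have h2 : Tendsto (fun M => T (y M)) atTop (𝓝 (x - 0)) := by
    simp_rw [hTy]
    exact tendsto_const_nhds.sub hlim
  rw [sub_zero] at h2
  exact tendsto_nhds_unique h1 h2

end Abstract

end Pool.Agent.K4H57.UGW
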