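import Mathlib
import Pool.Agent.K4H57.UGW.Hilb

set_option autoImplicit false
set_option linter.unusedSimpArgs false
set_option linter.unusedVariables false
set_option linter.unusedSectionVars false

open Filter Topology Finset
open scoped ENNReal

namespace Pool.Agent.K4H57.UGW

/-- words -/
abbrev W := List ℕ

/-- real `ℓ²` over words -/
abbrev H := lp (fun _ : W => ℝ) 2

theorem mem_iff (f : W → ℝ) : Memℓp (E := fun _ : W => ℝ) f 2 ↔ Summable (fun v => f v ^ 2) := by
  rw [memℓp_gen_iff (by norm_num)]
  simp

theorem summ (f : H) : Summable (fun v => f v ^ 2) := (mem_iff _).1 f.2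

theorem inner_eq (f g : H) : inner ℝ f g = ∑' v, f v * g v := by
  rw [lp.inner_eq_tsum]
  refine tsum_congr fun v => ?_
  simp [mul_comm]

theorem nsq (f : H) : ‖f‖ ^ 2 = ∑' v, f v ^ 2 := by
  rw [← real_inner_self_eq_norm_sq, inner_eq]
  refine tsum_congr fun v => ?_
  ring

theorem extend_sq (e : W → W) (f : W → ℝ) :
    (fun v => Function.extend e f 0 v ^ 2) = Function.extend e (fun u => f u ^ 2) 0 := by
  funext v
  by_cases h : ∃ u, e u = v
  · rw [Function.extend, Function.extend, dif_pos h, dif_pos h]
  · rw [Function.extend_apply' _ _ _ h, Function.extend_apply' _ _ _ h]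
    simp

theorem extend_mul (e : W → W) (he : Function.Injective e) (f g : W → ℝ) :
    (fun v => Function.extend e f 0 v * g v) = Function.extend e (fun u => f u * g (e u)) 0 := by
  funext v
  by_cases h : ∃ u, e u = v
  · obtain ⟨u, rfl⟩ := h
    rw [he.extend_apply, he.extend_apply]
  · simp [Function.extend_def, h]

/-- restriction along an injective map -/
noncomputable def R (e : W → W) (he : Function.Injective e) : H →L[ℝ] H :=
  LinearMap.mkContinuous
    { toFun := fun f => ⟨fun v => f (e v), (mem_iff _).2 ((summ f).comp_injective he)⟩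
      map_add' := fun f g => by ext v; rfl
      map_smul' := fun a f => by ext v; rfl } 1 (by
    intro f
    rw [one_mul]
    refine le_of_sq_le_sq ?_ (norm_nonneg _)
    rw [nsq, nsq]
    exact tsum_comp_le_tsum_of_inj (summ f) (fun v => sq_nonneg _) he)

theorem R_apply (e : W → W) (he : Function.Injective e) (f : H) (v : W) : R e he f v = f (e v) := rfl

/-- extension by zero along an injective map -/
noncomputable def X (e : W → W) (he : Function.Injective e) : H →L[ℝ] H :=
  LinearMap.mkContinuous
    { toFun := fun f => ⟨Function.extend e f 0, (mem_iff _).2 (by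
        rw [extend_sq]; exact (summable_extend_zero he).2 (summ f))⟩
      map_add' := fun f g => by
        ext v
        by_cases h : ∃ u, e u = v
        · obtain ⟨u, rfl⟩ := h
          simp [he.extend_apply]
        · simp [Function.extend_def, h]
      map_smul' := fun a f => by
        ext v
        by_cases h : ∃ u, e u = v
        · obtain ⟨u, rfl⟩ := h
          simp [he.extend_apply]
        · simp [Function.extend_def, h] } 1 (by
    intro f
    rw [one_mul]
    refine le_of_sq_le_sq ?_ (norm_nonneg _)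
    rw [nsq, nsq]
    refine le_of_eq ?_
    change ∑' v, (Function.extend e f 0 v) ^ 2 = _
    rw [extend_sq, tsum_extend_zero he])

theorem X_apply (e : W → W) (he : Function.Injective e) (f : H) (v : W) :
    X e he f v = Function.extend e f 0 v := rfl

theorem X_apply_map (e : W → W) (he : Function.Injective e) (f : H) (v : W) :
    X e he f (e v) = f v := by
  rw [X_apply, he.extend_apply]

theorem X_apply_of_not (e : W → W) (he : Function.Injective e) (f : H) (v : W)
    (h : ¬ ∃ u, e u = v) : X e he f v = 0 := by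
  rw [X_apply, Function.extend_apply' _ _ _ h]; rfl

/-- multiplication by an indicator function -/
noncomputable def Mu (s : W → Prop) [DecidablePred s] : H →L[ℝ] H :=
  LinearMap.mkContinuous
    { toFun := fun f => ⟨fun v => if s v then f v else 0, (mem_iff _).2 (by
        refine Summable.of_nonneg_of_le (fun v => sq_nonneg _) (fun v => ?_) (summ f)
        split_ifs
        · exact le_rfl
        · rw [zero_pow two_ne_zero]; exact sq_nonneg _)⟩
      map_add' := fun f g => by
        ext v
        by_cases h : s v <;> simp [h]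
      map_smul' := fun a f => by
        ext v
        by_cases h : s v <;> simp [h] } 1 (by
    intro f
    rw [one_mul]
    refine le_of_sq_le_sq ?_ (norm_nonneg _)
    rw [nsq, nsq]
    refine Summable.tsum_le_tsum (fun v => ?_) ?_ (summ f)
    · change (if s v then f v else 0) ^ 2 ≤ _
      split_ifs
      · exact le_rfl
      · rw [zero_pow two_ne_zero]; exact sq_nonneg _
    · exact summ _)

theorem Mu_apply (s : W → Prop) [DecidablePred s] (f : H) (v : W) :
    Mu s f v = if s v then f v else 0 := rfl

theorem norm_R_le (e : W → W) (he : Function.Injective e) (f : H) : ‖R e he f‖ ≤ ‖f‖ := by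
  have := (R e he).le_opNorm f
  have h2 : ‖R e he‖ ≤ 1 := LinearMap.mkContinuous_norm_le _ zero_le_one _
  calc ‖R e he f‖ ≤ ‖R e he‖ * ‖f‖ := this
    _ ≤ 1 * ‖f‖ := mul_le_mul_of_nonneg_right h2 (norm_nonneg _)
    _ = ‖f‖ := one_mul _

theorem norm_X_le (e : W → W) (he : Function.Injective e) (f : H) : ‖X e he f‖ ≤ ‖f‖ := by
  have := (X e he).le_opNorm f
  have h2 : ‖X e he‖ ≤ 1 := LinearMap.mkContinuous_norm_le _ zero_le_one _
  calc ‖X e he f‖ ≤ ‖X e he‖ * ‖f‖ := this
    _ ≤ 1 * ‖f‖ := mul_le_mul_of_nonneg_right h2 (norm_nonneg _)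
    _ = ‖f‖ := one_mul _

theorem norm_Mu_le (s : W → Prop) [DecidablePred s] (f : H) : ‖Mu s f‖ ≤ ‖f‖ := by
  have := (Mu s).le_opNorm f
  have h2 : ‖Mu s‖ ≤ 1 := LinearMap.mkContinuous_norm_le _ zero_le_one _
  calc ‖Mu s f‖ ≤ ‖Mu s‖ * ‖f‖ := this
    _ ≤ 1 * ‖f‖ := mul_le_mul_of_nonneg_right h2 (norm_nonneg _)
    _ = ‖f‖ := one_mul _

theorem inner_X (e : W → W) (he : Function.Injective e) (f g : H) :
    inner ℝ (X e he f) g = inner ℝ f (R e he g) := by
  rw [inner_eq, inner_eq]
  change ∑' v, Function.extend e f 0 v * g v = ∑' v, f v * g (e v)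
  rw [extend_mul e he, tsum_extend_zero he]

theorem inner_X' (e : W → W) (he : Function.Injective e) (f g : H) :
    inner ℝ g (X e he f) = inner ℝ (R e he g) f := by
  rw [real_inner_comm, inner_X, real_inner_comm]

theorem inner_Mu (s : W → Prop) [DecidablePred s] (f g : H) :
    inner ℝ (Mu s f) g = inner ℝ f (Mu s g) := by
  rw [inner_eq, inner_eq]
  refine tsum_congr fun v => ?_
  rw [Mu_apply, Mu_apply]
  split_ifs <;> simp

theorem app_inj (i : ℕ) : Function.Injective (fun v : W => v ++ [i]) := fun _ _ h => by simpa using h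

theorem cns_inj (i : ℕ) : Function.Injective (fun v : W => i :: v) := fun _ _ h => by simpa using h

/-- the basis vector of the root -/
noncomputable def dl : H := lp.single 2 ([] : W) (1 : ℝ)

theorem dl_nil : dl ([] : W) = 1 := by simp [dl]

theorem dl_ne {v : W} (hv : v ≠ []) : dl v = 0 := by
  simp [dl, lp.single_apply, Pi.single_apply, hv]

theorem inner_dl (f : H) : inner ℝ dl f = f [] := by
  rw [dl, lp.inner_single_left]; simp

theorem inner_dl' (f : H) : inner ℝ f dl = f [] := by
  rw [real_inner_comm, inner_dl]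

/-- adjacency operator of the forest in which `v` is adjacent to `v ++ [i]`, `i < t v`, `i < D` -/
noncomputable def A (D : ℕ) (t : W → ℕ) : H →L[ℝ] H :=
  ∑ i ∈ range D, ((X _ (app_inj i)).comp (Mu (fun v => i < t v)) +
    (Mu (fun v => i < t v)).comp (R _ (app_inj i)))

theorem A_apply (D : ℕ) (t : W → ℕ) (f : H) (v : W) :
    A D t f v = ∑ i ∈ range D, (X _ (app_inj i) (Mu (fun v => i < t v) f) v +
      if i < t v then f (v ++ [i]) else 0) := by
  unfold A
  rw [_root_.sum_apply]
  have : ∀ (s : Finset ℕ) (g : ℕ → H), (∑ i ∈ s, g i) v = ∑ i ∈ s, g i v := by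
    intro s g
    induction s using Finset.cons_induction with
    | empty => simp
    | cons a s ha ih => rw [Finset.sum_cons, Finset.sum_cons, lp.coeFn_add, Pi.add_apply, ih]
  rw [this]
  rfl

theorem A_symm (D : ℕ) (t : W → ℕ) (f g : H) : inner ℝ (A D t f) g = inner ℝ f (A D t g) := by
  unfold A
  rw [_root_.sum_apply, _root_.sum_apply, sum_inner, inner_sum]
  refine sum_congr rfl fun i _ => ?_
  simp only [_root_.add_apply, ContinuousLinearMap.comp_apply, inner_add_left,
    inner_add_right]
  rw [inner_X, inner_Mu, inner_X', inner_Mu, add_comm]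

theorem norm_A_le (D : ℕ) (t : W → ℕ) (f : H) : ‖A D t f‖ ≤ (2 * D) * ‖f‖ := by
  unfold A
  rw [_root_.sum_apply]
  refine (norm_sum_le _ _).trans ?_
  have : ∀ i ∈ range D, ‖((X _ (app_inj i)).comp (Mu (fun v => i < t v)) +
    (Mu (fun v => i < t v)).comp (R _ (app_inj i))) f‖ ≤ 2 * ‖f‖ := by
    intro i _
    rw [_root_.add_apply, ContinuousLinearMap.comp_apply,
      ContinuousLinearMap.comp_apply]
    refine (norm_add_le _ _).trans ?_
    have h1 := (norm_X_le _ (app_inj i) (Mu (fun v => i < t v) f)).trans (norm_Mu_le _ f)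
    have h2 := (norm_Mu_le (fun v => i < t v) (R _ (app_inj i) f)).trans (norm_R_le _ (app_inj i) f)
    linarith
  refine (sum_le_sum this).trans ?_
  rw [sum_const, card_range, nsmul_eq_mul]
  linarith

theorem X_app_nil (i : ℕ) (f : H) : X _ (app_inj i) f [] = 0 := by
  refine X_apply_of_not _ _ _ _ ?_
  rintro ⟨u, hu⟩
  simp at hu

theorem X_app_snoc (i j : ℕ) (f : H) (u : W) :
    X _ (app_inj i) f (u ++ [j]) = if i = j then f u else 0 := by
  split_ifs with h
  · subst h
    exact X_apply_map _ (app_inj i) f u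
  · refine X_apply_of_not _ _ _ _ ?_
    rintro ⟨u', hu'⟩
    have := List.append_inj' hu' rfl
    simp at this
    exact h this.2

theorem A_nil (D : ℕ) (t : W → ℕ) (f : H) :
    A D t f [] = ∑ i ∈ range D, if i < t [] then f [i] else 0 := by
  rw [A_apply]
  refine sum_congr rfl fun i _ => ?_
  rw [X_app_nil, zero_add]
  rfl

theorem A_snoc (D : ℕ) (t : W → ℕ) (f : H) (u : W) (j : ℕ) :
    A D t f (u ++ [j]) = (if j < D ∧ j < t u then f u else 0) +
      ∑ i ∈ range D, if i < t (u ++ [j]) then f (u ++ [j] ++ [i]) else 0 := by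
  rw [A_apply, sum_add_distrib]
  congr 1
  have : ∀ i ∈ range D, X _ (app_inj i) (Mu (fun v => i < t v) f) (u ++ [j]) =
      if i = j then (if i < t u then f u else 0) else 0 := by
    intro i _
    rw [X_app_snoc, Mu_apply]
  rw [sum_congr rfl this, sum_ite_eq' (range D) j]
  by_cases h1 : j < D <;> by_cases h2 : j < t u <;> simp [h1, h2]

/-- the subtree at the `i`-th child of the root -/
def child (i : ℕ) (t : W → ℕ) : W → ℕ := fun w => t (i :: w)

/-- restriction of a function to the `i`-th subtree -/
noncomputable abbrev Rc (i : ℕ) : H →L[ℝ] H := R _ (cns_inj i)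

/-- extension of a function from the `i`-th subtree -/
noncomputable abbrev Xc (i : ℕ) : H →L[ℝ] H := X _ (cns_inj i)

theorem Rc_A (D : ℕ) (t : W → ℕ) (f : H) (j : ℕ) :
    Rc j (A D t f) = A D (child j t) (Rc j f) + (if j < D ∧ j < t [] then f [] else 0) • dl := by
  ext w
  rw [R_apply]
  change A D t f (j :: w) = A D (child j t) (Rc j f) w + _ * dl w
  rcases List.eq_nil_or_concat w with rfl | ⟨w', k, rfl⟩
  · rw [A_nil, dl_nil]
    have := A_snoc D t f [] j
    simp only [List.nil_append] at this
    rw [this, add_comm, mul_one]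
    rfl
  · rw [List.concat_eq_append, A_snoc, dl_ne (by simp), mul_zero, add_zero]
    have := A_snoc D t f (j :: w') k
    simp only [List.cons_append] at this ⊢
    rw [this]
    rfl

theorem Rc_dl (j : ℕ) : Rc j dl = 0 := by
  ext w
  rw [R_apply]
  exact dl_ne (by simp)

theorem Rc_Xc (j : ℕ) (f : H) : Rc j (Xc j f) = f := by
  ext w
  rw [R_apply]
  exact X_apply_map _ (cns_inj j) f w

theorem Rc_Xc_ne {i j : ℕ} (h : i ≠ j) (f : H) : Rc i (Xc j f) = 0 := by
  ext w
  rw [R_apply]
  refine X_apply_of_not _ _ _ _ ?_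
  rintro ⟨u, hu⟩
  simp at hu
  exact h hu.1.symm

theorem Xc_nil (j : ℕ) (f : H) : Xc j f [] = 0 := by
  refine X_apply_of_not _ _ _ _ ?_
  rintro ⟨u, hu⟩
  simp at hu

theorem Rc_nil (j : ℕ) (f : H) : Rc j f [] = f [j] := rfl

theorem H_ext {f g : H} (h0 : f [] = g []) (h : ∀ i, Rc i f = Rc i g) : f = g := by
  ext w
  cases w with
  | nil => exact h0
  | cons i w =>
    have := congrArg (fun F : H => F w) (h i)
    exact this

theorem sum_apply (s : Finset ℕ) (g : ℕ → H) (v : W) : (∑ i ∈ s, g i) v = ∑ i ∈ s, g i v := by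
  induction s using Finset.cons_induction with
  | empty => simp
  | cons a s ha ih => rw [Finset.sum_cons, Finset.sum_cons, lp.coeFn_add, Pi.add_apply, ih]

end Pool.Agent.K4H57.UGW
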