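import Mathlib
import Pool.Agent.K4H57.UGW.Op

set_option autoImplicit false
set_option linter.unusedSimpArgs false
set_option linter.unusedVariables false
set_option linter.unusedSectionVars false

open Filter Topology Finset
open scoped ENNReal

namespace Pool.Agent.K4H57.UGW

/-- adjacency operator minus `l` -/
noncomputable def Tt (D : ℕ) (l : ℝ) (t : W → ℕ) : H →L[ℝ] H :=
  A D t - l • ContinuousLinearMap.id ℝ H

/-- the bound -/
noncomputable def Cc (D : ℕ) (l : ℝ) : ℝ := 2 * D + |l| + 1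

theorem Tt_apply (D : ℕ) (l : ℝ) (t : W → ℕ) (f : H) : Tt D l t f = A D t f - l • f := rfl

theorem sbt (D : ℕ) (l : ℝ) (t : W → ℕ) : SB (Tt D l t) (Cc D l) where
  symm := by
    intro x y
    rw [Tt_apply, Tt_apply, inner_sub_left, inner_sub_right, A_symm, inner_smul_left,
      inner_smul_right]
    simp
  bound := by
    intro x
    rw [Tt_apply]
    refine (norm_sub_le _ _).trans ?_
    rw [norm_smul, Real.norm_eq_abs]
    have := norm_A_le D t x
    unfold Cc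
    have h2 := norm_nonneg x
    nlinarith
  pos := by unfold Cc; positivity

/-- the children of the root -/
def ch (D : ℕ) (t : W → ℕ) : Finset ℕ := (range D).filter (fun i => i < t [])

theorem mem_ch {D : ℕ} {t : W → ℕ} {i : ℕ} : i ∈ ch D t ↔ i < D ∧ i < t [] := by
  rw [ch, mem_filter, mem_range]

variable {D : ℕ} {l : ℝ}

theorem Tt_nil (t : W → ℕ) (f : H) : Tt D l t f [] = ∑ i ∈ ch D t, Rc i f [] - l * f [] := by
  rw [Tt_apply, lp.coeFn_sub, Pi.sub_apply, A_nil, ch, sum_filter]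
  rfl

theorem Rc_Tt (t : W → ℕ) (f : H) (i : ℕ) :
    Rc i (Tt D l t f) = Tt D l (child i t) (Rc i f) + (if i ∈ ch D t then f [] else 0) • dl := by
  rw [Tt_apply, map_sub, Rc_A, map_smul, Tt_apply]
  simp only [mem_ch]
  abel

/-- the vector with root value `a` and restrictions `g i`, `i ∈ s` -/
noncomputable def mk (s : Finset ℕ) (a : ℝ) (g : ℕ → H) : H := a • dl + ∑ i ∈ s, Xc i (g i)

theorem mk_nil (s : Finset ℕ) (a : ℝ) (g : ℕ → H) : mk s a g [] = a := by
  unfold mk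
  rw [lp.coeFn_add, Pi.add_apply, sum_apply, lp.coeFn_smul, Pi.smul_apply, dl_nil]
  simp only [Xc_nil, sum_const_zero]
  simp

theorem Rc_mk (s : Finset ℕ) (a : ℝ) (g : ℕ → H) (i : ℕ) :
    Rc i (mk s a g) = if i ∈ s then g i else 0 := by
  unfold mk
  rw [map_add, map_smul, Rc_dl, smul_zero, zero_add, map_sum]
  split_ifs with h
  · rw [sum_eq_single i]
    · exact Rc_Xc i _
    · intro j _ hj
      exact Rc_Xc_ne (Ne.symm hj) _
    · intro h'; exact absurd h h'
  · refine sum_eq_zero fun j hj => ?_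
    refine Rc_Xc_ne ?_ _
    rintro rfl
    exact h hj

theorem inner_mk (s : Finset ℕ) (a : ℝ) (g : ℕ → H) (z : H) :
    inner ℝ z (mk s a g) = a * z [] + ∑ i ∈ s, inner ℝ (Rc i z) (g i) := by
  unfold mk
  rw [inner_add_right, inner_smul_right, inner_dl', inner_sum]
  congr 1
  refine sum_congr rfl fun i _ => ?_
  exact inner_X' _ _ _ _

theorem norm_mk (s : Finset ℕ) (a : ℝ) (g : ℕ → H) :
    ‖mk s a g‖ ^ 2 = a ^ 2 + ∑ i ∈ s, ‖g i‖ ^ 2 := by
  rw [← real_inner_self_eq_norm_sq, inner_mk, mk_nil, sq]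
  congr 1
  refine sum_congr rfl fun i hi => ?_
  rw [Rc_mk, if_pos hi, real_inner_self_eq_norm_sq]

theorem Tt_mk (t : W → ℕ) (a : ℝ) (g : ℕ → H)
    (hg : ∀ i ∈ ch D t, Tt D l (child i t) (g i) = -(a • dl)) :
    Tt D l t (mk (ch D t) a g) = (∑ i ∈ ch D t, g i [] - l * a) • dl := by
  apply H_ext
  · rw [Tt_nil, mk_nil, lp.coeFn_smul, Pi.smul_apply, dl_nil]
    simp only [smul_eq_mul, mul_one]
    congr 1
    refine sum_congr rfl fun i hi => ?_
    rw [Rc_mk, if_pos hi]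
  · intro i
    rw [Rc_Tt, mk_nil, Rc_mk, map_smul, Rc_dl, smul_zero]
    split_ifs with h
    · rw [hg i h]; simp
    · simp

/-- splitting the equation `T f = c dl` -/
theorem Tt_eq {t : W → ℕ} {f : H} {c : ℝ} (h : Tt D l t f = c • dl) :
    (∑ i ∈ ch D t, Rc i f [] - l * f [] = c) ∧
    (∀ i ∈ ch D t, Tt D l (child i t) (Rc i f) = -(f [] • dl)) := by
  constructor
  · rw [← Tt_nil, h, lp.coeFn_smul, Pi.smul_apply, dl_nil]
    simp
  · intro i hi
    have h1 := Rc_Tt (D := D) (l := l) t f i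
    rw [h, map_smul, Rc_dl, smul_zero, if_pos hi] at h1
    exact eq_neg_of_add_eq_zero_left h1.symm

variable (D l) in
/-- `+` type: there is an eigenfunction which does not vanish at the root -/
def Pl (t : W → ℕ) : Prop := ∃ f : H, Tt D l t f = 0 ∧ f [] ≠ 0

variable (D l) in
/-- good type: the basis vector of the root is in the range of `A - l` -/
def Gd (t : W → ℕ) : Prop := ∃ f : H, Tt D l t f = -dl

variable (D l) in
theorem uu_ex (t : W → ℕ) : ∃ u : H, Tt D l t u = 0 ∧ (∀ z, Tt D l t z = 0 → inner ℝ z u = z []) ∧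
    Tendsto (av (Tt D l t) (Cc D l) dl) atTop (𝓝 (‖u‖ ^ 2)) := by
  obtain ⟨u, h1, h2, h3, -⟩ := (sbt D l t).lim_exists dl
  refine ⟨u, h1, fun z hz => ?_, h3⟩
  rw [h2 z hz, inner_dl']

variable (D l) in
/-- the projection of `dl` on the kernel -/
noncomputable def uu (t : W → ℕ) : H := (uu_ex D l t).choose

theorem uu_ker (t : W → ℕ) : Tt D l t (uu D l t) = 0 := (uu_ex D l t).choose_spec.1

theorem uu_inner (t : W → ℕ) {z : H} (hz : Tt D l t z = 0) : inner ℝ z (uu D l t) = z [] :=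
  (uu_ex D l t).choose_spec.2.1 z hz

variable (D l) in
/-- the mass at the root -/
noncomputable def mm (t : W → ℕ) : ℝ := ‖uu D l t‖ ^ 2

theorem mm_tendsto (t : W → ℕ) : Tendsto (av (Tt D l t) (Cc D l) dl) atTop (𝓝 (mm D l t)) :=
  (uu_ex D l t).choose_spec.2.2

theorem mm_nonneg (t : W → ℕ) : 0 ≤ mm D l t := sq_nonneg _

theorem uu_nil (t : W → ℕ) : uu D l t [] = mm D l t := by
  rw [← uu_inner t (uu_ker t), real_inner_self_eq_norm_sq]; rfl

theorem mm_pos_iff (t : W → ℕ) : 0 < mm D l t ↔ Pl D l t := by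
  constructor
  · intro h
    exact ⟨uu D l t, uu_ker t, by rw [uu_nil]; exact h.ne'⟩
  · rintro ⟨f, hf, hf0⟩
    rw [← uu_inner t hf] at hf0
    have : uu D l t ≠ 0 := by
      intro h
      rw [h, inner_zero_right] at hf0
      exact hf0 rfl
    unfold mm
    have := norm_pos_iff.2 this
    positivity

theorem Gd.ker_nil {t : W → ℕ} (h : Gd D l t) {f : H} (hf : Tt D l t f = 0) : f [] = 0 := by
  obtain ⟨y, hy⟩ := h
  have : inner ℝ f (Tt D l t y) = 0 := by
    rw [← (sbt D l t).symm, hf, inner_zero_left]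
  rw [hy, inner_neg_right, inner_dl'] at this
  linarith

theorem Gd.not_Pl {t : W → ℕ} (h : Gd D l t) : ¬ Pl D l t := by
  rintro ⟨f, hf, hf0⟩
  exact hf0 (h.ker_nil hf)

theorem Gd.mm_eq {t : W → ℕ} (h : Gd D l t) : mm D l t = 0 := by
  by_contra h'
  exact h.not_Pl ((mm_pos_iff t).1 (lt_of_le_of_ne (mm_nonneg t) (Ne.symm h')))

theorem Gd.ex {t : W → ℕ} (h : Gd D l t) : ∃ y : H, Tt D l t y = -dl ∧
    (∀ z, Tt D l t z = 0 → inner ℝ z y = 0) ∧
    HasSum (av (Tt D l t) (Cc D l) (-dl)) ((Cc D l) ^ 2 * ‖y‖ ^ 2) ∧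
    Tendsto (fun M : ℕ => ((Cc D l) ^ 2)⁻¹ • ∑ n ∈ range M,
      Tt D l t (it (Tt D l t) (Cc D l) (-dl) n)) atTop (𝓝 y) :=
  (sbt D l t).sol_min (-dl) h

open Classical in
variable (D l) in
/-- the minimal solution of `T y = -dl` -/
noncomputable def yy (t : W → ℕ) : H := if h : Gd D l t then h.ex.choose else 0

theorem Gd.yy_eq {t : W → ℕ} (h : Gd D l t) : Tt D l t (yy D l t) = -dl := by
  rw [yy, dif_pos h]; exact h.ex.choose_spec.1

theorem Gd.yy_orth {t : W → ℕ} (h : Gd D l t) {z : H} (hz : Tt D l t z = 0) :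
    inner ℝ z (yy D l t) = 0 := by
  rw [yy, dif_pos h]; exact h.ex.choose_spec.2.1 z hz

variable (D l) in
noncomputable def al (t : W → ℕ) : ℝ := ‖yy D l t‖ ^ 2

variable (D l) in
noncomputable def be (t : W → ℕ) : ℝ := yy D l t []

theorem al_nonneg (t : W → ℕ) : 0 ≤ al D l t := sq_nonneg _

theorem Gd.hasSum {t : W → ℕ} (h : Gd D l t) :
    HasSum (av (Tt D l t) (Cc D l) (-dl)) ((Cc D l) ^ 2 * al D l t) := by
  have := h.ex.choose_spec.2.2.1
  rw [al, yy, dif_pos h]; exact this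

theorem Gd.tendsto_yy {t : W → ℕ} (h : Gd D l t) :
    Tendsto (fun M : ℕ => ((Cc D l) ^ 2)⁻¹ • ∑ n ∈ range M,
      Tt D l t (it (Tt D l t) (Cc D l) (-dl) n)) atTop (𝓝 (yy D l t)) := by
  have := h.ex.choose_spec.2.2.2
  rw [yy, dif_pos h]; exact this

theorem Gd.yy_ne {t : W → ℕ} (h : Gd D l t) : yy D l t ≠ 0 := by
  intro h0
  have h1 := h.yy_eq
  rw [h0, map_zero] at h1
  have h2 := congrArg (fun F : H => F []) h1
  simp only [lp.coeFn_zero, Pi.zero_apply, lp.coeFn_neg, Pi.neg_apply, dl_nil] at h2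
  norm_num at h2

theorem Gd.al_pos {t : W → ℕ} (h : Gd D l t) : 0 < al D l t := by
  have := norm_pos_iff.2 h.yy_ne
  unfold al
  positivity

theorem yy_unique {t : W → ℕ} {f : H} (hf : Tt D l t f = -dl)
    (ho : ∀ z, Tt D l t z = 0 → inner ℝ z f = 0) : Gd D l t ∧ yy D l t = f := by
  have h : Gd D l t := ⟨f, hf⟩
  refine ⟨h, ?_⟩
  have h1 : Tt D l t (yy D l t - f) = 0 := by rw [map_sub, h.yy_eq, hf, sub_self]
  have h2 : inner ℝ (yy D l t - f) (yy D l t - f) = 0 := by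
    rw [inner_sub_right, h.yy_orth h1, ho _ h1, sub_self]
  exact sub_eq_zero.1 (inner_self_eq_zero.1 h2)

theorem Gd.smul {t : W → ℕ} {f : H} {a : ℝ} (ha : a ≠ 0) (hf : Tt D l t f = -(a • dl)) :
    Gd D l t := by
  refine ⟨a⁻¹ • f, ?_⟩
  rw [map_smul, hf, smul_neg, smul_smul, inv_mul_cancel₀ ha, one_smul]

/-- value at the root of any solution -/
theorem Gd.nil_eq {t : W → ℕ} (h : Gd D l t) {f : H} {a : ℝ} (hf : Tt D l t f = -(a • dl)) :
    f [] = a * be D l t := by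
  have h1 : Tt D l t (f - a • yy D l t) = 0 := by
    rw [map_sub, map_smul, h.yy_eq, hf]; simp
  have h2 := h.ker_nil h1
  rw [lp.coeFn_sub, Pi.sub_apply, lp.coeFn_smul, Pi.smul_apply] at h2
  simp only [smul_eq_mul] at h2
  unfold be
  linarith

/-- inner product of a solution with the minimal one -/
theorem Gd.inner_eq {t : W → ℕ} (h : Gd D l t) {f : H} {a : ℝ} (hf : Tt D l t f = -(a • dl)) :
    inner ℝ f (yy D l t) = a * al D l t := by
  have h1 : Tt D l t (f - a • yy D l t) = 0 := by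
    rw [map_sub, map_smul, h.yy_eq, hf]; simp
  have h2 := h.yy_orth h1
  rw [inner_sub_left, inner_smul_left, real_inner_self_eq_norm_sq] at h2
  simp only [conj_trivial] at h2
  unfold al
  linarith

/-! ### the recursion -/

/-- a `+` child -/
theorem rec_zero {t : W → ℕ} {i : ℕ} (hi : i ∈ ch D t) (hp : Pl D l (child i t)) :
    Gd D l t ∧ be D l t = 0 ∧ al D l t = (∑ j ∈ ch D t, mm D l (child j t))⁻¹ := by
  set M := ∑ j ∈ ch D t, mm D l (child j t) with hM
  have hMpos : 0 < M := by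
    refine lt_of_lt_of_le ((mm_pos_iff _).2 hp) ?_
    exact single_le_sum (f := fun j => mm D l (child j t)) (fun j _ => mm_nonneg _) hi
  set f := mk (ch D t) 0 (fun j => -(M⁻¹ • uu D l (child j t))) with hf
  have hTf : Tt D l t f = -dl := by
    rw [hf, Tt_mk]
    · have : ∑ j ∈ ch D t, (-(M⁻¹ • uu D l (child j t)) : H) [] = -1 := by
        have : ∀ j ∈ ch D t, (-(M⁻¹ • uu D l (child j t)) : H) [] = -(M⁻¹ * mm D l (child j t)) := by
          intro j _
          rw [lp.coeFn_neg, Pi.neg_apply, lp.coeFn_smul, Pi.smul_apply, uu_nil, smul_eq_mul]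
        rw [sum_congr rfl this, sum_neg_distrib, ← mul_sum, ← hM, inv_mul_cancel₀ hMpos.ne']
      rw [this]; simp
    · intro j _
      rw [map_neg, map_smul, uu_ker]; simp
  have hG : Gd D l t := ⟨f, hTf⟩
  have ho : ∀ z, Tt D l t z = 0 → inner ℝ z f = 0 := by
    intro z hz
    have hz0 := hG.ker_nil hz
    obtain ⟨h1, h2⟩ := Tt_eq (c := 0) (by rw [hz]; simp : Tt D l t z = (0 : ℝ) • dl)
    rw [hf, inner_mk]
    have h3 : ∀ j ∈ ch D t, inner ℝ (Rc j z) (-(M⁻¹ • uu D l (child j t))) = -(M⁻¹ * Rc j z []) := by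
      intro j hj
      have h4 := h2 j hj
      rw [hz0] at h4
      rw [inner_neg_right, inner_smul_right, uu_inner _ (by rw [h4]; simp)]
    rw [sum_congr rfl h3, sum_neg_distrib, ← mul_sum]
    have h5 : ∑ j ∈ ch D t, Rc j z [] = 0 := by rw [hz0] at h1; linarith
    rw [h5]; simp
  obtain ⟨-, hy⟩ := yy_unique hTf ho
  refine ⟨hG, ?_, ?_⟩
  · rw [be, hy, hf, mk_nil]
  · rw [al, hy, hf, norm_mk]
    have : ∀ j ∈ ch D t, ‖(-(M⁻¹ • uu D l (child j t)) : H)‖ ^ 2 = M⁻¹ ^ 2 * mm D l (child j t) := by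
      intro j _
      rw [norm_neg, norm_smul, mul_pow, Real.norm_eq_abs, sq_abs]; rfl
    rw [sum_congr rfl this, ← mul_sum, ← hM]
    field_simp
    ring

/-- all children are good -/
theorem rec_real {t : W → ℕ} (hg : ∀ i ∈ ch D t, Gd D l (child i t))
    (hs : l - ∑ i ∈ ch D t, be D l (child i t) ≠ 0) :
    Gd D l t ∧ be D l t = (l - ∑ i ∈ ch D t, be D l (child i t))⁻¹ ∧
      al D l t = (1 + ∑ i ∈ ch D t, al D l (child i t)) /
        (l - ∑ i ∈ ch D t, be D l (child i t)) ^ 2 := by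
  set s := l - ∑ i ∈ ch D t, be D l (child i t) with hsdef
  set f := mk (ch D t) s⁻¹ (fun j => s⁻¹ • yy D l (child j t)) with hf
  have hTf : Tt D l t f = -dl := by
    rw [hf, Tt_mk]
    · have : ∑ j ∈ ch D t, (s⁻¹ • yy D l (child j t) : H) [] =
          s⁻¹ * ∑ j ∈ ch D t, be D l (child j t) := by
        rw [mul_sum]
        refine sum_congr rfl fun j _ => ?_
        rw [lp.coeFn_smul, Pi.smul_apply, smul_eq_mul]; rfl
      rw [this]
      have h2 : s⁻¹ * ∑ j ∈ ch D t, be D l (child j t) - l * s⁻¹ = -1 := by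
        have h3 : ∑ j ∈ ch D t, be D l (child j t) = l - s := by rw [hsdef]; ring
        rw [h3]; field_simp; ring
      rw [h2]; simp
    · intro j hj
      rw [map_smul, (hg j hj).yy_eq, smul_neg]
  have hG : Gd D l t := ⟨f, hTf⟩
  have ho : ∀ z, Tt D l t z = 0 → inner ℝ z f = 0 := by
    intro z hz
    have hz0 := hG.ker_nil hz
    obtain ⟨h1, h2⟩ := Tt_eq (c := 0) (by rw [hz]; simp : Tt D l t z = (0 : ℝ) • dl)
    rw [hf, inner_mk, hz0, mul_zero, zero_add]
    refine sum_eq_zero fun j hj => ?_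
    rw [inner_smul_right, (hg j hj).inner_eq (h2 j hj), hz0]; simp
  obtain ⟨-, hy⟩ := yy_unique hTf ho
  refine ⟨hG, ?_, ?_⟩
  · rw [be, hy, hf, mk_nil]
  · rw [al, hy, hf, norm_mk]
    have : ∀ j ∈ ch D t, ‖(s⁻¹ • yy D l (child j t) : H)‖ ^ 2 = s⁻¹ ^ 2 * al D l (child j t) := by
      intro j _
      rw [norm_smul, mul_pow, Real.norm_eq_abs, sq_abs]; rfl
    rw [sum_congr rfl this, ← mul_sum]
    field_simp

theorem rec_plus {t : W → ℕ} (hg : ∀ i ∈ ch D t, Gd D l (child i t))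
    (hs : l - ∑ i ∈ ch D t, be D l (child i t) = 0) :
    Pl D l t ∧ mm D l t = (1 + ∑ i ∈ ch D t, al D l (child i t))⁻¹ := by
  set f := mk (ch D t) 1 (fun j => yy D l (child j t)) with hf
  have hTf : Tt D l t f = 0 := by
    rw [hf, Tt_mk]
    · have : ∑ j ∈ ch D t, (yy D l (child j t) : H) [] = ∑ j ∈ ch D t, be D l (child j t) := rfl
      rw [this, mul_one]
      have h2 : ∑ j ∈ ch D t, be D l (child j t) - l = 0 := by linarith
      rw [h2]; simp
    · intro j hj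
      rw [(hg j hj).yy_eq, one_smul]
  have hf0 : f [] = 1 := by rw [hf, mk_nil]
  have hn : ‖f‖ ^ 2 = 1 + ∑ i ∈ ch D t, al D l (child i t) := by
    rw [hf, norm_mk, one_pow]; rfl
  have hin : ∀ z, Tt D l t z = 0 → inner ℝ z f = z [] * ‖f‖ ^ 2 := by
    intro z hz
    obtain ⟨h1, h2⟩ := Tt_eq (c := 0) (by rw [hz]; simp : Tt D l t z = (0 : ℝ) • dl)
    rw [hn]
    rw [hf, inner_mk, one_mul, mul_add, mul_one, mul_sum]
    congr 1
    refine sum_congr rfl fun j hj => ?_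
    rw [(hg j hj).inner_eq (h2 j hj)]
  have hpos : 0 < ‖f‖ ^ 2 := by
    rw [hn]
    have : 0 ≤ ∑ i ∈ ch D t, al D l (child i t) := sum_nonneg fun _ _ => al_nonneg _
    linarith
  refine ⟨⟨f, hTf, by rw [hf0]; norm_num⟩, ?_⟩
  -- uu = f / ‖f‖²
  have huu : uu D l t = (‖f‖ ^ 2)⁻¹ • f := by
    have h1 : Tt D l t (uu D l t - (‖f‖ ^ 2)⁻¹ • f) = 0 := by
      rw [map_sub, map_smul, uu_ker, hTf]; simp
    have h2 : inner ℝ (uu D l t - (‖f‖ ^ 2)⁻¹ • f) (uu D l t - (‖f‖ ^ 2)⁻¹ • f) = 0 := by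
      rw [inner_sub_right, uu_inner _ h1, inner_smul_right, hin _ h1,
        mul_comm (_ : ℝ) (‖f‖ ^ 2), inv_mul_cancel_left₀ hpos.ne', sub_self]
    exact sub_eq_zero.1 (inner_self_eq_zero.1 h2)
  rw [← hn, ← uu_nil, huu, lp.coeFn_smul, Pi.smul_apply, hf0, smul_eq_mul, mul_one]

theorem rec_good {t : W → ℕ} (h : Gd D l t ∨ Pl D l t) (hn : ∀ i ∈ ch D t, ¬ Pl D l (child i t)) :
    ∀ i ∈ ch D t, Gd D l (child i t) := by
  intro i hi
  rcases h with ⟨f, hf⟩ | ⟨f, hf, hf0⟩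
  · obtain ⟨h1, h2⟩ := Tt_eq (c := -1) (by rw [hf]; simp : Tt D l t f = (-1 : ℝ) • dl)
    by_cases hf0 : f [] = 0
    · exfalso
      have h3 : ∀ j ∈ ch D t, Rc j f [] = 0 := by
        intro j hj
        by_contra h4
        refine hn j hj ⟨Rc j f, ?_, h4⟩
        rw [h2 j hj, hf0]; simp
      rw [sum_eq_zero h3, hf0] at h1
      norm_num at h1
    · exact Gd.smul hf0 (h2 i hi)
  · obtain ⟨h1, h2⟩ := Tt_eq (c := 0) (by rw [hf]; simp : Tt D l t f = (0 : ℝ) • dl)
    exact Gd.smul hf0 (h2 i hi)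

theorem Pl.no_child {t : W → ℕ} (h : Pl D l t) : ∀ i ∈ ch D t, ¬ Pl D l (child i t) := by
  intro i hi hp
  exact (rec_zero hi hp).1.not_Pl h

/-- summary for a `+` root -/
theorem Pl.summary {t : W → ℕ} (h : Pl D l t) : (∀ i ∈ ch D t, Gd D l (child i t)) ∧
    l - ∑ i ∈ ch D t, be D l (child i t) = 0 ∧
    mm D l t = (1 + ∑ i ∈ ch D t, al D l (child i t))⁻¹ := by
  have hg := rec_good (Or.inr h) h.no_child
  have hs : l - ∑ i ∈ ch D t, be D l (child i t) = 0 := by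
    by_contra hs
    exact (rec_real hg hs).1.not_Pl h
  exact ⟨hg, hs, (rec_plus hg hs).2⟩

/-- summary for a good root of real type -/
theorem Gd.summary {t : W → ℕ} (h : Gd D l t) (hb : be D l t ≠ 0) :
    (∀ i ∈ ch D t, Gd D l (child i t)) ∧ l - ∑ i ∈ ch D t, be D l (child i t) ≠ 0 ∧
    be D l t = (l - ∑ i ∈ ch D t, be D l (child i t))⁻¹ ∧
      al D l t = (1 + ∑ i ∈ ch D t, al D l (child i t)) /
        (l - ∑ i ∈ ch D t, be D l (child i t)) ^ 2 := by
  have hn : ∀ i ∈ ch D t, ¬ Pl D l (child i t) := by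
    intro i hi hp
    exact hb (rec_zero hi hp).2.1
  have hg := rec_good (Or.inl h) hn
  have hs : l - ∑ i ∈ ch D t, be D l (child i t) ≠ 0 := by
    intro hs
    exact h.not_Pl (rec_plus hg hs).1
  obtain ⟨h1, h2, h3⟩ := rec_real hg hs
  exact ⟨hg, hs, h2, h3⟩

/-- type zero: good with a `+` child -/
theorem Gd.zero_iff {t : W → ℕ} (h : Gd D l t) : be D l t = 0 ↔ ∃ i ∈ ch D t, Pl D l (child i t) := by
  constructor
  · intro hb
    by_contra hn
    push Not at hn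
    have hg := rec_good (Or.inl h) hn
    have hs : l - ∑ i ∈ ch D t, be D l (child i t) ≠ 0 := by
      intro hs
      exact h.not_Pl (rec_plus hg hs).1
    obtain ⟨h1, h2, h3⟩ := rec_real hg hs
    rw [h2] at hb
    exact hs (inv_eq_zero.1 hb)
  · rintro ⟨i, hi, hp⟩
    exact (rec_zero hi hp).2.1

end Pool.Agent.K4H57.UGW
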