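import Mathlib
import Pool.Agent.K4H57.UGW.Msg

set_option autoImplicit false
set_option linter.unusedSimpArgs false
set_option linter.unusedVariables false
set_option linter.unusedSectionVars false

open Filter Topology Finset MeasureTheory
open scoped ENNReal

namespace Pool.Agent.K4H57.UGW

/-- label functions -/
abbrev Lab := W → ℕ

variable {D : ℕ} {l : ℝ}

/-- coordinatewise measurable family of vectors -/
def MF (F : Lab → H) : Prop := ∀ v, Measurable (fun t => F t v)

theorem measurable_lab (v : W) : Measurable (fun t : Lab => t v) := measurable_pi_apply v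

theorem meas_lt_lab (i : ℕ) (v : W) : MeasurableSet {t : Lab | i < t v} :=
  measurableSet_lt measurable_const (measurable_lab v)

theorem MF.const (x : H) : MF (fun _ => x) := fun _ => measurable_const

theorem MF.sub {F G : Lab → H} (hF : MF F) (hG : MF G) : MF (fun t => F t - G t) :=
  fun v => (hF v).sub (hG v)

theorem MF.smul {F : Lab → H} (a : ℝ) (hF : MF F) : MF (fun t => a • F t) :=
  fun v => (hF v).const_mul a

theorem MF.A {F : Lab → H} (hF : MF F) : MF (fun t => A D t (F t)) := by
  intro v
  rcases List.eq_nil_or_concat v with rfl | ⟨u, j, rfl⟩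
  · simp only [A_nil]
    refine Finset.measurable_sum _ fun i _ => ?_
    exact Measurable.ite (meas_lt_lab i []) (hF _) measurable_const
  · simp only [List.concat_eq_append, A_snoc]
    refine Measurable.add ?_ (Finset.measurable_sum _ fun i _ => ?_)
    · by_cases hj : j < D
      · simp only [hj, true_and]
        exact Measurable.ite (meas_lt_lab j u) (hF _) measurable_const
      · simp only [hj, false_and, if_false]
        exact measurable_const
    · exact Measurable.ite (meas_lt_lab i _) (hF _) measurable_const

theorem MF.T {F : Lab → H} (hF : MF F) : MF (fun t => Tt D l t (F t)) := by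
  simp only [Tt_apply]
  exact hF.A.sub (hF.smul l)

theorem MF.B {F : Lab → H} (hF : MF F) : MF (fun t => BB (Tt D l t) (Cc D l) (F t)) := by
  simp only [BB_apply]
  exact hF.sub ((hF.T.T).smul _)

theorem MF.it (x : H) (n : ℕ) : MF (fun t => it (Tt D l t) (Cc D l) x n) := by
  induction n with
  | zero => exact MF.const x
  | succ n ih => exact MF.B ih

theorem measurable_av (n : ℕ) : Measurable (fun t : Lab => av (Tt D l t) (Cc D l) dl n) := by
  simp only [av, inner_dl]
  exact MF.it dl n []

theorem measurable_av' (n : ℕ) : Measurable (fun t : Lab => av (Tt D l t) (Cc D l) (-dl) n) := by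
  simp only [av, inner_neg_left, inner_dl]
  exact (MF.it (-dl) n []).neg

theorem measurable_mm : Measurable (mm D l) :=
  measurable_of_tendsto_metrizable (fun n => measurable_av n)
    (tendsto_pi_nhds.2 fun t => mm_tendsto t)

theorem measurableSet_Pl : MeasurableSet {t : Lab | Pl D l t} := by
  have : {t : Lab | Pl D l t} = {t | 0 < mm D l t} := by
    ext t; exact (mm_pos_iff t).symm
  rw [this]
  exact measurableSet_lt measurable_const measurable_mm

theorem Gd_iff (t : Lab) : Gd D l t ↔
    ∃ K : ℕ, ∀ M : ℕ, ∑ n ∈ range M, av (Tt D l t) (Cc D l) (-dl) n ≤ K := by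
  constructor
  · intro h
    obtain ⟨K, hK⟩ := exists_nat_ge ((Cc D l) ^ 2 * al D l t)
    refine ⟨K, fun M => le_trans ?_ hK⟩
    exact sum_le_hasSum _ (fun n _ => (sbt D l t).av_nonneg _ n) h.hasSum
  · rintro ⟨K, hK⟩
    exact (sbt D l t).sol_of_summable _
      (summable_of_sum_range_le ((sbt D l t).av_nonneg _) hK)

theorem measurableSet_Gd : MeasurableSet {t : Lab | Gd D l t} := by
  have : {t : Lab | Gd D l t} =
      ⋃ K : ℕ, ⋂ M : ℕ, {t | ∑ n ∈ range M, av (Tt D l t) (Cc D l) (-dl) n ≤ K} := by
    ext t; simp only [Set.mem_setOf_eq, Set.mem_iUnion, Set.mem_iInter]; exact Gd_iff t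
  rw [this]
  refine MeasurableSet.iUnion fun K => MeasurableSet.iInter fun M => ?_
  exact measurableSet_le (Finset.measurable_sum _ fun n _ => measurable_av' n) measurable_const

open Classical in
theorem measurable_al : Measurable (al D l) := by
  refine measurable_of_tendsto_metrizable
    (f := fun M t => if Gd D l t then
      ((Cc D l) ^ 2)⁻¹ * ∑ n ∈ range M, av (Tt D l t) (Cc D l) (-dl) n else 0)
    (fun M => ?_) (tendsto_pi_nhds.2 fun t => ?_)
  · exact Measurable.ite measurableSet_Gd
      ((Finset.measurable_sum _ fun n _ => measurable_av' n).const_mul _) measurable_const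
  · by_cases h : Gd D l t
    · simp only [h, if_true]
      have h1 := (h.hasSum.tendsto_sum_nat).const_mul (((Cc D l) ^ 2)⁻¹)
      have hC : (Cc D l) ^ 2 ≠ 0 := by have := (sbt D l t).pos; positivity
      rwa [← mul_assoc, inv_mul_cancel₀ hC, one_mul] at h1
    · simp only [h, if_false]
      have : al D l t = 0 := by rw [al, yy, dif_neg h]; simp
      rw [this]
      exact tendsto_const_nhds

theorem lp_tendsto {F : ℕ → H} {f : H} (h : Tendsto F atTop (𝓝 f)) (v : W) :
    Tendsto (fun n => F n v) atTop (𝓝 (f v)) := by
  have h1 : Tendsto (fun n => inner ℝ (lp.single 2 v (1 : ℝ) : H) (F n)) atTop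
      (𝓝 (inner ℝ (lp.single 2 v (1 : ℝ) : H) f)) := tendsto_const_nhds.inner h
  simpa [lp.inner_single_left] using h1

theorem MF.sum {F : ℕ → Lab → H} (hF : ∀ n, MF (F n)) (s : Finset ℕ) :
    MF (fun t => ∑ n ∈ s, F n t) := by
  intro v
  simp only [sum_apply]
  exact Finset.measurable_sum _ fun n _ => hF n v

open Classical in
theorem measurable_be : Measurable (be D l) := by
  refine measurable_of_tendsto_metrizable
    (f := fun M t => if Gd D l t then
      (((Cc D l) ^ 2)⁻¹ • ∑ n ∈ range M,
      Tt D l t (it (Tt D l t) (Cc D l) (-dl) n) : H) [] else 0)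
    (fun M => ?_) (tendsto_pi_nhds.2 fun t => ?_)
  · exact Measurable.ite measurableSet_Gd
      ((MF.sum (fun n => (MF.it (-dl) n).T) (range M)).smul _ []) measurable_const
  · by_cases h : Gd D l t
    · simp only [h, if_true]
      exact lp_tendsto h.tendsto_yy []
    · simp only [h, if_false]
      have : be D l t = 0 := by rw [be, yy, dif_neg h]; simp
      rw [this]
      exact tendsto_const_nhds

theorem measurable_child (i : ℕ) : Measurable (child i) :=
  measurable_pi_lambda _ fun w => measurable_pi_apply (i :: w)

/-- real type -/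
def Rl (D : ℕ) (l : ℝ) (t : Lab) : Prop := Gd D l t ∧ be D l t ≠ 0

theorem measurableSet_Rl : MeasurableSet {t : Lab | Rl D l t} :=
  measurableSet_Gd.inter (measurable_be (measurableSet_singleton 0).compl)

/-- type zero -/
def Zr (D : ℕ) (l : ℝ) (t : Lab) : Prop := Gd D l t ∧ be D l t = 0

theorem measurableSet_Zr : MeasurableSet {t : Lab | Zr D l t} :=
  measurableSet_Gd.inter (measurable_be (measurableSet_singleton 0))

open Classical in
/-- number of vertices of the root block at depth less than `L` -/
noncomputable def nn (D : ℕ) (l : ℝ) : ℕ → Lab → ℕ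
  | 0, _ => 0
  | L + 1, t => 1 + ∑ i ∈ ch D t, if Rl D l (child i t) then nn D l L (child i t) else 0

theorem measurable_sum_ch {β : Type*} [AddCommMonoid β] [MeasurableSpace β] [MeasurableAdd₂ β]
    {F : ℕ → Lab → β} (hF : ∀ i, Measurable (F i)) : Measurable (fun t => ∑ i ∈ ch D t, F i t) := by
  have : (fun t => ∑ i ∈ ch D t, F i t) =
      fun t => ∑ i ∈ range D, if i < t [] then F i t else 0 := by
    funext t; rw [ch, sum_filter]
  rw [this]
  exact Finset.measurable_sum _ fun i _ => Measurable.ite (meas_lt_lab i []) (hF i) measurable_const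

theorem measurable_nn (L : ℕ) : Measurable (nn D l L) := by
  classical
  induction L with
  | zero => exact measurable_const
  | succ L ih =>
    refine measurable_const.add (measurable_sum_ch fun i => ?_)
    exact Measurable.ite ((measurable_child i) measurableSet_Rl) (ih.comp (measurable_child i))
      measurable_const

theorem nn_mono (t : Lab) : Monotone (fun L => nn D l L t) := by
  classical
  refine monotone_nat_of_le_succ fun L => ?_
  induction L generalizing t with
  | zero => exact Nat.zero_le _
  | succ L ih =>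
    change nn D l (L + 1) t ≤ nn D l (L + 2) t
    rw [nn, nn]
    refine Nat.add_le_add_left (sum_le_sum fun i _ => ?_) _
    split_ifs
    · exact ih _
    · exact le_rfl

/-- the size of the root block -/
noncomputable def NN (D : ℕ) (l : ℝ) (t : Lab) : ℝ≥0∞ := ⨆ L, (nn D l L t : ℝ≥0∞)

theorem measurable_NN : Measurable (NN D l) :=
  Measurable.iSup fun L => measurable_from_nat.comp (measurable_nn L)

open Classical in
theorem NN_rec (t : Lab) : NN D l t = 1 + ∑ i ∈ ch D t, if Rl D l (child i t) then
    NN D l (child i t) else 0 := by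
  have h1 : Tendsto (fun L => (nn D l L t : ℝ≥0∞)) atTop (𝓝 (NN D l t)) :=
    tendsto_atTop_iSup fun a b hab => by exact_mod_cast nn_mono t hab
  have h2 : Tendsto (fun L => (nn D l (L + 1) t : ℝ≥0∞)) atTop (𝓝 (NN D l t)) :=
    h1.comp (tendsto_add_atTop_nat 1)
  have h3 : Tendsto (fun L => (nn D l (L + 1) t : ℝ≥0∞)) atTop
      (𝓝 (1 + ∑ i ∈ ch D t, if Rl D l (child i t) then NN D l (child i t) else 0)) := by
    have h4 : ∀ L, (nn D l (L + 1) t : ℝ≥0∞) = 1 + ∑ i ∈ ch D t,
        if Rl D l (child i t) then (nn D l L (child i t) : ℝ≥0∞) else 0 := by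
      intro L
      rw [nn]
      push_cast
      rfl
    simp_rw [h4]
    refine Tendsto.add tendsto_const_nhds (tendsto_finset_sum _ fun i _ => ?_)
    split_ifs
    · exact tendsto_atTop_iSup fun a b hab => by exact_mod_cast nn_mono _ hab
    · exact tendsto_const_nhds
  exact tendsto_nhds_unique h2 h3

theorem nn_le_NN (L : ℕ) (t : Lab) : (nn D l L t : ℝ≥0∞) ≤ NN D l t :=
  le_iSup (fun L => (nn D l L t : ℝ≥0∞)) L

theorem nn_bound (L : ℕ) (t : Lab) : nn D l L t ≤ (1 + D) ^ L := by
  classical
  induction L generalizing t with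
  | zero => simp [nn]
  | succ L ih =>
    rw [nn]
    have h1 : ∑ i ∈ ch D t, (if Rl D l (child i t) then nn D l L (child i t) else 0) ≤
        ∑ i ∈ ch D t, (1 + D) ^ L := by
      refine sum_le_sum fun i _ => ?_
      split_ifs
      · exact ih _
      · exact Nat.zero_le _
    rw [sum_const, smul_eq_mul] at h1
    have h2 : (ch D t).card ≤ D := by
      refine (card_filter_le _ _).trans ?_
      rw [card_range]
    have h3 : (ch D t).card * (1 + D) ^ L ≤ D * (1 + D) ^ L := Nat.mul_le_mul_right _ h2
    have h4 : 1 ≤ (1 + D) ^ L := Nat.one_le_pow _ _ (by omega)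
    rw [pow_succ]
    nlinarith

theorem one_le_NN (t : Lab) : 1 ≤ NN D l t := by
  classical
  rw [NN_rec]
  exact le_self_add

end Pool.Agent.K4H57.UGW
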