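import Mathlib
import Pool.Agent.K4H57.UGW.Meas

set_option autoImplicit false
set_option linter.unusedSimpArgs false
set_option linter.unusedVariables false
set_option linter.unusedSectionVars false

open Filter Topology Finset MeasureTheory
open scoped ENNReal

namespace Pool.Agent.K4H57.UGW

variable {D : ℕ} {l : ℝ}

/-- skip the index `i` -/
def sk (i j : ℕ) : ℕ := if j < i then j else j + 1

/-- the tree without its `i`-th child -/
def rem (i : ℕ) (t : Lab) : Lab
  | [] => t [] - 1
  | j :: w => t (sk i j :: w)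

theorem child_rem (i j : ℕ) (t : Lab) : child j (rem i t) = child (sk i j) t := rfl

theorem sk_inj (i : ℕ) : Function.Injective (sk i) := by
  intro a b h
  unfold sk at h
  split_ifs at h <;> omega

theorem ch_eq {t : Lab} (ht : t [] ≤ D) : ch D t = range (t []) := by
  ext i; rw [mem_ch, mem_range]; omega

theorem image_sk {t : Lab} (ht : t [] ≤ D) {i : ℕ} (hi : i ∈ ch D t) :
    (ch D (rem i t)).image (sk i) = (ch D t).erase i := by
  rw [mem_ch] at hi
  have h1 : ch D (rem i t) = range (t [] - 1) := by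
    have : (rem i t) [] = t [] - 1 := rfl
    rw [← this]; exact ch_eq (by rw [this]; omega)
  rw [h1, ch_eq ht]
  ext j
  rw [mem_image, mem_erase, mem_range]
  constructor
  · rintro ⟨k, hk, rfl⟩
    rw [mem_range] at hk
    unfold sk
    split_ifs <;> omega
  · rintro ⟨h2, h3⟩
    by_cases h : j < i
    · exact ⟨j, by rw [mem_range]; omega, by unfold sk; rw [if_pos h]⟩
    · refine ⟨j - 1, by rw [mem_range]; omega, ?_⟩
      unfold sk; rw [if_neg (by omega)]; omega

theorem sum_rem {β : Type*} [AddCommMonoid β] {t : Lab} (ht : t [] ≤ D) {i : ℕ} (hi : i ∈ ch D t)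
    (F : Lab → β) :
    ∑ j ∈ ch D (rem i t), F (child j (rem i t)) = ∑ j ∈ (ch D t).erase i, F (child j t) := by
  rw [← image_sk ht hi, sum_image fun a _ b _ h => sk_inj i h]
  rfl

theorem forall_rem {t : Lab} (ht : t [] ≤ D) {i : ℕ} (hi : i ∈ ch D t) (P : Lab → Prop) :
    (∀ j ∈ ch D (rem i t), P (child j (rem i t))) ↔ ∀ j ∈ ch D t, j ≠ i → P (child j t) := by
  constructor
  · intro h j hj hji
    have : j ∈ (ch D (rem i t)).image (sk i) := by
      rw [image_sk ht hi, mem_erase]; exact ⟨hji, hj⟩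
    obtain ⟨k, hk, rfl⟩ := mem_image.1 this
    exact h k hk
  · intro h j hj
    have : sk i j ∈ (ch D t).erase i := by
      rw [← image_sk ht hi]; exact mem_image_of_mem _ hj
    rw [mem_erase] at this
    exact h _ this.2 this.1

variable (D l) in
/-- square norm of the solution with root value one -/
noncomputable def NS (t : Lab) : ℝ := 1 + ∑ i ∈ ch D t, al D l (child i t)

variable (D l) in
noncomputable def SG (t : Lab) : ℝ := l - ∑ i ∈ ch D t, be D l (child i t)

variable (D l) in
def AG (t : Lab) : Prop := ∀ i ∈ ch D t, Gd D l (child i t)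

variable (D l) in
/-- the root of `s` is of `+` type once `t` is attached to it -/
def QS (s t : Lab) : Prop := AG D l s ∧ Gd D l t ∧ SG D l s = be D l t

variable (D l) in
noncomputable def e2 (s t : Lab) : ℝ := al D l t / (NS D l s + al D l t)

theorem one_le_NS (t : Lab) : 1 ≤ NS D l t := by
  unfold NS
  have : 0 ≤ ∑ i ∈ ch D t, al D l (child i t) := sum_nonneg fun _ _ => al_nonneg _
  linarith

theorem NS_pos (t : Lab) : 0 < NS D l t := lt_of_lt_of_le one_pos (one_le_NS t)

theorem e2_nonneg (s t : Lab) : 0 ≤ e2 D l s t :=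
  div_nonneg (al_nonneg t) (by have := NS_pos (D := D) (l := l) s; have := al_nonneg (D := D) (l := l) t; linarith)

theorem e2_le_one (s t : Lab) : e2 D l s t ≤ 1 := by
  have h1 := NS_pos (D := D) (l := l) s
  have h2 := al_nonneg (D := D) (l := l) t
  unfold e2
  rw [div_le_one (by linarith)]
  linarith

theorem Pl.mm_eq {t : Lab} (h : Pl D l t) : mm D l t = (NS D l t)⁻¹ := h.summary.2.2

theorem Pl_iff {t : Lab} : Pl D l t ↔ AG D l t ∧ SG D l t = 0 := by
  constructor
  · intro h
    exact ⟨h.summary.1, h.summary.2.1⟩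
  · rintro ⟨h1, h2⟩
    exact (rec_plus h1 h2).1

theorem Rl.facts {t : Lab} (h : Rl D l t) : AG D l t ∧ SG D l t = (be D l t)⁻¹ ∧
    NS D l t = al D l t * (SG D l t) ^ 2 := by
  obtain ⟨h1, h2, h3, h4⟩ := h.1.summary h.2
  have h5 : SG D l t ≠ 0 := h2
  refine ⟨h1, ?_, ?_⟩
  · rw [h3, inv_inv]; rfl
  · rw [h4]
    change _ = (NS D l t) / (SG D l t) ^ 2 * (SG D l t) ^ 2
    field_simp

theorem QS.facts {s t : Lab} (h : QS D l s t) (hb : be D l t ≠ 0) :
    Rl D l s ∧ Rl D l t ∧ be D l s = (be D l t)⁻¹ ∧ QS D l t s ∧ e2 D l s t + e2 D l t s = 1 := by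
  obtain ⟨h1, h2, h3⟩ := h
  have h4 : SG D l s ≠ 0 := by rw [h3]; exact hb
  obtain ⟨g1, g2, g3⟩ := rec_real h1 h4
  have g2' : be D l s = (be D l t)⁻¹ := by rw [g2]; exact congrArg (·⁻¹) h3
  have hRs : Rl D l s := ⟨g1, by rw [g2']; exact inv_ne_zero hb⟩
  have hRt : Rl D l t := ⟨h2, hb⟩
  obtain ⟨k1, k2, k3⟩ := hRt.facts
  obtain ⟨m1, m2, m3⟩ := hRs.facts
  refine ⟨hRs, hRt, g2', ⟨k1, g1, by rw [k2, g2']⟩, ?_⟩
  have p1 := g1.al_pos
  have p2 := h2.al_pos
  unfold e2
  rw [m3, k3, k2, h3]
  field_simp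
  ring

theorem QS_rem {t : Lab} (ht : t [] ≤ D) {i : ℕ} (hi : i ∈ ch D t) :
    QS D l (rem i t) (child i t) ↔ Pl D l t := by
  have hAG : AG D l (rem i t) ↔ ∀ j ∈ ch D t, j ≠ i → Gd D l (child j t) := forall_rem ht hi _
  have hSG : SG D l (rem i t) = l - ∑ j ∈ (ch D t).erase i, be D l (child j t) := by
    unfold SG; rw [sum_rem ht hi (be D l)]
  have hsum := add_sum_erase (ch D t) (fun j => be D l (child j t)) hi
  rw [Pl_iff]
  unfold QS
  rw [hAG, hSG]
  constructor
  · rintro ⟨h1, h2, h3⟩
    refine ⟨fun j hj => ?_, ?_⟩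
    · by_cases hji : j = i
      · rw [hji]; exact h2
      · exact h1 j hj hji
    · unfold SG; linarith
  · rintro ⟨h1, h2⟩
    refine ⟨fun j hj _ => h1 j hj, h1 i hi, ?_⟩
    unfold SG at h2; linarith

theorem NS_rem {t : Lab} (ht : t [] ≤ D) {i : ℕ} (hi : i ∈ ch D t) :
    NS D l (rem i t) + al D l (child i t) = NS D l t := by
  unfold NS
  rw [sum_rem ht hi (al D l), ← add_sum_erase (ch D t) (fun j => al D l (child j t)) hi]
  ring

theorem NN_rem {t : Lab} (ht : t [] ≤ D) {i : ℕ} (hi : i ∈ ch D t) (hr : Rl D l (child i t)) :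
    NN D l (rem i t) + NN D l (child i t) = NN D l t := by
  classical
  rw [NN_rec (rem i t), NN_rec t,
    sum_rem ht hi (fun s => if Rl D l s then NN D l s else 0),
    ← add_sum_erase (ch D t) (fun j => if Rl D l (child j t) then NN D l (child j t) else 0) hi]
  simp only [hr, if_true]
  ring

theorem NN_rem_le {t : Lab} (ht : t [] ≤ D) {i : ℕ} (hi : i ∈ ch D t) :
    NN D l (rem i t) ≤ NN D l t := by
  classical
  rw [NN_rec (rem i t), NN_rec t,
    sum_rem ht hi (fun s => if Rl D l s then NN D l s else 0)]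
  gcongr
  exact erase_subset _ _

open Classical in
theorem nn_rem {t : Lab} (ht : t [] ≤ D) {i : ℕ} (hi : i ∈ ch D t) (L : ℕ) :
    (nn D l L (rem i t) : ℝ) ≤ 1 + ∑ j ∈ (ch D t).erase i,
      if Rl D l (child j t) then (nn D l L (child j t) : ℝ) else 0 := by
  have h0 : 0 ≤ ∑ j ∈ (ch D t).erase i,
      if Rl D l (child j t) then (nn D l L (child j t) : ℝ) else 0 := by
    refine sum_nonneg fun j _ => ?_
    split_ifs
    · positivity
    · exact le_rfl
  cases L with
  | zero => simp only [nn]; push_cast; simp only [nn] at h0; push_cast at h0; linarith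
  | succ L =>
    rw [nn, sum_rem ht hi (fun s => if Rl D l s then nn D l L s else 0)]
    push_cast
    refine add_le_add_right (sum_le_sum fun j _ => ?_) _
    split_ifs
    · exact_mod_cast nn_mono _ (Nat.le_succ L)
    · exact le_rfl

variable (D l) in
open Classical in
noncomputable def F1 (s t : Lab) : ℝ≥0∞ :=
  if QS D l s t ∧ be D l t ≠ 0 then ENNReal.ofReal (e2 D l s t) else 0

variable (D l) in
open Classical in
noncomputable def F0 (s t : Lab) : ℝ≥0∞ :=
  if QS D l s t ∧ be D l t = 0 then ENNReal.ofReal (e2 D l s t) else 0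

variable (D l) in
open Classical in
noncomputable def FI (s t : Lab) : ℝ≥0∞ := if QS D l s t ∧ be D l t ≠ 0 then 1 else 0

variable (D l) in
open Classical in
noncomputable def F2 (s t : Lab) : ℝ≥0∞ :=
  if QS D l s t ∧ be D l t ≠ 0 then NN D l t / (NN D l s + NN D l t) else 0

variable (D l) in
open Classical in
noncomputable def GG (L : ℕ) (s t : Lab) : ℝ≥0∞ :=
  if QS D l s t ∧ be D l t ≠ 0 then ENNReal.ofReal ((nn D l L s : ℝ) * e2 D l s t) else 0

theorem inside_symm {s t : Lab} : (QS D l s t ∧ be D l t ≠ 0) ↔ (QS D l t s ∧ be D l s ≠ 0) := by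
  constructor
  · rintro ⟨h, hb⟩
    obtain ⟨h1, -, h3, h4, -⟩ := h.facts hb
    exact ⟨h4, h1.2⟩
  · rintro ⟨h, hb⟩
    obtain ⟨h1, -, h3, h4, -⟩ := h.facts hb
    exact ⟨h4, h1.2⟩

theorem F1_add (s t : Lab) : F1 D l s t + F1 D l t s = FI D l s t := by
  unfold F1 FI
  by_cases h : QS D l s t ∧ be D l t ≠ 0
  · have h' := inside_symm.1 h
    rw [if_pos h, if_pos h', if_pos h, ← ENNReal.ofReal_add (e2_nonneg _ _) (e2_nonneg _ _),
      (h.1.facts h.2).2.2.2.2, ENNReal.ofReal_one]
  · have h' := fun h' => h (inside_symm.2 h')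
    rw [if_neg h, if_neg h', if_neg h, add_zero]

theorem F2_add (s t : Lab) : F2 D l s t + F2 D l t s ≤ FI D l s t := by
  unfold F2 FI
  by_cases h : QS D l s t ∧ be D l t ≠ 0
  · have h' := inside_symm.1 h
    rw [if_pos h, if_pos h', if_pos h, add_comm (NN D l t) (NN D l s), ← ENNReal.add_div,
      add_comm (NN D l t) (NN D l s)]
    exact ENNReal.div_self_le_one
  · have h' := fun h' => h (inside_symm.2 h')
    rw [if_neg h, if_neg h', if_neg h, add_zero]

open Classical in
/-- energy budget at a vertex -/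
theorem p1 {t : Lab} (ht : t [] ≤ D) :
    ∑ i ∈ ch D t, (F1 D l (rem i t) (child i t) + F0 D l (rem i t) (child i t)) ≤
      if Pl D l t then ENNReal.ofReal (1 - mm D l t) else 0 := by
  split_ifs with h
  · have h1 : ∀ i ∈ ch D t, F1 D l (rem i t) (child i t) + F0 D l (rem i t) (child i t) =
        ENNReal.ofReal (al D l (child i t) / NS D l t) := by
      intro i hi
      have hq := (QS_rem ht hi).2 h
      have he : e2 D l (rem i t) (child i t) = al D l (child i t) / NS D l t := by
        unfold e2; rw [NS_rem ht hi]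
      unfold F1 F0
      by_cases hb : be D l (child i t) = 0
      · simp [hb, hq, he]
      · simp [hb, hq, he]
    rw [sum_congr rfl h1, ← ENNReal.ofReal_sum_of_nonneg (fun i _ =>
      div_nonneg (al_nonneg _) (NS_pos t).le), ← sum_div, h.mm_eq]
    apply ENNReal.ofReal_le_ofReal
    have h2 : ∑ i ∈ ch D t, al D l (child i t) = NS D l t - 1 := by unfold NS; ring
    rw [h2]
    have := NS_pos (D := D) (l := l) t
    field_simp
    exact le_rfl
  · refine le_of_eq (sum_eq_zero fun i hi => ?_)
    have hq : ¬ QS D l (rem i t) (child i t) := fun hq => h ((QS_rem ht hi).1 hq)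
    unfold F1 F0
    simp [hq]

open Classical in
theorem p2 {t : Lab} (ht : t [] ≤ D) (h : Pl D l t) (hn : NN D l t ≠ ⊤) :
    1 ≤ ∑ i ∈ ch D t, F2 D l (rem i t) (child i t) + (NN D l t)⁻¹ := by
  have h1 : ∀ i ∈ ch D t, F2 D l (rem i t) (child i t) =
      (if Rl D l (child i t) then NN D l (child i t) else 0) / NN D l t := by
    intro i hi
    have hq := (QS_rem ht hi).2 h
    unfold F2
    by_cases hb : be D l (child i t) = 0
    · have : ¬ Rl D l (child i t) := fun hr => hr.2 hb
      simp [hb, this]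
    · have hr : Rl D l (child i t) := ⟨hq.2.1, hb⟩
      simp only [hq, hb, hr, ne_eq, not_false_eq_true, and_self, if_true]
      rw [NN_rem ht hi hr]
  rw [sum_congr rfl h1]
  have h2 : ∑ i ∈ ch D t, (if Rl D l (child i t) then NN D l (child i t) else 0) / NN D l t =
      (∑ i ∈ ch D t, if Rl D l (child i t) then NN D l (child i t) else 0) / NN D l t := by
    simp only [div_eq_mul_inv, sum_mul]
  rw [h2, ← one_div (NN D l t), ← ENNReal.add_div, add_comm, ← NN_rec, ENNReal.div_self _ hn]
  exact (lt_of_lt_of_le one_pos (one_le_NN t)).ne'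

open Classical in
theorem p3 {t : Lab} (ht : t [] ≤ D) {a b : ℕ} (ha : a ∈ ch D t) (hb : b ∈ ch D t) (hab : a ≠ b)
    (pa : Pl D l (child a t)) (pb : Pl D l (child b t)) :
    1 ≤ ∑ i ∈ ch D t, F0 D l (child i t) (rem i t) := by
  set M := ∑ j ∈ ch D t, mm D l (child j t) with hM
  have hMpos : 0 < M := by
    refine lt_of_lt_of_le ((mm_pos_iff _).2 pa) ?_
    exact single_le_sum (f := fun j => mm D l (child j t)) (fun j _ => mm_nonneg _) ha
  have key : ∀ i ∈ ch D t, ENNReal.ofReal (mm D l (child i t) / M) ≤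
      F0 D l (child i t) (rem i t) := by
    intro i hi
    by_cases hp : Pl D l (child i t)
    · -- another plus child
      obtain ⟨c, hc, hci, pc⟩ : ∃ c ∈ ch D t, c ≠ i ∧ Pl D l (child c t) := by
        by_cases h : a = i
        · exact ⟨b, hb, by rw [← h]; exact hab.symm, pb⟩
        · exact ⟨a, ha, h, pa⟩
      have hex : ∃ k ∈ ch D (rem i t), Pl D l (child k (rem i t)) := by
        have : c ∈ (ch D (rem i t)).image (sk i) := by
          rw [image_sk ht hi, mem_erase]; exact ⟨hci, hc⟩
        obtain ⟨k, hk, rfl⟩ := mem_image.1 this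
        exact ⟨k, hk, pc⟩
      obtain ⟨k, hk, pk⟩ := hex
      obtain ⟨g1, g2, g3⟩ := rec_zero hk pk
      rw [sum_rem ht hi (mm D l)] at g3
      obtain ⟨s1, s2⟩ := Pl_iff.1 hp
      have hq : QS D l (child i t) (rem i t) := ⟨s1, g1, by rw [s2, g2]⟩
      unfold F0
      rw [if_pos ⟨hq, g2⟩]
      apply ENNReal.ofReal_le_ofReal
      have hsum := add_sum_erase (ch D t) (fun j => mm D l (child j t)) hi
      have hmi := (mm_pos_iff _).2 hp
      have hNS : NS D l (child i t) = (mm D l (child i t))⁻¹ := by rw [hp.mm_eq, inv_inv]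
      have hrest : 0 < ∑ j ∈ (ch D t).erase i, mm D l (child j t) := by
        refine lt_of_lt_of_le ((mm_pos_iff _).2 pc) ?_
        exact single_le_sum (f := fun j => mm D l (child j t)) (fun j _ => mm_nonneg _)
          (mem_erase.2 ⟨hci, hc⟩)
      unfold e2
      rw [g3, hNS, hM, ← hsum]
      set x := mm D l (child i t)
      set y := ∑ j ∈ (ch D t).erase i, mm D l (child j t)
      refine le_of_eq ?_
      field_simp
      ring
    · have : mm D l (child i t) = 0 := by
        by_contra h
        exact hp ((mm_pos_iff _).1 (lt_of_le_of_ne (mm_nonneg _) (Ne.symm h)))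
      rw [this]; simp
  refine le_trans ?_ (sum_le_sum key)
  rw [← ENNReal.ofReal_sum_of_nonneg (fun i _ => div_nonneg (mm_nonneg _) hMpos.le), ← sum_div,
    ← hM, div_self hMpos.ne', ENNReal.ofReal_one]

open Classical in
/-- truncated flow -/
theorem p4 {t : Lab} (ht : t [] ≤ D) (L : ℕ) :
    ∑ i ∈ ch D t, GG D l L (rem i t) (child i t) +
      ENNReal.ofReal (mm D l t * ∑ i ∈ ch D t,
        if Rl D l (child i t) then (nn D l L (child i t) : ℝ) else 0) ≤
    ∑ i ∈ ch D t, GG D l L (child i t) (rem i t) + 1 := by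
  by_cases h : Pl D l t
  · set N := NS D l t with hN
    have hNpos : 0 < N := NS_pos t
    set a : ℕ → ℝ := fun i => al D l (child i t) with ha
    set B : ℕ → ℝ := fun i => if Rl D l (child i t) then (nn D l L (child i t) : ℝ) else 0 with hB
    have hB0 : ∀ i, 0 ≤ B i := by
      intro i; simp only [hB]; split_ifs <;> positivity
    have ha0 : ∀ i, 0 ≤ a i := fun i => al_nonneg _
    have e1 : ∀ i ∈ ch D t, GG D l L (rem i t) (child i t) ≤
        ENNReal.ofReal (if Rl D l (child i t) then
          (1 + ∑ j ∈ (ch D t).erase i, B j) * (a i / N) else 0) := by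
      intro i hi
      have hq := (QS_rem ht hi).2 h
      unfold GG
      by_cases hb : be D l (child i t) = 0
      · simp [hb]
      · have hr : Rl D l (child i t) := ⟨hq.2.1, hb⟩
        simp only [hq, hb, hr, ne_eq, not_false_eq_true, and_self, if_true]
        apply ENNReal.ofReal_le_ofReal
        have he : e2 D l (rem i t) (child i t) = a i / N := by
          unfold e2; rw [NS_rem ht hi]
        rw [he]
        exact mul_le_mul_of_nonneg_right (nn_rem ht hi L) (div_nonneg (ha0 i) hNpos.le)
    have e2' : ∀ i ∈ ch D t, GG D l L (child i t) (rem i t) =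
        ENNReal.ofReal (B i * (1 - a i / N)) := by
      intro i hi
      have hq := (QS_rem ht hi).2 h
      unfold GG
      by_cases hb : be D l (child i t) = 0
      · have h1 : ¬ (QS D l (child i t) (rem i t) ∧ be D l (rem i t) ≠ 0) := by
          intro h2
          exact (inside_symm.1 h2).2 hb
        have h2 : ¬ Rl D l (child i t) := fun hr => hr.2 hb
        rw [if_neg h1]
        simp [hB, h2]
      · have hr : Rl D l (child i t) := ⟨hq.2.1, hb⟩
        have h1 := inside_symm.1 ⟨hq, hb⟩
        rw [if_pos h1]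
        have he : e2 D l (rem i t) (child i t) = a i / N := by
          unfold e2; rw [NS_rem ht hi]
        have he' := (hq.facts hb).2.2.2.2
        rw [he] at he'
        have : e2 D l (child i t) (rem i t) = 1 - a i / N := by linarith
        rw [this]
        simp only [hB, hr, if_true]
    have hai : ∀ i ∈ ch D t, a i / N ≤ 1 := by
      intro i hi
      rw [div_le_one hNpos, hN]
      have : a i ≤ ∑ j ∈ ch D t, al D l (child j t) :=
        single_le_sum (f := fun j => al D l (child j t)) (fun j _ => al_nonneg _) hi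
      unfold NS; linarith
    have hx : ∀ i, 0 ≤ (if Rl D l (child i t) then
          (1 + ∑ j ∈ (ch D t).erase i, B j) * (a i / N) else 0) := by
      intro i
      split_ifs
      · have : 0 ≤ ∑ j ∈ (ch D t).erase i, B j := sum_nonneg fun j _ => hB0 j
        have := div_nonneg (ha0 i) hNpos.le
        positivity
      · exact le_rfl
    have hmm : mm D l t = N⁻¹ := h.mm_eq
    have hS : 0 ≤ ∑ i ∈ ch D t, B i := sum_nonneg fun i _ => hB0 i
    refine (add_le_add_left (sum_le_sum e1) _).trans ?_
    rw [sum_congr rfl e2', ← ENNReal.ofReal_sum_of_nonneg (fun i _ => hx i),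
      ← ENNReal.ofReal_sum_of_nonneg (fun i hi => mul_nonneg (hB0 i) (by linarith [hai i hi])),
      ← ENNReal.ofReal_one, ← ENNReal.ofReal_add (sum_nonneg fun i _ => hx i)
        (mul_nonneg (mm_nonneg _) hS), ← ENNReal.ofReal_add
        (sum_nonneg fun i hi => mul_nonneg (hB0 i) (by linarith [hai i hi])) zero_le_one]
    apply ENNReal.ofReal_le_ofReal
    -- real inequality
    rw [hmm]
    have hNS : N = 1 + ∑ i ∈ ch D t, a i := rfl
    have hBr : ∀ i, B i = if Rl D l (child i t) then B i else 0 := by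
      intro i; simp only [hB]; split_ifs <;> rfl
    set a' : ℕ → ℝ := fun i => if Rl D l (child i t) then a i else 0 with ha'
    have s1 : ∑ i ∈ ch D t, (if Rl D l (child i t) then
          (1 + ∑ j ∈ (ch D t).erase i, B j) * (a i / N) else 0) =
        (∑ i ∈ ch D t, (1 + ∑ j ∈ ch D t, B j - B i) * a' i) / N := by
      rw [sum_div]
      refine sum_congr rfl fun i hi => ?_
      have := add_sum_erase (ch D t) B hi
      have h2 : ∑ j ∈ (ch D t).erase i, B j = ∑ j ∈ ch D t, B j - B i := by linarith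
      simp only [ha']
      split_ifs
      · rw [h2]; ring
      · simp
    have s2 : ∑ i ∈ ch D t, B i * (1 - a i / N) = ∑ i ∈ ch D t, B i - (∑ i ∈ ch D t, B i * a' i) / N := by
      rw [sum_div, ← sum_sub_distrib]
      refine sum_congr rfl fun i hi => ?_
      by_cases hr : Rl D l (child i t)
      · simp only [ha', hr, if_true]; ring
      · have : B i = 0 := by rw [hBr]; simp [hr]
        rw [this]; ring
    rw [s1, s2]
    have s3 : ∑ i ∈ ch D t, (1 + ∑ j ∈ ch D t, B j - B i) * a' i =
        (1 + ∑ j ∈ ch D t, B j) * ∑ i ∈ ch D t, a' i - ∑ i ∈ ch D t, B i * a' i := by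
      rw [mul_sum, ← sum_sub_distrib]
      refine sum_congr rfl fun i _ => by ring
    rw [s3]
    have s4 : ∑ i ∈ ch D t, a' i ≤ N - 1 := by
      rw [hNS, add_sub_cancel_left]
      refine sum_le_sum fun i _ => ?_
      simp only [ha']
      split_ifs
      · exact le_rfl
      · exact ha0 i
    have s5 : 0 ≤ ∑ i ∈ ch D t, a' i := by
      refine sum_nonneg fun i _ => ?_
      simp only [ha']
      split_ifs
      · exact ha0 i
      · exact le_rfl
    set SB' := ∑ i ∈ ch D t, B i
    set SA := ∑ i ∈ ch D t, a' i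
    set SBA := ∑ i ∈ ch D t, B i * a' i
    have : ((1 + SB') * SA - SBA) / N + N⁻¹ * SB' ≤ SB' - SBA / N + 1 := by
      rw [← sub_nonneg]
      have h9 : SB' - SBA / N + 1 - (((1 + SB') * SA - SBA) / N + N⁻¹ * SB') =
          ((N - 1 - SA) * (SB' + 1) + 1) / N := by
        field_simp
        ring
      rw [h9]
      apply div_nonneg _ hNpos.le
      nlinarith
    exact this
  · have h1 : mm D l t = 0 := by
      by_contra h'
      exact h ((mm_pos_iff _).1 (lt_of_le_of_ne (mm_nonneg _) (Ne.symm h')))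
    have h2 : ∑ i ∈ ch D t, GG D l L (rem i t) (child i t) = 0 := by
      refine sum_eq_zero fun i hi => ?_
      have hq : ¬ QS D l (rem i t) (child i t) := fun hq => h ((QS_rem ht hi).1 hq)
      unfold GG
      simp [hq]
    rw [h1, h2]
    simp

end Pool.Agent.K4H57.UGW
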