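import Mathlib
import Pool.Agent.K4H57.UGW.Flow

set_option autoImplicit false
set_option linter.unusedSimpArgs false
set_option linter.unusedVariables false
set_option linter.unusedSectionVars false

open Filter Topology Finset MeasureTheory Measure
open scoped ENNReal

namespace Pool.Agent.K4H57.UGW

/-- label laws -/
noncomputable def lw (ξ ph : Measure ℕ) (w : W) : Measure ℕ := if w = [] then ξ else ph

instance lw_prob (ξ ph : Measure ℕ) [IsProbabilityMeasure ξ] [IsProbabilityMeasure ph] (w : W) :
    IsProbabilityMeasure (lw ξ ph w) := by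
  unfold lw; split_ifs <;> infer_instance

/-- the law of the tree with root label law `ξ` and other label laws `ph` -/
noncomputable def mu (ξ ph : Measure ℕ) : Measure Lab := infinitePi (lw ξ ph)

instance mu_prob (ξ ph : Measure ℕ) [IsProbabilityMeasure ξ] [IsProbabilityMeasure ph] :
    IsProbabilityMeasure (mu ξ ph) := by
  unfold mu; infer_instance

variable (ξ ph : Measure ℕ) [IsProbabilityMeasure ξ] [IsProbabilityMeasure ph]

theorem mu_self : mu ph ph = infinitePi (fun _ : W => ph) := by
  unfold mu lw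
  simp

theorem mu_eval (w : W) : (mu ξ ph).map (fun T => T w) = lw ξ ph w := infinitePi_map_eval _ w

theorem mu_ae_eval {P : ℕ → Prop} (w : W) (h : ∀ᵐ n ∂(lw ξ ph w), P n) :
    ∀ᵐ T ∂(mu ξ ph), P (T w) := by
  rw [← mu_eval] at h
  exact ae_of_ae_map (measurable_lab w).aemeasurable h

theorem mu_disint : mu ξ ph = Measure.sum (fun k => ξ {k} • mu (dirac k) ph) := by
  symm
  unfold mu
  refine eq_infinitePi _ fun s t ht => ?_
  have hm : MeasurableSet ((s : Set W).pi t) := MeasurableSet.pi s.countable_toSet fun _ _ => ht _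
  rw [Measure.sum_apply _ hm]
  have hx : ∑' k, ξ {k} = 1 := by
    rw [← measure_univ (μ := ξ), ← Set.iUnion_of_singleton (α := ℕ),
      measure_iUnion (fun a b hab => by simpa using hab) (fun k => measurableSet_singleton k)]
  by_cases h0 : ([] : W) ∈ s
  · have h1 : ∀ k, (ξ {k} • infinitePi (lw (dirac k) ph)) ((s : Set W).pi t) =
        (ξ {k} * (dirac k) (t [])) * ∏ i ∈ s.erase [], ph (t i) := by
      intro k
      rw [Measure.smul_apply, infinitePi_pi _ (fun i _ => ht i), smul_eq_mul,
        ← mul_prod_erase s _ h0, mul_assoc]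
      congr 2
      refine prod_congr rfl fun i hi => ?_
      rw [lw, if_neg (mem_erase.1 hi).1]
    simp_rw [h1]
    rw [ENNReal.tsum_mul_right, ← mul_prod_erase s (fun i => (lw ξ ph i) (t i)) h0]
    congr 1
    · rw [lw, if_pos rfl]
      have h2 : ∀ k, ξ {k} * (dirac k) (t []) = (t []).indicator (fun k => ξ {k}) k := by
        intro k
        rw [dirac_apply' _ (ht [])]
        by_cases hk : k ∈ t []
        · simp [hk]
        · simp [hk]
      simp_rw [h2]
      have h3 : ξ (t []) = ∑' k, (t []).indicator (fun k => ξ {k}) k := by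
        rw [← _root_.tsum_subtype, ← measure_biUnion (Set.to_countable _)
          (fun a _ b _ hab => by simpa using hab) (fun k _ => measurableSet_singleton k),
          Set.biUnion_of_singleton]
      exact h3.symm
    · refine prod_congr rfl fun i hi => ?_
      rw [lw, if_neg (mem_erase.1 hi).1]
  · have h1 : ∀ k, (ξ {k} • infinitePi (lw (dirac k) ph)) ((s : Set W).pi t) =
        ξ {k} * ∏ i ∈ s, ph (t i) := by
      intro k
      rw [Measure.smul_apply, infinitePi_pi _ (fun i _ => ht i), smul_eq_mul]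
      congr 1
      refine prod_congr rfl fun i hi => ?_
      rw [lw, if_neg (fun h => h0 (by rw [← h]; exact hi))]
    simp_rw [h1]
    rw [ENNReal.tsum_mul_right, hx, one_mul]
    refine prod_congr rfl fun i hi => ?_
    rw [lw, if_neg (fun h => h0 (by rw [← h]; exact hi))]

theorem lintegral_mu (F : Lab → ℝ≥0∞) :
    ∫⁻ T, F T ∂(mu ξ ph) = ∑' k, ξ {k} * ∫⁻ T, F T ∂(mu (dirac k) ph) := by
  rw [mu_disint ξ ph, lintegral_sum_measure]
  simp_rw [lintegral_smul_measure, smul_eq_mul]

theorem mu_children : (mu ξ ph).map (fun T (i : ℕ) => child i T) = infinitePi (fun _ : ℕ => mu ph ph) := by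
  have hinj : Function.Injective (fun p : ℕ × W => p.1 :: p.2) := by
    rintro ⟨i, w⟩ ⟨j, v⟩ h
    simpa using h
  have h1 := map_infinitePi_infinitePi_of_inj (P := lw ξ ph) hinj
  have h2 : (fun p : ℕ × W => lw ξ ph (p.1 :: p.2)) = fun _ => ph := by
    funext p; rw [lw, if_neg (by simp)]
  rw [h2] at h1
  have h3 := infinitePi_map_curry (fun (_ : ℕ) (_ : W) => ph)
  rw [← h1, Measure.map_map (by fun_prop) (by fun_prop)] at h3
  rw [mu_self]
  exact h3

/-- the injection used for the pair `(rem i T, child i T)` -/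
def pf (i : ℕ) : Fin 2 × W → W
  | (0, []) => []
  | (0, j :: w) => sk i j :: w
  | (1, w) => i :: w

theorem sk_ne (i j : ℕ) : sk i j ≠ i := by
  unfold sk; split_ifs <;> omega

theorem pf_inj (i : ℕ) : Function.Injective (pf i) := by
  rintro ⟨a, w⟩ ⟨b, v⟩ h
  fin_cases a <;> fin_cases b
  · cases w <;> cases v
    · rfl
    · simp [pf] at h
    · simp [pf] at h
    · simp only [pf, List.cons.injEq] at h
      rw [sk_inj i h.1, h.2]
  · cases w
    · simp [pf] at h
    · simp only [pf, List.cons.injEq] at h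
      exact absurd h.1 (sk_ne _ _)
  · cases v
    · simp [pf] at h
    · simp only [pf, List.cons.injEq] at h
      exact absurd h.1.symm (sk_ne _ _)
  · simp only [pf, List.cons.injEq, true_and] at h
    rw [h]

/-- lowering the root label -/
def low (T : Lab) : Lab := fun w => if w = [] then T w - 1 else T w

theorem measurable_low : Measurable low := by
  refine measurable_pi_lambda _ fun w => ?_
  unfold low
  split_ifs
  · exact (measurable_from_nat (f := fun n : ℕ => n - 1)).comp (measurable_lab w)
  · exact measurable_lab w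

theorem mu_low (k : ℕ) : (mu (dirac k) ph).map low = mu (dirac (k - 1)) ph := by
  have h := infinitePi_map_pi (lw (dirac k) ph)
    (f := fun (w : W) (n : ℕ) => if w = [] then n - 1 else n) (fun w => measurable_from_nat)
  unfold mu
  have h2 : low = fun (T : Lab) (w : W) => if w = [] then T w - 1 else T w := rfl
  rw [h2, h]
  congr 1
  funext w
  unfold lw
  by_cases hw : w = []
  · simp only [hw, if_true]
    rw [Measure.map_dirac' measurable_from_nat]
  · simp only [hw, if_false]
    exact Measure.map_id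

theorem mu_pair (k i : ℕ) : (mu (dirac k) ph).map (fun T => (rem i T, child i T)) =
    (mu (dirac (k - 1)) ph).prod (mu ph ph) := by
  have h1 := map_infinitePi_infinitePi_of_inj (P := lw (dirac k) ph) (pf_inj i)
  have h2 : (fun p : Fin 2 × W => lw (dirac k) ph (pf i p)) =
      fun p => (fun (b : Fin 2) (w : W) => if b = 0 then lw (dirac k) ph w else ph) p.1 p.2 := by
    funext p
    obtain ⟨a, w⟩ := p
    fin_cases a
    · cases w
      · simp [pf, lw]
      · simp [pf, lw]
    · simp [pf, lw]
  rw [h2] at h1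
  have : ∀ (b : Fin 2) (w : W), IsProbabilityMeasure
      ((fun (b : Fin 2) (w : W) => if b = 0 then lw (dirac k) ph w else ph) b w) := by
    intro b w
    simp only
    split_ifs <;> infer_instance
  have h3 := infinitePi_map_curry
    (fun (b : Fin 2) (w : W) => if b = 0 then lw (dirac k) ph w else ph)
  rw [← h1, Measure.map_map (by fun_prop) (by fun_prop)] at h3
  set ν : Fin 2 → Measure Lab := fun b =>
    infinitePi (fun w => if b = 0 then lw (dirac k) ph w else ph) with hν
  rw [infinitePi_eq_pi ν] at h3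
  have h4 := (measurePreserving_piFinTwo ν).map_eq
  have hν0 : ν 0 = mu (dirac k) ph := by simp [hν, mu]
  have hν1 : ν 1 = mu ph ph := by simp [hν, mu_self]
  rw [← h3, Measure.map_map (by fun_prop) (by fun_prop), hν0, hν1] at h4
  have h5 : (fun T : Lab => (rem i T, child i T)) = (Prod.map low id) ∘
      ((MeasurableEquiv.piFinTwo fun _ => Lab) ∘ (MeasurableEquiv.curry (Fin 2) W ℕ) ∘
        fun ω p => ω (pf i p)) := by
    funext T
    refine Prod.ext ?_ ?_
    · funext w
      cases w <;> rfl
    · rfl
  have h6 : Measure.map ((MeasurableEquiv.piFinTwo fun _ => Lab) ∘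
      (MeasurableEquiv.curry (Fin 2) W ℕ) ∘ fun ω p => ω (pf i p)) (mu (dirac k) ph) =
      (mu (dirac k) ph).prod (mu ph ph) := h4
  rw [h5, ← Measure.map_map (measurable_low.prodMap measurable_id) (by fun_prop), h6,
    ← Measure.map_prod_map _ _ measurable_low measurable_id, mu_low, Measure.map_id]

theorem measurable_rem (i : ℕ) : Measurable (rem i) := by
  refine measurable_pi_lambda _ fun w => ?_
  cases w with
  | nil => exact (measurable_from_nat (f := fun n : ℕ => n - 1)).comp (measurable_lab [])
  | cons j w => exact measurable_lab _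

theorem lintegral_pair (k i : ℕ) {F : Lab → Lab → ℝ≥0∞} (hF : Measurable (Function.uncurry F)) :
    ∫⁻ T, F (rem i T) (child i T) ∂(mu (dirac k) ph) =
      ∫⁻ s, ∫⁻ t, F s t ∂(mu ph ph) ∂(mu (dirac (k - 1)) ph) := by
  have h1 : ∫⁻ T, F (rem i T) (child i T) ∂(mu (dirac k) ph) =
      ∫⁻ p, Function.uncurry F p ∂((mu (dirac k) ph).map (fun T => (rem i T, child i T))) := by
    rw [lintegral_map hF ((measurable_rem i).prodMk (measurable_child i))]
    rfl
  rw [h1, mu_pair, lintegral_prod _ hF.aemeasurable]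
  rfl

/-- unimodularity -/
theorem exchange {m : ℝ≥0∞} (hm : ∀ k, m * ph {k} = ((k : ℝ≥0∞) + 1) * ξ {k + 1})
    {F : Lab → Lab → ℝ≥0∞} (hF : Measurable (Function.uncurry F)) :
    ∫⁻ T, ∑ i ∈ range (T []), F (rem i T) (child i T) ∂(mu ξ ph) =
      m * ∫⁻ s, ∫⁻ t, F s t ∂(mu ph ph) ∂(mu ph ph) := by
  rw [lintegral_mu ξ ph, lintegral_mu ph ph]
  have h1 : ∀ k, ∫⁻ T, ∑ i ∈ range (T []), F (rem i T) (child i T) ∂(mu (dirac k) ph) =
      k * ∫⁻ s, ∫⁻ t, F s t ∂(mu ph ph) ∂(mu (dirac (k - 1)) ph) := by
    intro k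
    have h2 : ∀ᵐ T ∂(mu (dirac k) ph), T [] = k := by
      refine mu_ae_eval (dirac k) ph (P := fun n => n = k) [] ?_
      rw [lw, if_pos rfl, ae_dirac_iff (by measurability)]
    rw [lintegral_congr_ae (g := fun T => ∑ i ∈ range k, F (rem i T) (child i T))
      (h2.mono fun T hT => by simp only [hT]), lintegral_finsetSum]
    · rw [sum_congr rfl fun i _ => lintegral_pair ph k i hF, sum_const, card_range, nsmul_eq_mul]
    · intro i _
      exact hF.comp ((measurable_rem i).prodMk (measurable_child i))
  simp_rw [h1]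
  rw [tsum_eq_zero_add' ENNReal.summable, ← ENNReal.tsum_mul_left]
  simp only [Nat.cast_zero, zero_mul, mul_zero, zero_add]
  refine tsum_congr fun k => ?_
  rw [← mul_assoc m, hm]
  push_cast
  ring

theorem exchange_swap {m : ℝ≥0∞} (hm : ∀ k, m * ph {k} = ((k : ℝ≥0∞) + 1) * ξ {k + 1})
    {F : Lab → Lab → ℝ≥0∞} (hF : Measurable (Function.uncurry F)) :
    ∫⁻ T, ∑ i ∈ range (T []), F (rem i T) (child i T) ∂(mu ξ ph) =
    ∫⁻ T, ∑ i ∈ range (T []), F (child i T) (rem i T) ∂(mu ξ ph) := by
  rw [exchange ξ ph hm hF]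
  have h := exchange ξ ph hm (F := fun s t => F t s) (hF.comp measurable_swap)
  rw [h]
  congr 1
  exact lintegral_lintegral_swap hF.aemeasurable

end Pool.Agent.K4H57.UGW
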