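import Mathlib
import Pool.Agent.K4H57.UGW.Prob

set_option autoImplicit false
set_option linter.unusedSimpArgs false
set_option linter.unusedVariables false
set_option linter.unusedSectionVars false

open Filter Topology Finset MeasureTheory Measure
open scoped ENNReal

namespace Pool.Agent.K4H57.UGW

variable {D : ℕ} {l : ℝ}

theorem measurable_NS : Measurable (NS D l) :=
  measurable_const.add (measurable_sum_ch fun i => measurable_al.comp (measurable_child i))

theorem measurable_SG : Measurable (SG D l) :=
  measurable_const.sub (measurable_sum_ch fun i => measurable_be.comp (measurable_child i))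

theorem measurableSet_AG : MeasurableSet {t : Lab | AG D l t} := by
  have : {t : Lab | AG D l t} = ⋂ i : ℕ, ({t : Lab | i < D ∧ i < t []}ᶜ ∪
      (child i) ⁻¹' {t : Lab | Gd D l t}) := by
    ext t
    simp only [Set.mem_iInter, Set.mem_union, Set.mem_compl_iff, Set.mem_preimage]
    constructor
    · intro h i
      by_cases hi : i < D ∧ i < t []
      · exact Or.inr (h i (mem_ch.2 hi))
      · exact Or.inl hi
    · intro h i hi
      rcases h i with h1 | h1
      · exact absurd (mem_ch.1 hi) h1
      · exact h1
  rw [this]
  refine MeasurableSet.iInter fun i => MeasurableSet.union ?_ ((measurable_child i) measurableSet_Gd)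
  exact ((MeasurableSet.const _).inter (meas_lt_lab i [])).compl

theorem measurableSet_QS : MeasurableSet {p : Lab × Lab | QS D l p.1 p.2} := by
  refine (measurable_fst measurableSet_AG).inter ((measurable_snd measurableSet_Gd).inter ?_)
  exact measurableSet_eq_fun (measurable_SG.comp measurable_fst) (measurable_be.comp measurable_snd)

theorem measurableSet_be : MeasurableSet {p : Lab × Lab | be D l p.2 = 0} :=
  measurableSet_eq_fun (measurable_be.comp measurable_snd) measurable_const

theorem measurable_e2 : Measurable (fun p : Lab × Lab => e2 D l p.1 p.2) :=
  (measurable_al.comp measurable_snd).div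
    ((measurable_NS.comp measurable_fst).add (measurable_al.comp measurable_snd))

theorem measurable_F1 : Measurable (Function.uncurry (F1 D l)) := by
  classical
  unfold F1
  exact Measurable.ite (measurableSet_QS.inter measurableSet_be.compl)
    (ENNReal.measurable_ofReal.comp measurable_e2) measurable_const

theorem measurable_F0 : Measurable (Function.uncurry (F0 D l)) := by
  classical
  unfold F0
  exact Measurable.ite (measurableSet_QS.inter measurableSet_be)
    (ENNReal.measurable_ofReal.comp measurable_e2) measurable_const

theorem measurable_FI : Measurable (Function.uncurry (FI D l)) := by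
  classical
  unfold FI
  exact Measurable.ite (measurableSet_QS.inter measurableSet_be.compl)
    measurable_const measurable_const

theorem measurable_F2 : Measurable (Function.uncurry (F2 D l)) := by
  classical
  unfold F2
  exact Measurable.ite (measurableSet_QS.inter measurableSet_be.compl)
    ((measurable_NN.comp measurable_snd).div
      ((measurable_NN.comp measurable_fst).add (measurable_NN.comp measurable_snd)))
    measurable_const

theorem measurable_GG (L : ℕ) : Measurable (Function.uncurry (GG D l L)) := by
  classical
  unfold GG
  refine Measurable.ite (measurableSet_QS.inter measurableSet_be.compl) ?_ measurable_const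
  refine ENNReal.measurable_ofReal.comp (Measurable.mul ?_ measurable_e2)
  exact measurable_from_nat.comp ((measurable_nn L).comp measurable_fst)

end Pool.Agent.K4H57.UGW
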