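import Mathlib
import Pool.Agent.K4H57.UGW.Meas2

set_option autoImplicit false
set_option linter.unusedSimpArgs false
set_option linter.unusedVariables false
set_option linter.unusedSectionVars false

open Filter Topology Finset MeasureTheory Measure
open scoped ENNReal

namespace Pool.Agent.K4H57.UGW

variable {D : ℕ} {l : ℝ}

/-- the standing hypotheses on the two laws -/
structure HY (D : ℕ) (ξ ph : Measure ℕ) (m : ℝ≥0∞) : Prop where
  hm : ∀ k, m * ph {k} = ((k : ℝ≥0∞) + 1) * ξ {k + 1}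
  m0 : m ≠ 0
  mt : m ≠ ⊤
  xi_le : ∀ᵐ k ∂ξ, k ≤ D
  xi_ge : ∀ᵐ k ∂ξ, 2 ≤ k
  ph_le : ∀ᵐ k ∂ph, k ≤ D
  ph_ge : ∀ᵐ k ∂ph, 1 ≤ k

variable {ξ ph : Measure ℕ} [IsProbabilityMeasure ξ] [IsProbabilityMeasure ph] {m : ℝ≥0∞}

theorem HY.root_le (h : HY D ξ ph m) : ∀ᵐ T ∂(mu ξ ph), T [] ≤ D :=
  mu_ae_eval ξ ph (P := fun n => n ≤ D) [] (by rw [lw, if_pos rfl]; exact h.xi_le)

theorem HY.root_ge (h : HY D ξ ph m) : ∀ᵐ T ∂(mu ξ ph), 2 ≤ T [] :=
  mu_ae_eval ξ ph (P := fun n => 2 ≤ n) [] (by rw [lw, if_pos rfl]; exact h.xi_ge)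

theorem HY.root_le' (h : HY D ξ ph m) : ∀ᵐ T ∂(mu ph ph), T [] ≤ D :=
  mu_ae_eval ph ph (P := fun n => n ≤ D) [] (by rw [lw, if_pos rfl]; exact h.ph_le)

theorem HY.root_ge' (h : HY D ξ ph m) : ∀ᵐ T ∂(mu ph ph), 1 ≤ T [] :=
  mu_ae_eval ph ph (P := fun n => 1 ≤ n) [] (by rw [lw, if_pos rfl]; exact h.ph_ge)

theorem HY.swap (h : HY D ξ ph m) {F : Lab → Lab → ℝ≥0∞} (hF : Measurable (Function.uncurry F)) :
    ∫⁻ T, ∑ i ∈ ch D T, F (rem i T) (child i T) ∂(mu ξ ph) =
    ∫⁻ T, ∑ i ∈ ch D T, F (child i T) (rem i T) ∂(mu ξ ph) := by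
  have h1 := exchange_swap ξ ph h.hm hF
  have h2 : ∀ G : Lab → ℕ → ℝ≥0∞, ∫⁻ T, ∑ i ∈ ch D T, G T i ∂(mu ξ ph) =
      ∫⁻ T, ∑ i ∈ range (T []), G T i ∂(mu ξ ph) := by
    intro G
    refine lintegral_congr_ae (h.root_le.mono fun T hT => ?_)
    simp only [ch_eq hT]
  rw [h2, h2, h1]

theorem measurable_sum_pair {F : Lab → Lab → ℝ≥0∞} (hF : Measurable (Function.uncurry F)) :
    Measurable (fun T => ∑ i ∈ ch D T, F (rem i T) (child i T)) :=
  measurable_sum_ch fun i => hF.comp ((measurable_rem i).prodMk (measurable_child i))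

theorem measurable_sum_pair' {F : Lab → Lab → ℝ≥0∞} (hF : Measurable (Function.uncurry F)) :
    Measurable (fun T => ∑ i ∈ ch D T, F (child i T) (rem i T)) :=
  measurable_sum_ch fun i => hF.comp ((measurable_child i).prodMk (measurable_rem i))

theorem card_ch_le (t : Lab) : (ch D t).card ≤ D := by
  refine (card_filter_le _ _).trans ?_
  rw [card_range]

theorem lint_ne_top {F : Lab → Lab → ℝ≥0∞} {B : ℝ≥0∞} (hB : B ≠ ⊤) (hF : ∀ s t, F s t ≤ B) :
    ∫⁻ T, ∑ i ∈ ch D T, F (rem i T) (child i T) ∂(mu ξ ph) ≠ ⊤ := by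
  have h1 : ∫⁻ T, ∑ i ∈ ch D T, F (rem i T) (child i T) ∂(mu ξ ph) ≤
      ∫⁻ T, (D : ℝ≥0∞) * B ∂(mu ξ ph) := by
    refine lintegral_mono fun T => ?_
    refine (sum_le_sum fun i _ => hF _ _).trans ?_
    rw [sum_const, nsmul_eq_mul]
    gcongr
    exact_mod_cast card_ch_le T
  rw [lintegral_const, measure_univ, mul_one] at h1
  exact ne_top_of_le_ne_top (ENNReal.mul_ne_top (by simp) hB) h1

theorem mm_le_one (t : Lab) : mm D l t ≤ 1 := by
  have h1 : ‖uu D l t []‖ ≤ ‖uu D l t‖ := lp.norm_apply_le_norm (by norm_num) _ _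
  rw [uu_nil, Real.norm_eq_abs, abs_of_nonneg (mm_nonneg t)] at h1
  have h2 : mm D l t = ‖uu D l t‖ ^ 2 := rfl
  have h3 := norm_nonneg (uu D l t)
  rw [h2] at h1 ⊢
  by_contra h4
  push Not at h4
  nlinarith

/-- the root block is finite when the root is of `+` type -/
theorem HY.finite_block (h : HY D ξ ph m) : ∀ᵐ T ∂(mu ξ ph), Pl D l T → NN D l T ≠ ⊤ := by
  classical
  have key : ∀ L, ∫⁻ T, ENNReal.ofReal (mm D l T) * (nn D l L T : ℝ≥0∞) ∂(mu ξ ph) ≤ 2 := by
    intro L
    have h0 := h.swap (measurable_GG (D := D) (l := l) L)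
    set I := ∫⁻ T, ∑ i ∈ ch D T, GG D l L (rem i T) (child i T) ∂(mu ξ ph) with hI
    have hfin : I ≠ ⊤ := by
      refine lint_ne_top (B := ((1 + D : ℕ) ^ L : ℕ)) (by simp) fun s t => ?_
      unfold GG
      split_ifs
      · rw [← ENNReal.ofReal_natCast]
        apply ENNReal.ofReal_le_ofReal
        have h1 : (nn D l L s : ℝ) ≤ ((1 + D : ℕ) ^ L : ℕ) := by exact_mod_cast nn_bound L s
        have h2 := e2_le_one (D := D) (l := l) s t
        have h3 := e2_nonneg (D := D) (l := l) s t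
        have h4 : (0 : ℝ) ≤ nn D l L s := by positivity
        calc (nn D l L s : ℝ) * e2 D l s t ≤ nn D l L s * 1 := by gcongr
          _ ≤ _ := by rw [mul_one]; exact h1
      · exact zero_le
    have hm : Measurable (fun T : Lab => ENNReal.ofReal (mm D l T * ∑ i ∈ ch D T,
        if Rl D l (child i T) then (nn D l L (child i T) : ℝ) else 0)) := by
      refine ENNReal.measurable_ofReal.comp (measurable_mm.mul (measurable_sum_ch fun i => ?_))
      exact Measurable.ite ((measurable_child i) measurableSet_Rl)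
        (measurable_from_nat.comp ((measurable_nn L).comp (measurable_child i))) measurable_const
    have h1 : I + ∫⁻ T, ENNReal.ofReal (mm D l T * ∑ i ∈ ch D T,
        if Rl D l (child i T) then (nn D l L (child i T) : ℝ) else 0) ∂(mu ξ ph) ≤ I + 1 := by
      have h2 : I + 1 =
          ∫⁻ T, (∑ i ∈ ch D T, GG D l L (child i T) (rem i T) + 1) ∂(mu ξ ph) := by
        rw [lintegral_add_right _ measurable_const, lintegral_const, measure_univ, mul_one, ← h0]
      rw [h2, hI, ← lintegral_add_left (measurable_sum_pair (measurable_GG L))]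
      refine lintegral_mono_ae (h.root_le.mono fun T hT => ?_)
      exact p4 hT L
    have h2 := (ENNReal.add_le_add_iff_left hfin).1 h1
    calc ∫⁻ T, ENNReal.ofReal (mm D l T) * (nn D l L T : ℝ≥0∞) ∂(mu ξ ph)
        ≤ ∫⁻ T, (ENNReal.ofReal (mm D l T * ∑ i ∈ ch D T,
        if Rl D l (child i T) then (nn D l L (child i T) : ℝ) else 0) + 1) ∂(mu ξ ph) := by
          refine lintegral_mono fun T => ?_
          have h3 : (nn D l L T : ℝ) ≤ 1 + ∑ i ∈ ch D T,
              if Rl D l (child i T) then (nn D l L (child i T) : ℝ) else 0 := by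
            have : nn D l L T ≤ nn D l (L + 1) T := nn_mono T (Nat.le_succ L)
            rw [nn] at this
            exact_mod_cast this
          have h4 := mm_nonneg (D := D) (l := l) T
          have h5 := mm_le_one (D := D) (l := l) T
          rw [← ENNReal.ofReal_natCast, ← ENNReal.ofReal_mul h4, ← ENNReal.ofReal_one,
            ← ENNReal.ofReal_add _ zero_le_one]
          · apply ENNReal.ofReal_le_ofReal
            nlinarith
          · refine mul_nonneg h4 (sum_nonneg fun i _ => ?_)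
            split_ifs <;> positivity
      _ ≤ 2 := by
          rw [lintegral_add_right _ measurable_const, lintegral_const, measure_univ, mul_one,
            ← one_add_one_eq_two]
          gcongr
  have h1 : ∫⁻ T, ENNReal.ofReal (mm D l T) * NN D l T ∂(mu ξ ph) ≤ 2 := by
    have h2 : ∀ T : Lab, ENNReal.ofReal (mm D l T) * NN D l T =
        ⨆ L, ENNReal.ofReal (mm D l T) * (nn D l L T : ℝ≥0∞) := by
      intro T
      unfold NN
      rw [ENNReal.mul_iSup]
    simp_rw [h2]
    rw [lintegral_iSup]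
    · exact iSup_le key
    · intro L
      exact (ENNReal.measurable_ofReal.comp measurable_mm).mul
        (measurable_from_nat.comp (measurable_nn L))
    · intro a b hab T
      simp only
      gcongr
      exact_mod_cast nn_mono T hab
  have h3 := ae_lt_top ((ENNReal.measurable_ofReal.comp measurable_mm).mul measurable_NN)
    (ne_top_of_le_ne_top (by simp) h1)
  filter_upwards [h3] with T hT hp htop
  have hT : ENNReal.ofReal (mm D l T) * NN D l T < ⊤ := hT
  rw [htop] at hT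
  have h4 : ENNReal.ofReal (mm D l T) ≠ 0 := by
    rw [Ne, ENNReal.ofReal_eq_zero, not_le]
    exact (mm_pos_iff T).2 hp
  rw [ENNReal.mul_top h4] at hT
  exact lt_irrefl _ hT

open Classical in
/-- at least two `+` children is unlikely -/
theorem HY.two_children (h : HY D ξ ph m) :
    (mu ξ ph) {T | ∃ a ∈ ch D T, ∃ b ∈ ch D T, a ≠ b ∧ Pl D l (child a T) ∧ Pl D l (child b T)} ≤
      ∫⁻ T, (if Pl D l T then (NN D l T)⁻¹ else 0) ∂(mu ξ ph) := by
  set V := {T | ∃ a ∈ ch D T, ∃ b ∈ ch D T, a ≠ b ∧ Pl D l (child a T) ∧ Pl D l (child b T)} with hV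
  set J1 := ∫⁻ T, ∑ i ∈ ch D T, F1 D l (rem i T) (child i T) ∂(mu ξ ph) with hJ1
  set J0 := ∫⁻ T, ∑ i ∈ ch D T, F0 D l (rem i T) (child i T) ∂(mu ξ ph) with hJ0
  set J2 := ∫⁻ T, ∑ i ∈ ch D T, F2 D l (rem i T) (child i T) ∂(mu ξ ph) with hJ2
  set JI := ∫⁻ T, ∑ i ∈ ch D T, FI D l (rem i T) (child i T) ∂(mu ξ ph) with hJI
  have s1 := h.swap (measurable_F1 (D := D) (l := l))
  have s0 := h.swap (measurable_F0 (D := D) (l := l))
  have s2 := h.swap (measurable_F2 (D := D) (l := l))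
  -- J1 is finite
  have hfin : J1 ≠ ⊤ := by
    refine lint_ne_top (B := 1) (by simp) fun s t => ?_
    unfold F1
    split_ifs
    · rw [← ENNReal.ofReal_one]
      exact ENNReal.ofReal_le_ofReal (e2_le_one _ _)
    · exact zero_le
  have hI : J1 + J1 = JI := by
    conv_lhs => rw [hJ1]; rhs; rw [s1]
    rw [← lintegral_add_left (measurable_sum_pair measurable_F1)]
    refine lintegral_congr fun T => ?_
    rw [← sum_add_distrib]
    exact sum_congr rfl fun i _ => F1_add _ _
  have hII : J2 + J2 ≤ JI := by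
    conv_lhs => rw [hJ2]; rhs; rw [s2]
    rw [← lintegral_add_left (measurable_sum_pair measurable_F2)]
    refine lintegral_mono fun T => ?_
    simp only
    rw [← sum_add_distrib]
    exact sum_le_sum fun i _ => F2_add _ _
  have h21 : J2 ≤ J1 := by
    rw [← hI, ← two_mul, ← two_mul] at hII
    exact (ENNReal.mul_le_mul_iff_right two_ne_zero (by simp)).1 hII
  -- v ≤ J0
  have hv : (mu ξ ph) V ≤ J0 := by
    rw [hJ0, s0]
    have h1 : V ⊆ {T | T [] ≤ D → 1 ≤ ∑ i ∈ ch D T, F0 D l (child i T) (rem i T)} := by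
      rintro T ⟨a, ha, b, hb, hab, pa, pb⟩ hT
      exact p3 hT ha hb hab pa pb
    have h2 : (mu ξ ph) V ≤ (mu ξ ph) {T | 1 ≤ ∑ i ∈ ch D T, F0 D l (child i T) (rem i T)} := by
      refine measure_mono_ae (h.root_le.mono fun T hT hTV => ?_)
      exact h1 hTV hT
    refine h2.trans ?_
    have h3 := mul_meas_ge_le_lintegral (μ := mu ξ ph)
      (measurable_sum_pair' (D := D) (measurable_F0 (D := D) (l := l))) 1
    rwa [one_mul] at h3
  have hE : J1 + J0 ≤ ∫⁻ T, (if Pl D l T then 1 else 0) ∂(mu ξ ph) := by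
    rw [hJ1, ← lintegral_add_left (measurable_sum_pair measurable_F1)]
    refine lintegral_mono_ae (h.root_le.mono fun T hT => ?_)
    rw [← sum_add_distrib]
    refine (p1 hT).trans ?_
    split_ifs
    · rw [← ENNReal.ofReal_one]
      apply ENNReal.ofReal_le_ofReal
      have := mm_nonneg (D := D) (l := l) T
      linarith
    · exact le_rfl
  have hN : ∫⁻ T, (if Pl D l T then 1 else 0) ∂(mu ξ ph) ≤
      J2 + ∫⁻ T, (if Pl D l T then (NN D l T)⁻¹ else 0) ∂(mu ξ ph) := by
    rw [hJ2, ← lintegral_add_left (measurable_sum_pair measurable_F2)]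
    refine lintegral_mono_ae ?_
    filter_upwards [h.root_le, h.finite_block (l := l)] with T hT hf
    split_ifs with hp
    · exact p2 hT hp (hf hp)
    · exact zero_le
  have hfinal : J1 + (mu ξ ph) V ≤
      J1 + ∫⁻ T, (if Pl D l T then (NN D l T)⁻¹ else 0) ∂(mu ξ ph) := by
    calc J1 + (mu ξ ph) V ≤ J1 + J0 := by gcongr
      _ ≤ _ := hE
      _ ≤ _ := hN
      _ ≤ _ := by gcongr
  exact (ENNReal.add_le_add_iff_left hfin).1 hfinal

theorem iInd : ProbabilityTheory.iIndepFun (fun (i : ℕ) (g : ℕ → Lab) => g i)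
    (infinitePi (fun _ : ℕ => mu ph ph)) :=
  ProbabilityTheory.iIndepFun_infinitePi (X := fun _ x => x) (fun _ => measurable_id)

theorem lint_eval (i : ℕ) {g : Lab → ℝ≥0∞} (hg : Measurable g) :
    ∫⁻ x : ℕ → Lab, g (x i) ∂(infinitePi (fun _ : ℕ => mu ph ph)) = ∫⁻ t, g t ∂(mu ph ph) := by
  have h1 : (infinitePi (fun _ : ℕ => mu ph ph)).map (fun x => x i) = mu ph ph :=
    infinitePi_map_eval (fun _ : ℕ => mu ph ph) i
  have h2 := lintegral_map (μ := infinitePi (fun _ : ℕ => mu ph ph)) hg (measurable_pi_apply i)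
  rw [← h2]
  congr 1

theorem lint_children (k : ℕ) (ξ : Measure ℕ) [IsProbabilityMeasure ξ] {g : Lab → ℝ≥0∞}
    (hg : Measurable g) :
    ∫⁻ T, ∏ i ∈ range k, g (child i T) ∂(mu ξ ph) = (∫⁻ t, g t ∂(mu ph ph)) ^ k := by
  have h1 : ∫⁻ T, ∏ i ∈ range k, g (child i T) ∂(mu ξ ph) =
      ∫⁻ x, ∏ i ∈ range k, g (x i) ∂((mu ξ ph).map (fun T (i : ℕ) => child i T)) := by
    rw [lintegral_map]
    · exact Finset.measurable_prod _ fun i _ => hg.comp (measurable_pi_apply i)
    · exact measurable_pi_lambda _ fun i => measurable_child i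
  rw [h1, mu_children]
  have h2 := ProbabilityTheory.lintegral_prod_eq_prod_lintegral_of_indepFun (range k)
    (fun (i : ℕ) (x : ℕ → Lab) => g (x i)) ((iInd (ph := ph)).comp (fun _ => g) (fun _ => hg))
    (fun i => hg.comp (measurable_pi_apply i))
  rw [h2]
  have h3 : ∀ i ∈ range k, ∫⁻ x : ℕ → Lab, g (x i) ∂(infinitePi (fun _ : ℕ => mu ph ph)) =
      ∫⁻ t, g t ∂(mu ph ph) := by
    intro i _
    exact lint_eval i hg
  rw [prod_congr rfl h3, prod_const, card_range]

theorem lint_child (i : ℕ) (ξ : Measure ℕ) [IsProbabilityMeasure ξ] {g : Lab → ℝ≥0∞}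
    (hg : Measurable g) :
    ∫⁻ T, g (child i T) ∂(mu ξ ph) = ∫⁻ t, g t ∂(mu ph ph) := by
  have h1 : ∫⁻ T, g (child i T) ∂(mu ξ ph) =
      ∫⁻ x, g (x i) ∂((mu ξ ph).map (fun T (i : ℕ) => child i T)) := by
    rw [lintegral_map]
    · exact hg.comp (measurable_pi_apply i)
    · exact measurable_pi_lambda _ fun i => measurable_child i
  rw [h1, mu_children]
  exact lint_eval i hg

theorem map_child (i : ℕ) (ξ : Measure ℕ) [IsProbabilityMeasure ξ] :
    (mu ξ ph).map (child i) = mu ph ph := by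
  ext s hs
  have h := lint_child (ph := ph) i ξ (g := s.indicator 1) (measurable_one.indicator hs)
  rw [lintegral_indicator_one hs] at h
  rw [Measure.map_apply (measurable_child i) hs, ← h, ← lintegral_indicator_one
    ((measurable_child i) hs)]
  rfl

theorem ae_child (i : ℕ) (ξ : Measure ℕ) [IsProbabilityMeasure ξ] {P : Lab → Prop}
    (h : ∀ᵐ t ∂(mu ph ph), P t) : ∀ᵐ T ∂(mu ξ ph), P (child i T) := by
  rw [← map_child i ξ] at h
  exact ae_of_ae_map (measurable_child i).aemeasurable h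

/-- the square of the probability of `+` -/
theorem HY.sq_le (h : HY D ξ ph m) {d : ℕ} (hd : ∀ t : Lab, Pl D l t → (d : ℝ≥0∞) ≤ NN D l t) :
    (mu ph ph) {t | Pl D l t} ^ 2 ≤ (d : ℝ≥0∞)⁻¹ := by
  classical
  have h1 := lint_children (ph := ph) 2 ξ (g := {t : Lab | Pl D l t}.indicator 1)
    (measurable_one.indicator measurableSet_Pl)
  rw [lintegral_indicator_one measurableSet_Pl] at h1
  rw [← h1]
  have h2 : ∫⁻ T, ∏ i ∈ range 2, {t : Lab | Pl D l t}.indicator (1 : Lab → ℝ≥0∞) (child i T) ∂(mu ξ ph) ≤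
      (mu ξ ph) {T | ∃ a ∈ ch D T, ∃ b ∈ ch D T, a ≠ b ∧ Pl D l (child a T) ∧
        Pl D l (child b T)} := by
    have h3 : ∫⁻ T, ∏ i ∈ range 2, {t : Lab | Pl D l t}.indicator (1 : Lab → ℝ≥0∞) (child i T) ∂(mu ξ ph) =
        (mu ξ ph) {T | Pl D l (child 0 T) ∧ Pl D l (child 1 T)} := by
      have hms : MeasurableSet {T : Lab | Pl D l (child 0 T) ∧ Pl D l (child 1 T)} :=
        ((measurable_child 0) measurableSet_Pl).inter ((measurable_child 1) measurableSet_Pl)
      rw [← lintegral_indicator_one hms]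
      refine lintegral_congr fun T => ?_
      rw [prod_range_succ, prod_range_succ, prod_range_zero, one_mul]
      simp only [Set.indicator_apply, Set.mem_ofPred_eq, Pi.one_apply]
      by_cases h0 : Pl D l (child 0 T) <;> by_cases h1 : Pl D l (child 1 T) <;> simp [h0, h1]
    rw [h3]
    refine measure_mono_ae ?_
    filter_upwards [h.root_ge, h.root_le] with T hT hT2
    rintro ⟨g0, g1⟩
    refine ⟨0, mem_ch.2 ⟨by omega, by omega⟩, 1, mem_ch.2 ⟨by omega, by omega⟩, by norm_num, g0, g1⟩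
  refine h2.trans (h.two_children.trans ?_)
  calc ∫⁻ T, (if Pl D l T then (NN D l T)⁻¹ else 0) ∂(mu ξ ph)
      ≤ ∫⁻ T, (d : ℝ≥0∞)⁻¹ ∂(mu ξ ph) := by
        refine lintegral_mono fun T => ?_
        simp only
        split_ifs with hp
        · exact ENNReal.inv_le_inv.2 (hd T hp)
        · exact zero_le
    _ = (d : ℝ≥0∞)⁻¹ := by rw [lintegral_const, measure_univ, mul_one]

open Classical in
/-- either there is no zero type, or the `+` block is finite under the second law -/
theorem HY.finite_block' (h : HY D ξ ph m) :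
    (mu ph ph) {t | Pl D l t ∧ NN D l t = ⊤} = 0 ∨ (mu ph ph) {t | Zr D l t} = 0 := by
  set F : Lab → Lab → ℝ≥0∞ := fun s t =>
    {t : Lab | Pl D l t ∧ NN D l t = ⊤}.indicator 1 s * {t : Lab | Zr D l t}.indicator 1 t with hF
  have hms : MeasurableSet {t : Lab | Pl D l t ∧ NN D l t = ⊤} :=
    measurableSet_Pl.inter (measurable_NN (measurableSet_singleton ⊤))
  have hFm : Measurable (Function.uncurry F) :=
    ((measurable_one.indicator hms).comp measurable_fst).mul
      ((measurable_one.indicator measurableSet_Zr).comp measurable_snd)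
  have h1 := exchange ξ ph h.hm hFm
  have h2 : ∫⁻ T, ∑ i ∈ range (T []), F (rem i T) (child i T) ∂(mu ξ ph) = 0 := by
    rw [← lintegral_zero (μ := mu ξ ph)]
    refine lintegral_congr_ae ?_
    filter_upwards [h.root_le, h.finite_block (l := l)] with T hT hf
    rw [← ch_eq hT]
    refine sum_eq_zero fun i hi => ?_
    by_contra hne
    rw [hF] at hne
    simp only [mul_eq_zero, Set.indicator_apply_eq_zero, not_or, Pi.one_apply, one_ne_zero,
      imp_false, not_not, Set.mem_ofPred_eq] at hne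
    obtain ⟨⟨g1, g2⟩, g3⟩ := hne
    obtain ⟨k1, k2⟩ := Pl_iff.1 g1
    have hq : QS D l (rem i T) (child i T) := ⟨k1, g3.1, by rw [k2, g3.2]⟩
    have hp := (QS_rem hT hi).1 hq
    have := NN_rem_le (D := D) (l := l) hT hi
    rw [g2, top_le_iff] at this
    exact hf hp this
  rw [h2] at h1
  have h3 : ∫⁻ s, ∫⁻ t, F s t ∂(mu ph ph) ∂(mu ph ph) =
      (mu ph ph) {t | Pl D l t ∧ NN D l t = ⊤} * (mu ph ph) {t | Zr D l t} := by
    have h4 : ∀ s, ∫⁻ t, F s t ∂(mu ph ph) =
        {t : Lab | Pl D l t ∧ NN D l t = ⊤}.indicator 1 s * (mu ph ph) {t | Zr D l t} := by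
      intro s
      rw [hF]
      simp only
      rw [lintegral_const_mul _ (measurable_one.indicator measurableSet_Zr),
        lintegral_indicator_one measurableSet_Zr]
    simp_rw [h4]
    rw [lintegral_mul_const _ (measurable_one.indicator hms), lintegral_indicator_one hms]
  rw [h3, eq_comm, mul_eq_zero, mul_eq_zero] at h1
  rcases h1 with h1 | h1 | h1
  · exact absurd h1 h.m0
  · exact Or.inl h1
  · exact Or.inr h1

theorem HY.Pl_le_Zr (h : HY D ξ ph m) :
    (mu ph ph) {t | Pl D l t} ≤ (mu ph ph) {t | Zr D l t} := by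
  have h1 : (mu ph ph) {t | Pl D l t} = (mu ph ph) {t | Pl D l (child 0 t)} := by
    conv_lhs => rw [← map_child (ph := ph) 0 ph]
    rw [Measure.map_apply (measurable_child 0) measurableSet_Pl]
    rfl
  rw [h1]
  refine measure_mono_ae ?_
  filter_upwards [h.root_ge', h.root_le'] with T hT hT2
  intro hp
  have := rec_zero (mem_ch.2 ⟨by omega, by omega⟩ : 0 ∈ ch D T) hp
  exact ⟨this.1, this.2.1⟩

theorem HY.Zr_le_Pl (h : HY D ξ ph m) :
    (mu ph ph) {t | Zr D l t} ≤ D * (mu ph ph) {t | Pl D l t} := by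
  have h1 : ∀ i, (mu ph ph) {t | Pl D l t} = (mu ph ph) {t | Pl D l (child i t)} := by
    intro i
    conv_lhs => rw [← map_child (ph := ph) i ph]
    rw [Measure.map_apply (measurable_child i) measurableSet_Pl]
    rfl
  have h2 : (mu ph ph) {t | Zr D l t} ≤ (mu ph ph) (⋃ i ∈ range D, {t | Pl D l (child i t)}) := by
    refine measure_mono fun t ht => ?_
    obtain ⟨i, hi, hp⟩ := (Gd.zero_iff ht.1).1 ht.2
    simp only [Set.mem_iUnion]
    exact ⟨i, mem_range.2 (mem_ch.1 hi).1, hp⟩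
  refine h2.trans ((measure_biUnion_finset_le _ _).trans ?_)
  rw [sum_congr rfl fun i _ => (h1 i).symm, sum_const, card_range, nsmul_eq_mul]

end Pool.Agent.K4H57.UGW
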