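import Mathlib
import Pool.Agent.K4H57.UGW.Flow2

set_option autoImplicit false
set_option linter.unusedSimpArgs false
set_option linter.unusedVariables false
set_option linter.unusedSectionVars false

open Filter Topology Finset MeasureTheory Measure
open scoped ENNReal

namespace Pool.Agent.K4H57.UGW

variable {D : ℕ} {l : ℝ}

variable (D l) in
open Classical in
/-- generating function of the size of the root block -/
noncomputable def VV (z : ℝ≥0∞) : ℕ → Lab → ℝ≥0∞
  | 0, _ => 0
  | L + 1, t => z * ∏ i ∈ ch D t, ((if Zr D l (child i t) then 1 else 0) + VV z L (child i t))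

theorem measurable_prod_ch {F : ℕ → Lab → ℝ≥0∞} (hF : ∀ i, Measurable (F i)) :
    Measurable (fun t => ∏ i ∈ ch D t, F i t) := by
  have : (fun t => ∏ i ∈ ch D t, F i t) =
      fun t => ∏ i ∈ range D, if i < t [] then F i t else 1 := by
    funext t; rw [ch, prod_filter]
  rw [this]
  exact Finset.measurable_prod _ fun i _ => Measurable.ite (meas_lt_lab i []) (hF i) measurable_const

theorem measurable_VV (z : ℝ≥0∞) (L : ℕ) : Measurable (VV D l z L) := by
  classical
  induction L with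
  | zero => exact measurable_const
  | succ L ih =>
    change Measurable (fun t => z * ∏ i ∈ ch D t,
      ((if Zr D l (child i t) then 1 else 0) + VV D l z L (child i t)))
    refine measurable_const.mul (measurable_prod_ch fun i => ?_)
    exact (Measurable.ite ((measurable_child i) measurableSet_Zr) measurable_const
      measurable_const).add (ih.comp (measurable_child i))

theorem VV_ge {z : ℝ≥0∞} (L : ℕ) (t : Lab) (ht : AG D l t)
    (hn : nn D l (L + 1) t = nn D l L t) : z ^ (nn D l L t) ≤ VV D l z L t := by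
  classical
  induction L generalizing t with
  | zero =>
    rw [nn, nn] at hn
    omega
  | succ L ih =>
    rw [nn, nn, Nat.add_left_cancel_iff] at hn
    have h1 : ∀ i ∈ ch D t, (if Rl D l (child i t) then nn D l L (child i t) else 0) ≤
        (if Rl D l (child i t) then nn D l (L + 1) (child i t) else 0) := by
      intro i _
      split_ifs
      · exact nn_mono _ (Nat.le_succ L)
      · exact le_rfl
    have h2 := (Finset.sum_eq_sum_iff_of_le h1).1 hn.symm
    rw [nn, VV, pow_add, pow_one, ← prod_pow_eq_pow_sum]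
    gcongr with i hi
    by_cases hb : be D l (child i t) = 0
    · have hz : Zr D l (child i t) := ⟨ht i hi, hb⟩
      have hr : ¬ Rl D l (child i t) := fun h => h.2 hb
      rw [if_neg hr, if_pos hz, pow_zero]
      exact le_self_add
    · have hr : Rl D l (child i t) := ⟨ht i hi, hb⟩
      have h3 := h2 i hi
      rw [if_pos hr, if_pos hr] at h3
      rw [if_pos hr]
      exact (ih _ hr.facts.1 h3.symm).trans le_add_self

theorem tsum_sing (ξ : Measure ℕ) [IsProbabilityMeasure ξ] : ∑' k, ξ {k} = 1 := by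
  rw [← measure_univ (μ := ξ), ← Set.iUnion_of_singleton (α := ℕ),
      measure_iUnion (fun a b hab => by simpa using hab) (fun k => measurableSet_singleton k)]

variable {ξ ph : Measure ℕ} [IsProbabilityMeasure ξ] [IsProbabilityMeasure ph] {m : ℝ≥0∞}

theorem HY.ph0 (h : HY D ξ ph m) : ph {0} = 0 := by
  have h1 := ae_iff.1 h.ph_ge
  refine measure_mono_null ?_ h1
  rintro k rfl
  simp

theorem HY.VV_step (h : HY D ξ ph m) {z : ℝ≥0∞} (hz : z ≠ ⊤) (L : ℕ) {y : ℝ≥0∞} (hy : y ≤ 1)
    (hy2 : (mu ph ph) {t | Zr D l t} + ∫⁻ t, VV D l z L t ∂(mu ph ph) ≤ y) :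
    ∫⁻ t, VV D l z (L + 1) t ∂(mu ph ph) ≤ z * (ph {1} * y + y ^ 2) := by
  classical
  set g : Lab → ℝ≥0∞ := fun t => (if Zr D l t then 1 else 0) + VV D l z L t with hg
  have hgm : Measurable g :=
    (Measurable.ite measurableSet_Zr measurable_const measurable_const).add (measurable_VV z L)
  have hgi : ∫⁻ t, g t ∂(mu ph ph) ≤ y := by
    refine le_trans (le_of_eq ?_) hy2
    rw [hg, lintegral_add_right _ (measurable_VV z L)]
    congr 1
    have h1 : ∀ t, (if Zr D l t then (1 : ℝ≥0∞) else 0) = {t : Lab | Zr D l t}.indicator 1 t := by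
      intro t
      simp [Set.indicator_apply]
    simp_rw [h1]
    rw [lintegral_indicator_one measurableSet_Zr]
  have h1 : ∫⁻ t, VV D l z (L + 1) t ∂(mu ph ph) =
      z * ∫⁻ t, ∏ i ∈ range (t []), g (child i t) ∂(mu ph ph) := by
    rw [← lintegral_const_mul' _ _ hz]
    refine lintegral_congr_ae (h.root_le'.mono fun T hT => ?_)
    simp only
    rw [VV, ch_eq hT]
  rw [h1, lintegral_mu ph ph]
  gcongr
  have h2 : ∀ k, ∫⁻ T, ∏ i ∈ range (T []), g (child i T) ∂(mu (dirac k) ph) ≤ y ^ k := by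
    intro k
    have h3 : ∀ᵐ T ∂(mu (dirac k) ph), T [] = k := by
      refine mu_ae_eval (dirac k) ph (P := fun n => n = k) [] ?_
      rw [lw, if_pos rfl, ae_dirac_iff (by measurability)]
    rw [lintegral_congr_ae (g := fun T => ∏ i ∈ range k, g (child i T))
      (h3.mono fun T hT => by simp only [hT]), lint_children k (dirac k) hgm]
    gcongr
  calc ∑' k, ph {k} * ∫⁻ T, ∏ i ∈ range (T []), g (child i T) ∂(mu (dirac k) ph)
      ≤ ∑' k, ((if k = 1 then ph {1} * y else 0) + ph {k} * y ^ 2) := by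
        refine ENNReal.tsum_le_tsum fun k => ?_
        rcases k with _ | _ | k
        · rw [h.ph0, zero_mul]; exact zero_le
        · refine le_trans ?_ le_self_add
          rw [zero_add, if_pos rfl]
          gcongr
          exact (h2 1).trans (by rw [pow_one])
        · refine le_trans ?_ le_add_self
          gcongr
          refine (h2 _).trans ?_
          have e1 : y ^ (k + 1 + 1) = y ^ k * y ^ 2 := by ring
          rw [e1]
          calc y ^ k * y ^ 2 ≤ 1 * y ^ 2 := by
                gcongr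
                exact pow_le_one' hy k
            _ = y ^ 2 := one_mul _
    _ = ph {1} * y + y ^ 2 := by
        rw [ENNReal.tsum_add, ENNReal.tsum_mul_right, tsum_sing ph, one_mul]
        congr 1
        rw [tsum_ite_eq]

theorem nn_stab {t : Lab} (h : NN D l t ≠ ⊤) : ∃ L₀, ∀ L, L₀ ≤ L → nn D l L t = nn D l L₀ t ∧
    NN D l t = nn D l L t := by
  obtain ⟨B, hB⟩ := ENNReal.exists_nat_gt h
  have hbd : BddAbove (Set.range fun L => nn D l L t) := by
    refine ⟨B, ?_⟩
    rintro _ ⟨L, rfl⟩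
    have h1 := (nn_le_NN (D := D) (l := l) L t).trans hB.le
    exact_mod_cast h1
  obtain ⟨L₀, hL₀⟩ := Nat.sSup_mem (Set.range_nonempty _) hbd
  have h1 : ∀ L, nn D l L t ≤ nn D l L₀ t := by
    intro L
    simp only at hL₀
    rw [hL₀]
    exact le_csSup hbd ⟨L, rfl⟩
  have h2 : ∀ L, L₀ ≤ L → nn D l L t = nn D l L₀ t := fun L hL => le_antisymm (h1 L) (nn_mono t hL)
  refine ⟨L₀, fun L hL => ⟨h2 L hL, ?_⟩⟩
  rw [h2 L hL]
  refine le_antisymm (iSup_le fun L' => ?_) (nn_le_NN L₀ t)
  exact_mod_cast h1 L'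

theorem HY.fatou (h : HY D ξ ph m) {z : ℝ≥0∞} (hz : 1 ≤ z) {d : ℕ}
    (hd : ∀ t : Lab, Pl D l t → (d : ℝ≥0∞) ≤ NN D l t)
    (h0 : (mu ph ph) {t | Pl D l t ∧ NN D l t = ⊤} = 0) {B : ℝ≥0∞}
    (hB : ∀ L, ∫⁻ t, VV D l z L t ∂(mu ph ph) ≤ B) :
    z ^ d * (mu ph ph) {t | Pl D l t} ≤ B := by
  classical
  have h1 : ∫⁻ t, liminf (fun L => VV D l z L t) atTop ∂(mu ph ph) ≤ B := by
    refine (lintegral_liminf_le fun L => measurable_VV z L).trans ?_
    exact (liminf_le_liminf (Eventually.of_forall fun L => hB L)).trans (by simp)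
  refine le_trans ?_ h1
  have h2 : ∀ᵐ t ∂(mu ph ph), ¬ (Pl D l t ∧ NN D l t = ⊤) := by
    rw [ae_iff]; simpa using h0
  have h3 : z ^ d * (mu ph ph) {t | Pl D l t} =
      ∫⁻ t, {t : Lab | Pl D l t}.indicator (fun _ => z ^ d) t ∂(mu ph ph) := by
    rw [lintegral_indicator_const measurableSet_Pl]
  rw [h3]
  refine lintegral_mono_ae (h2.mono fun t ht => ?_)
  by_cases hp : Pl D l t
  · rw [Set.indicator_of_mem (by exact hp)]
    have hn : NN D l t ≠ ⊤ := fun h => ht ⟨hp, h⟩
    obtain ⟨L₀, hL₀⟩ := nn_stab hn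
    refine le_liminf_of_le (by isBoundedDefault) ?_
    filter_upwards [eventually_ge_atTop L₀] with L hL
    have h4 : nn D l (L + 1) t = nn D l L t := by
      rw [(hL₀ (L + 1) (by omega)).1, (hL₀ L hL).1]
    refine le_trans ?_ (VV_ge L t (Pl_iff.1 hp).1 h4)
    refine pow_le_pow_right₀ hz ?_
    have h5 := hd t hp
    rw [(hL₀ L hL).2] at h5
    exact_mod_cast h5
  · rw [Set.indicator_of_notMem (by exact hp)]
    exact zero_le

/-- the probability of `+` is zero if all `+` blocks are large, depending on the laws only -/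
theorem HY.q_zero (h : HY D ξ ph m) (hp : ph {1} ≠ 1) : ∃ d : ℕ, ∀ l : ℝ,
    (∀ t : Lab, Pl D l t → (d : ℝ≥0∞) ≤ NN D l t) → (mu ph ph) {t | Pl D l t} = 0 := by
  set p := (ph {1}).toReal with hpdef
  have hp1 : ph {1} = ENNReal.ofReal p := by rw [hpdef, ENNReal.ofReal_toReal (by simp)]
  have hp0 : 0 ≤ p := ENNReal.toReal_nonneg
  have hplt : p < 1 := by
    have h1 : ph {1} ≤ 1 := prob_le_one
    have h2 : ph {1} < 1 := lt_of_le_of_ne h1 hp
    rw [hp1, ← ENNReal.ofReal_one] at h2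
    exact (ENNReal.ofReal_lt_ofReal_iff one_pos).1 h2
  set z : ℝ := 2 / (1 + p) with hz
  have hz1 : 1 < z := by rw [hz, lt_div_iff₀ (by linarith)]; linarith
  have hzp : z * p < 1 := by rw [hz, div_mul_eq_mul_div, div_lt_one (by linarith)]; linarith
  set K : ℝ := 1 / (1 - z * p) with hK
  have hKpos : 0 < K := by rw [hK]; apply one_div_pos.2; linarith
  have hKeq : K = 1 + z * p * K := by
    have hne : 1 - z * p ≠ 0 := by
      have : 0 < 1 - z * p := by linarith
      exact this.ne'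
    have h1 : K * (1 - z * p) = 1 := by rw [hK]; exact div_mul_cancel₀ _ hne
    linarith
  set ζ₁ : ℝ := min (1 / (1 + K)) ((1 - z * p) / (z * (1 + K) ^ 2)) with hζ₁
  have hζpos : 0 < ζ₁ := by
    rw [hζ₁]
    apply lt_min
    · positivity
    · apply div_pos (by linarith)
      have : 0 < z := by linarith
      positivity
  obtain ⟨d, hd1, hd2⟩ : ∃ d : ℕ, ((D : ℝ) ^ 2) ≤ ζ₁ ^ 2 * d ∧ K * D < z ^ d := by
    have e1 : ∀ᶠ d : ℕ in atTop, ((D : ℝ) ^ 2) ≤ ζ₁ ^ 2 * d := by
      have : Tendsto (fun d : ℕ => ζ₁ ^ 2 * (d : ℝ)) atTop atTop :=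
        tendsto_natCast_atTop_atTop.const_mul_atTop (by positivity)
      exact this.eventually_ge_atTop _
    have e2 : ∀ᶠ d : ℕ in atTop, K * D < z ^ d :=
      (tendsto_pow_atTop_atTop_of_one_lt hz1).eventually_gt_atTop _
    exact (e1.and e2).exists
  refine ⟨d, fun l hd => ?_⟩
  by_contra hq
  set q := ((mu ph ph) {t | Pl D l t}).toReal with hqdef
  set ζ := ((mu ph ph) {t | Zr D l t}).toReal with hζdef
  have hqe : (mu ph ph) {t | Pl D l t} = ENNReal.ofReal q := by
    rw [hqdef, ENNReal.ofReal_toReal (by simp)]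
  have hζe : (mu ph ph) {t | Zr D l t} = ENNReal.ofReal ζ := by
    rw [hζdef, ENNReal.ofReal_toReal (by simp)]
  have hqpos : 0 < q := ENNReal.toReal_pos hq (by simp)
  have hζ0 : 0 ≤ ζ := ENNReal.toReal_nonneg
  have hqζ : q ≤ ζ := ENNReal.toReal_mono (by simp) (h.Pl_le_Zr (l := l))
  have hζq : ζ ≤ D * q := by
    have h1 := h.Zr_le_Pl (l := l)
    rw [hqe, hζe, ← ENNReal.ofReal_natCast, ← ENNReal.ofReal_mul (by positivity)] at h1
    exact (ENNReal.ofReal_le_ofReal_iff (by positivity)).1 h1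
  have hfin : (mu ph ph) {t | Pl D l t ∧ NN D l t = ⊤} = 0 := by
    rcases h.finite_block' (l := l) with h1 | h1
    · exact h1
    · exfalso
      have h2 := h.Pl_le_Zr (l := l)
      rw [h1] at h2
      exact hq (le_antisymm h2 zero_le)
  have hDpos : (0 : ℝ) < D := by
    by_contra hD
    push Not at hD
    have : ζ ≤ 0 := hζq.trans (mul_nonpos_of_nonpos_of_nonneg hD hqpos.le)
    linarith
  have hdpos : 0 < d := by
    by_contra hd0
    have : d = 0 := by omega
    rw [this] at hd1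
    simp only [Nat.cast_zero, mul_zero] at hd1
    have : 0 < (D : ℝ) ^ 2 := by positivity
    linarith
  have hqd : q ^ 2 * d ≤ 1 := by
    have h1 := h.sq_le hd
    rw [hqe, ← ENNReal.ofReal_pow hqpos.le] at h1
    have h2 : ((d : ℝ≥0∞))⁻¹ = ENNReal.ofReal ((d : ℝ)⁻¹) := by
      rw [ENNReal.ofReal_inv_of_pos (by exact_mod_cast hdpos), ENNReal.ofReal_natCast]
    rw [h2, ENNReal.ofReal_le_ofReal_iff (by positivity)] at h1
    have h3 : (0 : ℝ) < d := by exact_mod_cast hdpos
    calc q ^ 2 * d ≤ (d : ℝ)⁻¹ * d := by gcongr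
      _ = 1 := inv_mul_cancel₀ h3.ne'
  have hζle : ζ ≤ ζ₁ := by
    refine le_of_sq_le_sq ?_ hζpos.le
    have h3 : (0 : ℝ) < d := by exact_mod_cast hdpos
    have h4 : ζ ^ 2 ≤ (D * q) ^ 2 := by gcongr
    have h5 : (D * q) ^ 2 * d ≤ ζ₁ ^ 2 * d := by
      calc (D * q) ^ 2 * d = (D : ℝ) ^ 2 * (q ^ 2 * d) := by ring
        _ ≤ (D : ℝ) ^ 2 * 1 := by gcongr
        _ ≤ _ := by rw [mul_one]; exact hd1
    exact h4.trans (le_of_mul_le_mul_right h5 h3)
  have hA : (1 + K) * ζ ≤ 1 := by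
    have h1 : ζ ≤ 1 / (1 + K) := hζle.trans (min_le_left _ _)
    rw [le_div_iff₀ (by linarith)] at h1
    linarith
  have hB : z * (1 + K) ^ 2 * ζ ≤ 1 - z * p := by
    have h1 : ζ ≤ (1 - z * p) / (z * (1 + K) ^ 2) := hζle.trans (min_le_right _ _)
    rw [le_div_iff₀ (by positivity)] at h1
    linarith
  have hH : z * (p * ((1 + K) * ζ) + ((1 + K) * ζ) ^ 2) ≤ K * ζ := by
    have h1 : z * (p * ((1 + K) * ζ) + ((1 + K) * ζ) ^ 2) =
        (z * p * (1 + K) + z * (1 + K) ^ 2 * ζ) * ζ := by ring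
    rw [h1]
    apply mul_le_mul_of_nonneg_right _ hζ0
    nlinarith
  have hV : ∀ L, ∫⁻ t, VV D l (ENNReal.ofReal z) L t ∂(mu ph ph) ≤ ENNReal.ofReal (K * ζ) := by
    intro L
    induction L with
    | zero => simp [VV]
    | succ L ih =>
      have h1 := h.VV_step (l := l) (z := ENNReal.ofReal z) (by simp) L (y := ENNReal.ofReal ((1 + K) * ζ))
        (by rw [← ENNReal.ofReal_one]; exact ENNReal.ofReal_le_ofReal hA) (by
          rw [hζe]
          calc ENNReal.ofReal ζ + _ ≤ ENNReal.ofReal ζ + ENNReal.ofReal (K * ζ) := by gcongr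
            _ = ENNReal.ofReal ((1 + K) * ζ) := by
              rw [← ENNReal.ofReal_add hζ0 (by positivity)]; congr 1; ring)
      refine h1.trans ?_
      rw [hp1, ← ENNReal.ofReal_mul hp0, ← ENNReal.ofReal_pow (by positivity),
        ← ENNReal.ofReal_add (by positivity) (by positivity), ← ENNReal.ofReal_mul (by positivity)]
      exact ENNReal.ofReal_le_ofReal hH
  have hF := h.fatou (z := ENNReal.ofReal z) (by
    rw [← ENNReal.ofReal_one]; exact ENNReal.ofReal_le_ofReal hz1.le) hd hfin hV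
  rw [hqe, ← ENNReal.ofReal_pow (by positivity), ← ENNReal.ofReal_mul (by positivity),
    ENNReal.ofReal_le_ofReal_iff (by positivity)] at hF
  have h1 : z ^ d * q ≤ K * D * q := by
    refine hF.trans ?_
    calc K * ζ ≤ K * (D * q) := by gcongr
      _ = K * D * q := by ring
  have h2 := le_of_mul_le_mul_right h1 hqpos
  linarith

/-- the deterministic law -/
theorem HY.q_zero_one (h : HY D ξ ph m) (hp : ph {1} = 1) (l : ℝ) :
    (mu ph ph) {t | Pl D l t} = 0 := by
  have h1 : ∀ᵐ k ∂ph, k = 1 := by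
    rw [ae_iff]
    have : {a : ℕ | ¬ a = 1} = {1}ᶜ := rfl
    rw [this, prob_compl_eq_zero_iff (measurableSet_singleton 1)]
    exact hp
  have h2 : ∀ᵐ t ∂(mu ph ph), ∀ v, t v = 1 := by
    rw [ae_all_iff]
    intro v
    refine mu_ae_eval ph ph (P := fun n => n = 1) v ?_
    rw [lw]
    split_ifs <;> exact h1
  have h3 : ∀ᵐ t ∂(mu ph ph), ¬ Pl D l t := by
    filter_upwards [h2, h.root_le'] with t ht hD hpl
    have h4 : child 0 t = t := by
      funext w
      change t (0 :: w) = t w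
      rw [ht, ht]
    have h5 : 0 ∈ ch D t := mem_ch.2 ⟨by rw [ht] at hD; omega, by rw [ht]; omega⟩
    have h6 := hpl.no_child 0 h5
    rw [h4] at h6
    exact h6 hpl
  rw [ae_iff] at h3
  simpa using h3

theorem HY.nn_ge (h : HY D ξ ph m) (hZ : ∀ᵐ t ∂(mu ph ph), ¬ Zr D l t) (L : ℕ) :
    ∀ᵐ t ∂(mu ph ph), AG D l t → L ≤ nn D l L t := by
  classical
  induction L with
  | zero => exact Eventually.of_forall fun t _ => Nat.zero_le _
  | succ L ih =>
    filter_upwards [h.root_ge', h.root_le', ae_child 0 ph hZ, ae_child 0 ph ih] with t h1 h2 h3 h4 hA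
    have h0 : 0 ∈ ch D t := mem_ch.2 ⟨by omega, by omega⟩
    have hg := hA 0 h0
    have hr : Rl D l (child 0 t) := ⟨hg, fun hb => h3 ⟨hg, hb⟩⟩
    have h5 := h4 hr.facts.1
    rw [nn]
    have h6 : (if Rl D l (child 0 t) then nn D l L (child 0 t) else 0) ≤
        ∑ i ∈ ch D t, if Rl D l (child i t) then nn D l L (child i t) else 0 :=
      single_le_sum (f := fun i => if Rl D l (child i t) then nn D l L (child i t) else 0)
        (fun _ _ => Nat.zero_le _) h0
    rw [if_pos hr] at h6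
    omega

theorem HY.ae_not_Pl (h : HY D ξ ph m) (hq : (mu ph ph) {t | Pl D l t} = 0) :
    ∀ᵐ T ∂(mu ξ ph), ¬ Pl D l T := by
  classical
  have hZ : ∀ᵐ t ∂(mu ph ph), ¬ Zr D l t := by
    have h1 := h.Zr_le_Pl (l := l)
    rw [hq, mul_zero] at h1
    rw [ae_iff]
    simpa using h1
  have hn : ∀ᵐ t ∂(mu ph ph), ∀ L, AG D l t → L ≤ nn D l L t := by
    rw [ae_all_iff]
    exact fun L => h.nn_ge hZ L
  filter_upwards [h.root_le, h.root_ge, ae_child 0 ξ hZ, ae_child 0 ξ hn,
    h.finite_block (l := l)] with T h1 h2 h3 h4 h5 hp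
  have hA := (Pl_iff.1 hp).1
  have h0 : 0 ∈ ch D T := mem_ch.2 ⟨by omega, by omega⟩
  have hg := hA 0 h0
  have hr : Rl D l (child 0 T) := ⟨hg, fun hb => h3 ⟨hg, hb⟩⟩
  refine h5 hp ?_
  by_contra hne
  obtain ⟨L, hL⟩ := ENNReal.exists_nat_gt hne
  have h6 := h4 L hr.facts.1
  have h7 : nn D l L (child 0 T) ≤ nn D l (L + 1) T := by
    rw [nn]
    have h8 : (if Rl D l (child 0 T) then nn D l L (child 0 T) else 0) ≤
        ∑ i ∈ ch D T, if Rl D l (child i T) then nn D l L (child i T) else 0 :=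
      single_le_sum (f := fun i => if Rl D l (child i T) then nn D l L (child i T) else 0)
        (fun _ _ => Nat.zero_le _) h0
    rw [if_pos hr] at h8
    omega
  have h9 := nn_le_NN (D := D) (l := l) (L + 1) T
  have h10 : (L : ℝ≥0∞) ≤ NN D l T := le_trans (by exact_mod_cast h6.trans h7) h9
  exact absurd hL (not_lt.2 h10)

theorem HY.main (h : HY D ξ ph m) : ∃ d : ℕ, ∀ l : ℝ,
    (∀ t : Lab, Pl D l t → (d : ℝ≥0∞) ≤ NN D l t) → ∀ᵐ T ∂(mu ξ ph), mm D l T = 0 := by
  by_cases hp : ph {1} = 1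
  · refine ⟨0, fun l _ => ?_⟩
    refine (h.ae_not_Pl (h.q_zero_one hp l)).mono fun T hT => ?_
    by_contra h'
    exact hT ((mm_pos_iff T).1 (lt_of_le_of_ne (mm_nonneg T) (Ne.symm h')))
  · obtain ⟨d, hd⟩ := h.q_zero hp
    refine ⟨d, fun l hl => ?_⟩
    refine (h.ae_not_Pl (hd l hl)).mono fun T hT => ?_
    by_contra h'
    exact hT ((mm_pos_iff T).1 (lt_of_le_of_ne (mm_nonneg T) (Ne.symm h')))

end Pool.Agent.K4H57.UGW
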