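import Mathlib
import Pool.Agent.K4H57.UGW.Flow3

set_option autoImplicit false
set_option linter.unusedSimpArgs false
set_option linter.unusedVariables false
set_option linter.unusedSectionVars false

open Filter Topology Finset MeasureTheory Measure Polynomial
open scoped ENNReal

namespace Pool.Agent.K4H57.UGW

variable {D : ℕ} {l : ℝ}

variable (D) in
/-- combining the pairs of the children -/
noncomputable def comb (g : Fin D → ℝ[X] × ℝ[X]) : ℝ[X] × ℝ[X] :=
  (Polynomial.X * ∏ i, (g i).1 - ∑ i, (g i).2 * ∏ j ∈ univ.erase i, (g j).1, ∏ i, (g i).1)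

variable (D) in
/-- pairs (numerator, denominator) of blocks of height less than `L` -/
noncomputable def SS : ℕ → Set (ℝ[X] × ℝ[X])
  | 0 => ∅
  | L + 1 => comb D '' {g | ∀ i, g i ∈ insert (1, 0) (SS L)}

theorem SS_finite (L : ℕ) : (SS D L).Finite := by
  induction L with
  | zero => exact Set.finite_empty
  | succ L ih =>
    refine Set.Finite.image _ ?_
    have h1 : {g : Fin D → ℝ[X] × ℝ[X] | ∀ i, g i ∈ insert (1, 0) (SS D L)} =
        Set.pi Set.univ (fun _ => insert (1, 0) (SS D L)) := by
      ext g; simp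
    rw [h1]
    exact Set.Finite.pi fun _ => ih.insert _

theorem comb_monic {g : Fin D → ℝ[X] × ℝ[X]}
    (hg : ∀ i, (g i).1.Monic ∧ (g i).2.degree < (g i).1.degree) :
    (comb D g).1.Monic ∧ (comb D g).2.degree < (comb D g).1.degree := by
  have hP : (∏ i, (g i).1).Monic := monic_prod_of_monic _ _ fun i _ => (hg i).1
  have hXP : (Polynomial.X * ∏ i, (g i).1).Monic := monic_X.mul hP
  have hdeg : (∏ i, (g i).1).degree < (Polynomial.X * ∏ i, (g i).1).degree := by
    rw [degree_mul, degree_X, degree_eq_natDegree hP.ne_zero]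
    norm_cast
    omega
  have hS : (∑ i, (g i).2 * ∏ j ∈ univ.erase i, (g j).1).degree < (∏ i, (g i).1).degree := by
    rw [degree_eq_natDegree hP.ne_zero, ← mem_degreeLT]
    refine Submodule.sum_mem _ fun i _ => ?_
    rw [mem_degreeLT, ← degree_eq_natDegree hP.ne_zero, ← mul_prod_erase univ (fun j => (g j).1)
      (mem_univ i), degree_mul, degree_mul]
    refine WithBot.add_lt_add_right ?_ (hg i).2
    rw [Ne, degree_eq_bot]
    exact (monic_prod_of_monic _ _ fun i _ => (hg i).1).ne_zero
  have hlt := hS.trans hdeg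
  refine ⟨hXP.sub_of_left hlt, ?_⟩
  change (∏ i, (g i).1).degree < (Polynomial.X * ∏ i, (g i).1 -
    ∑ i, (g i).2 * ∏ j ∈ univ.erase i, (g j).1).degree
  rw [degree_sub_eq_left_of_degree_lt hlt]
  exact hdeg

theorem SS_monic (L : ℕ) : ∀ pq ∈ SS D L, pq.1.Monic ∧ pq.2.degree < pq.1.degree := by
  induction L with
  | zero => intro pq h; exact absurd h (Set.notMem_empty _)
  | succ L ih =>
    rintro _ ⟨g, hg, rfl⟩
    refine comb_monic fun i => ?_
    rcases hg i with h | h
    · rw [h]
      refine ⟨monic_one, ?_⟩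
      simp
    · exact ih _ h

theorem SS_eval (L : ℕ) (t : Lab) (ht : AG D l t) (hn : nn D l (L + 1) t = nn D l L t) :
    ∃ pq ∈ SS D L, pq.2.eval l ≠ 0 ∧ SG D l t * pq.2.eval l = pq.1.eval l := by
  classical
  induction L generalizing t with
  | zero =>
    rw [nn, nn] at hn
    omega
  | succ L ih =>
    rw [nn, nn, Nat.add_left_cancel_iff] at hn
    have h1 : ∀ i ∈ ch D t, (if Rl D l (child i t) then nn D l L (child i t) else 0) ≤
        (if Rl D l (child i t) then nn D l (L + 1) (child i t) else 0) := by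
      intro i _
      split_ifs
      · exact nn_mono _ (Nat.le_succ L)
      · exact le_rfl
    have h2 := (Finset.sum_eq_sum_iff_of_le h1).1 hn.symm
    have h3 : ∀ i : Fin D, ∃ pq ∈ insert (1, 0) (SS D L), pq.1.eval l ≠ 0 ∧
        (if (i : ℕ) < t [] then be D l (child i t) else 0) * pq.1.eval l = pq.2.eval l := by
      intro i
      by_cases hi : (i : ℕ) < t []
      · have hi' : (i : ℕ) ∈ ch D t := mem_ch.2 ⟨i.2, hi⟩
        by_cases hb : be D l (child i t) = 0
        · exact ⟨(1, 0), Set.mem_insert _ _, by simp, by simp [hb]⟩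
        · have hr : Rl D l (child i t) := ⟨ht i hi', hb⟩
          have h4 := h2 i hi'
          rw [if_pos hr, if_pos hr] at h4
          obtain ⟨k1, k2, k3⟩ := hr.facts
          obtain ⟨pq, hpq, e1, e2⟩ := ih _ k1 h4.symm
          rw [k2] at e2
          have hbi := inv_ne_zero hb
          refine ⟨pq, Set.mem_insert_of_mem _ hpq, ?_, ?_⟩
          · rw [← e2]; exact mul_ne_zero hbi e1
          · rw [if_pos hi, ← e2, ← mul_assoc, mul_inv_cancel₀ hb, one_mul]
      · exact ⟨(1, 0), Set.mem_insert _ _, by simp, by simp [hi]⟩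
    choose g hg1 hg2 hg3 using h3
    refine ⟨comb D g, ⟨g, hg1, rfl⟩, ?_, ?_⟩
    · change (∏ i, (g i).1).eval l ≠ 0
      rw [eval_prod]
      exact prod_ne_zero_iff.2 fun i _ => hg2 i
    · change SG D l t * (∏ i, (g i).1).eval l = (Polynomial.X * ∏ i, (g i).1 -
        ∑ i, (g i).2 * ∏ j ∈ univ.erase i, (g j).1).eval l
      have h5 : SG D l t = l - ∑ i : Fin D, if (i : ℕ) < t [] then be D l (child i t) else 0 := by
        unfold SG
        rw [ch, sum_filter, Finset.sum_range (fun i => if i < t [] then be D l (child i t) else 0)]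
      rw [h5, eval_sub, eval_mul, eval_X, eval_finsetSum, sub_mul, sum_mul]
      congr 1
      refine sum_congr rfl fun i _ => ?_
      rw [eval_mul, ← hg3 i, eval_prod, eval_prod, ← mul_prod_erase univ (fun j => eval l (g j).1)
      (mem_univ i), mul_assoc]

theorem nn_height (L : ℕ) (t : Lab) : nn D l (L + 1) t = nn D l L t ∨ L + 1 ≤ nn D l (L + 1) t := by
  classical
  induction L generalizing t with
  | zero => right; rw [nn]; omega
  | succ L ih =>
    by_cases h : ∀ i ∈ ch D t, Rl D l (child i t) → nn D l (L + 1) (child i t) = nn D l L (child i t)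
    · left
      rw [nn, nn]
      congr 1
      refine sum_congr rfl fun i hi => ?_
      split_ifs with hr
      · exact h i hi hr
      · rfl
    · right
      push Not at h
      obtain ⟨i, hi, hr, hne⟩ := h
      have h1 := (ih (child i t)).resolve_left hne
      rw [nn]
      have h8 : (if Rl D l (child i t) then nn D l (L + 1) (child i t) else 0) ≤
          ∑ i ∈ ch D t, if Rl D l (child i t) then nn D l (L + 1) (child i t) else 0 :=
        single_le_sum (f := fun i => if Rl D l (child i t) then nn D l (L + 1) (child i t) else 0)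
          (fun _ _ => Nat.zero_le _) hi
      rw [if_pos hr] at h8
      omega

theorem exceptional (D d : ℕ) : ∃ S : Set ℝ, S.Finite ∧ ∀ l ∉ S, ∀ t : Lab, Pl D l t →
    (d : ℝ≥0∞) ≤ NN D l t := by
  refine ⟨⋃ pq ∈ SS D d, {x | x ∈ pq.1.roots}, ?_, ?_⟩
  · refine (SS_finite d).biUnion fun pq _ => ?_
    have : {x | x ∈ pq.1.roots} = (pq.1.roots.toFinset : Set ℝ) := by ext x; simp
    rw [this]
    exact Finset.finite_toSet _
  · intro l hl t hp
    by_contra hlt
    push Not at hlt
    apply hl
    have h1 : nn D l (d + 1) t = nn D l d t := by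
      refine (nn_height d t).resolve_right fun h => ?_
      have h2 := (nn_le_NN (D := D) (l := l) (d + 1) t).trans_lt hlt
      have h3 : nn D l (d + 1) t < d := by exact_mod_cast h2
      omega
    obtain ⟨hA, hS⟩ := Pl_iff.1 hp
    obtain ⟨pq, hpq, h2, h3⟩ := SS_eval d t hA h1
    rw [hS, zero_mul] at h3
    simp only [Set.mem_iUnion]
    refine ⟨pq, hpq, ?_⟩
    have hne := (SS_monic d pq hpq).1.ne_zero
    exact (mem_roots hne).2 h3.symm

end Pool.Agent.K4H57.UGW
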