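import Mathlib
import Pool.Agent.K4H57.UGW.Poly

set_option autoImplicit false
set_option linter.unusedSimpArgs false
set_option linter.unusedVariables false
set_option linter.unusedSectionVars false

open Filter Topology Finset MeasureTheory Measure
open scoped ENNReal

namespace Pool.Agent.K4H57.UGW

variable {D : ℕ} {l : ℝ}

/-- vertices of the tree -/
def val (t : Lab) (v : W) : Prop := ∀ j < v.length, v.getD j 0 < t (v.take j)

theorem val_nil (t : Lab) : val t [] := by intro j hj; simp at hj

theorem val_snoc (t : Lab) (v : W) (i : ℕ) : val t (v ++ [i]) ↔ val t v ∧ i < t v := by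
  constructor
  · intro h
    constructor
    · intro j hj
      have h1 := h j (by rw [List.length_append]; omega)
      rw [List.getD_append _ _ _ _ hj, List.take_append_of_le_length hj.le] at h1
      exact h1
    · have h1 := h v.length (by simp)
      simpa using h1
  · rintro ⟨h1, h2⟩ j hj
    rw [List.length_append, List.length_singleton] at hj
    rcases Nat.lt_succ_iff_lt_or_eq.1 hj with h3 | h3
    · rw [List.getD_append _ _ _ _ h3, List.take_append_of_le_length h3.le]
      exact h1 j h3
    · subst h3
      simpa using h2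

/-- neighbours -/
def nbr (t : Lab) (v : W) : Finset W :=
  (range (t v)).image (fun i => v ++ [i]) ∪ (if v = [] then ∅ else {v.dropLast})

open Classical in
/-- walks from the root to `v` -/
noncomputable def wk (t : Lab) : (k : ℕ) → W → Finset (Fin (k + 1) → W)
  | 0, v => if v = [] then {fun _ => []} else ∅
  | k + 1, v => if val t v then
      (nbr t v).biUnion (fun u => (wk t k u).image (fun g => (Fin.snoc g v : Fin (k + 2) → W)))
      else ∅

/-- predicate form -/
def IsW (t : Lab) (k : ℕ) (v : W) (f : Fin (k + 1) → W) : Prop :=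
  f 0 = [] ∧ f (Fin.last k) = v ∧ (∀ i, val t (f i)) ∧
    ∀ i : Fin k, (∃ a : ℕ, f i.succ = f i.castSucc ++ [a]) ∨ (∃ a : ℕ, f i.castSucc = f i.succ ++ [a])

theorem mem_nbr {t : Lab} {u v : W} (hv : val t v) : u ∈ nbr t v ↔ val t u ∧
    ((∃ a : ℕ, v = u ++ [a]) ∨ (∃ a : ℕ, u = v ++ [a])) := by
  unfold nbr
  rw [mem_union, mem_image]
  constructor
  · rintro (⟨i, hi, rfl⟩ | h)
    · exact ⟨(val_snoc t v i).2 ⟨hv, mem_range.1 hi⟩, Or.inr ⟨i, rfl⟩⟩
    · split_ifs at h with h0
      · simp at h
      · rw [mem_singleton] at h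
        subst h
        rcases List.eq_nil_or_concat v with rfl | ⟨w, j, rfl⟩
        · exact absurd rfl h0
        · rw [List.concat_eq_append] at hv ⊢
          rw [List.dropLast_concat]
          exact ⟨((val_snoc t w j).1 hv).1, Or.inl ⟨j, rfl⟩⟩
  · rintro ⟨h1, ⟨a, rfl⟩ | ⟨a, rfl⟩⟩
    · right
      rw [if_neg (by simp), mem_singleton, List.dropLast_concat]
    · left
      exact ⟨a, mem_range.2 ((val_snoc t v a).1 h1).2, rfl⟩

theorem mem_wk (t : Lab) (k : ℕ) (v : W) (f : Fin (k + 1) → W) : f ∈ wk t k v ↔ IsW t k v f := by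
  induction k generalizing v with
  | zero =>
    unfold wk IsW
    constructor
    · intro h
      split_ifs at h with h0
      · rw [mem_singleton] at h
        subst h
        refine ⟨rfl, h0.symm, fun _ => val_nil t, fun i => i.elim0⟩
      · simp at h
    · rintro ⟨h1, h2, -, -⟩
      have h3 : v = [] := by rw [← h2, ← h1]; rfl
      rw [if_pos h3, mem_singleton]
      funext i
      rw [Fin.fin_one_eq_zero i, h1]
  | succ k ih =>
    rw [wk]
    constructor
    · intro h
      split_ifs at h with hv
      · rw [mem_biUnion] at h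
        obtain ⟨u, hu, h⟩ := h
        rw [mem_image] at h
        obtain ⟨g, hg, rfl⟩ := h
        rw [ih] at hg
        obtain ⟨g1, g2, g3, g4⟩ := hg
        refine ⟨?_, ?_, ?_, ?_⟩
        · have : (0 : Fin (k + 2)) = Fin.castSucc 0 := rfl
          rw [this, Fin.snoc_castSucc, g1]
        · rw [Fin.snoc_last]
        · intro i
          refine Fin.lastCases ?_ (fun i => ?_) i
          · rw [Fin.snoc_last]; exact hv
          · rw [Fin.snoc_castSucc]; exact g3 i
        · intro i
          refine Fin.lastCases ?_ (fun i => ?_) i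
          · rw [Fin.succ_last, Fin.snoc_last, Fin.snoc_castSucc, g2]
            exact ((mem_nbr hv).1 hu).2
          · rw [Fin.succ_castSucc, Fin.snoc_castSucc, Fin.snoc_castSucc]
            exact g4 i
      · simp at h
    · rintro ⟨h1, h2, h3, h4⟩
      have hv : val t v := by rw [← h2]; exact h3 _
      rw [if_pos hv, mem_biUnion]
      refine ⟨f (Fin.last k).castSucc, ?_, ?_⟩
      · rw [mem_nbr hv]
        refine ⟨h3 _, ?_⟩
        have := h4 (Fin.last k)
        rw [Fin.succ_last, h2] at this
        exact this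
      · rw [mem_image]
        refine ⟨Fin.init f, ?_, ?_⟩
        · rw [ih]
          refine ⟨h1, rfl, fun i => h3 _, fun i => ?_⟩
          have := h4 i.castSucc
          rw [Fin.succ_castSucc] at this
          exact this
        · rw [← h2]
          exact Fin.snoc_init_self f

theorem card_wk (t : Lab) (k : ℕ) (v : W) (hv : val t v) :
    (wk t (k + 1) v).card = ∑ u ∈ nbr t v, (wk t k u).card := by
  rw [wk, if_pos hv, card_biUnion]
  · refine sum_congr rfl fun u _ => ?_
    rw [card_image_of_injective]
    intro g g' h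
    have := congrArg Fin.init h
    simpa using this
  · intro u _ u' _ hne
    rw [Function.onFun, Finset.disjoint_left]
    intro f hf hf'
    rw [mem_image] at hf hf'
    obtain ⟨g, hg, rfl⟩ := hf
    obtain ⟨g', hg', h⟩ := hf'
    have := congrArg Fin.init h
    simp only [Fin.init_snoc] at this
    subst this
    apply hne
    rw [mem_wk] at hg hg'
    rw [← hg.2.1, ← hg'.2.1]

theorem A_nbr {t : Lab} (ht : ∀ w, t w ≤ D) (f : H) {v : W} (hv : val t v) :
    A D t f v = ∑ u ∈ nbr t v, f u := by
  have hr : ∀ w, ∑ i ∈ range D, (if i < t w then f (w ++ [i]) else 0) =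
      ∑ u ∈ (range (t w)).image (fun i => w ++ [i]), f u := by
    intro w
    rw [sum_image (fun a _ b _ h => by simpa using h), ← sum_filter]
    congr 1
    ext i
    have := ht w
    simp only [mem_filter, mem_range]
    omega
  rcases List.eq_nil_or_concat v with rfl | ⟨w, j, rfl⟩
  · rw [A_nil, nbr, if_pos rfl, union_empty, ← hr]
    rfl
  · rw [List.concat_eq_append] at hv ⊢
    have hnb : nbr t (w ++ [j]) = (range (t (w ++ [j]))).image (fun i => w ++ [j] ++ [i]) ∪ {w} := by
      unfold nbr
      rw [if_neg (by simp), List.dropLast_concat]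
    have h1 := ((val_snoc t w j).1 hv).2
    have h2 := ht w
    rw [A_snoc, hr, hnb, sum_union, sum_singleton, add_comm, if_pos ⟨by omega, h1⟩]
    · rw [Finset.disjoint_singleton_right, mem_image]
      rintro ⟨i, -, h⟩
      have := congrArg List.length h
      simp at this

/-- powers of the adjacency operator applied to the basis vector -/
noncomputable def Ak (D : ℕ) (t : Lab) : ℕ → H
  | 0 => dl
  | k + 1 => A D t (Ak D t k)

theorem Ak_card {t : Lab} (ht : ∀ w, t w ≤ D) (k : ℕ) {v : W} (hv : val t v) :
    Ak D t k v = (wk t k v).card := by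
  classical
  induction k generalizing v with
  | zero =>
    rw [Ak, wk]
    split_ifs with h
    · subst h; rw [dl_nil]; simp
    · rw [dl_ne h]; simp
  | succ k ih =>
    rw [Ak, A_nbr ht _ hv, card_wk t k v hv]
    push_cast
    exact sum_congr rfl fun u hu => ih ((mem_nbr hv).1 hu).1

theorem Ak_ncard {t : Lab} (ht : ∀ w, t w ≤ D) (k : ℕ) :
    Ak D t k [] = ((Set.ncard {f : Fin (k + 1) → List ℕ |
            f 0 = [] ∧ f (Fin.last k) = [] ∧
            (∀ i, ∀ j < (f i).length, (f i).getD j 0 < t ((f i).take j)) ∧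
            ∀ i : Fin k, (∃ a : ℕ, f i.succ = f i.castSucc ++ [a]) ∨
                         (∃ a : ℕ, f i.castSucc = f i.succ ++ [a])} : ℕ) : ℝ) := by
  rw [Ak_card ht k (val_nil t), ← Set.ncard_coe_finset]
  congr 2
  ext f
  rw [mem_coe, mem_wk]
  rfl


/-- the polynomial of the iterates -/
noncomputable def pp (C l : ℝ) (n : ℕ) : Polynomial ℝ :=
  (1 - Polynomial.C ((C ^ 2)⁻¹) * (Polynomial.X - Polynomial.C l) ^ 2) ^ n

theorem pow_A (t : Lab) (k : ℕ) : ((A D t) ^ k) dl = Ak D t k := by
  induction k with
  | zero => rfl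
  | succ k ih =>
    rw [pow_succ', Ak, ← ih]
    rfl

theorem pow_BB (T : H →L[ℝ] H) (C : ℝ) (x : H) (k : ℕ) : ((BB T C) ^ k) x = it T C x k := by
  induction k with
  | zero => rfl
  | succ k ih =>
    rw [pow_succ', it, ← ih]
    rfl

theorem BB_aeval (t : Lab) (C l : ℝ) (n : ℕ) :
    Polynomial.aeval (A D t) (pp C l n) = (BB (Tt D l t) C) ^ n := by
  unfold pp
  rw [map_pow, map_sub, map_mul, map_pow, map_sub, Polynomial.aeval_X, Polynomial.aeval_C,
    Polynomial.aeval_C, map_one, Algebra.algebraMap_eq_smul_one, Algebra.algebraMap_eq_smul_one]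
  congr 1

theorem av_eq (t : Lab) (n : ℕ) : av (Tt D l t) (Cc D l) dl n =
    ∑ k ∈ range ((pp (Cc D l) l n).natDegree + 1), (pp (Cc D l) l n).coeff k * Ak D t k [] := by
  have h1 : it (Tt D l t) (Cc D l) dl n = (Polynomial.aeval (A D t) (pp (Cc D l) l n)) dl := by
    rw [BB_aeval, pow_BB]
  rw [av, h1, Polynomial.aeval_eq_sum_range, _root_.sum_apply, inner_sum]
  refine sum_congr rfl fun k _ => ?_
  rw [_root_.smul_apply, inner_smul_right, pow_A, inner_dl]

end Pool.Agent.K4H57.UGW
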