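import Mathlib
import Pool.Agent.K4H57.UGW.Walk

set_option autoImplicit false
set_option linter.unusedSimpArgs false
set_option linter.unusedVariables false
set_option linter.unusedSectionVars false

open Filter Topology Finset MeasureTheory Measure ProbabilityTheory
open scoped ENNReal

namespace Pool.Agent.K4H57.UGW

theorem MF_Ak (D k : ℕ) : MF (fun t => Ak D t k) := by
  induction k with
  | zero => exact MF.const dl
  | succ k ih => exact MF.A ih

theorem norm_Ak_le (D k : ℕ) (t : Lab) : ‖Ak D t k‖ ≤ (2 * D) ^ k := by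
  induction k with
  | zero =>
    rw [Ak, pow_zero, dl]
    rw [lp.norm_single (by norm_num)]
    simp
  | succ k ih =>
    rw [Ak, pow_succ']
    refine (norm_A_le D t _).trans ?_
    gcongr

theorem pp_eval (C l x : ℝ) (n : ℕ) : (pp C l n).eval x = (1 - (C ^ 2)⁻¹ * (x - l) ^ 2) ^ n := by
  unfold pp
  simp

theorem spectrum_main (P : PMF ℕ) (hP : P.support.Finite) (hP0 : P 0 = 0) (hP1 : P 1 = 0)
    (Ω : Type) [MeasureSpace Ω] [IsProbabilityMeasure (volume : Measure Ω)]
    (N : List ℕ → Ω → ℕ)
    (hN : ∀ w, Measurable (N w)) (hind : iIndepFun N (volume : Measure Ω))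
    (hroot : ∀ k : ℕ, (volume : Measure Ω) {ω | N [] ω = k} = P k)
    (hoff : ∀ w : List ℕ, w ≠ [] → ∀ k : ℕ,
      (volume : Measure Ω) {ω | N w ω = k}
        = ((k : ENNReal) + 1) * P (k + 1) / ∑' j : ℕ, (j : ENNReal) * P j)
    (ν : Measure ℝ) (hν : IsProbabilityMeasure ν)
    (hR : ∃ R : ℝ, ν (Set.Icc (-R) R)ᶜ = 0)
    (hmom : ∀ k : ℕ, ∫ x, x ^ k ∂ν =
        ∫ ω, ((Set.ncard {f : Fin (k + 1) → List ℕ |
            f 0 = [] ∧ f (Fin.last k) = [] ∧
            (∀ i, ∀ j < (f i).length, (f i).getD j 0 < N ((f i).take j) ω) ∧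
            ∀ i : Fin k, (∃ a : ℕ, f i.succ = f i.castSucc ++ [a]) ∨
                         (∃ a : ℕ, f i.castSucc = f i.succ ++ [a])} : ℕ) : ℝ)
          ∂(volume : Measure Ω)) :
    {x : ℝ | ν {x} ≠ 0}.Finite := by
  obtain ⟨R, hR⟩ := hR
  set m : ℝ≥0∞ := ∑' j : ℕ, (j : ENNReal) * P j with hm
  set D : ℕ := max (hP.toFinset.sup id) ⌈R⌉₊ with hD
  have hPD : ∀ k, P k ≠ 0 → k ≤ D := by
    intro k hk
    refine le_trans ?_ (le_max_left _ _)
    exact Finset.le_sup (f := id) (hP.mem_toFinset.2 ((PMF.mem_support_iff P k).2 hk))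
  have hP2 : ∀ k, P k ≠ 0 → 2 ≤ k := by
    intro k hk
    rcases k with _ | _ | k
    · exact absurd hP0 hk
    · exact absurd hP1 hk
    · omega
  have hRD : R ≤ D := (Nat.le_ceil R).trans (by exact_mod_cast le_max_right _ _)
  set ξ : Measure ℕ := (volume : Measure Ω).map (N []) with hξ
  set ph : Measure ℕ := (volume : Measure Ω).map (N [0]) with hph
  have : IsProbabilityMeasure ξ := Measure.isProbabilityMeasure_map (hN []).aemeasurable
  have : IsProbabilityMeasure ph := Measure.isProbabilityMeasure_map (hN [0]).aemeasurable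
  have hξk : ∀ k, ξ {k} = P k := by
    intro k
    rw [hξ, Measure.map_apply (hN []) (measurableSet_singleton k)]
    exact hroot k
  have hmapk : ∀ w : List ℕ, w ≠ [] → ∀ k, (volume : Measure Ω).map (N w) {k} =
      ((k : ENNReal) + 1) * P (k + 1) / m := by
    intro w hw k
    rw [Measure.map_apply (hN w) (measurableSet_singleton k)]
    exact hoff w hw k
  have hphk : ∀ k, ph {k} = ((k : ENNReal) + 1) * P (k + 1) / m := hmapk [0] (by simp)
  have hlaw : (volume : Measure Ω).map (fun ω w => N w ω) = mu ξ ph := by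
    rw [hind.map_fun_eq_infinitePi_map hN]
    unfold mu
    congr 1
    funext w
    unfold lw
    split_ifs with hw
    · rw [hw]
    · refine Measure.ext_of_singleton fun k => ?_
      rw [hmapk w hw k, hphk k]
  have hNm : Measurable (fun ω w => N w ω) := measurable_pi_lambda _ hN
  -- the mean
  have hmt : m ≠ ⊤ := by
    rw [hm, tsum_eq_sum (s := hP.toFinset)]
    · refine (ENNReal.sum_lt_top.2 fun k _ => ?_).ne
      exact ENNReal.mul_lt_top (by simp) (PMF.apply_lt_top P k)
    · intro k hk
      have : P k = 0 := by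
        by_contra h
        exact hk (hP.mem_toFinset.2 ((PMF.mem_support_iff P k).2 h))
      rw [this, mul_zero]
  have hm0 : m ≠ 0 := by
    obtain ⟨k, hk⟩ := P.support_nonempty
    have hk' : P k ≠ 0 := (PMF.mem_support_iff P k).1 hk
    have h2 := hP2 k hk'
    intro h
    have h3 : (k : ENNReal) * P k ≤ m := ENNReal.le_tsum k
    rw [h, nonpos_iff_eq_zero, mul_eq_zero] at h3
    rcases h3 with h3 | h3
    · have : k = 0 := by exact_mod_cast h3
      omega
    · exact hk' h3
  have hy : HY D ξ ph m := by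
    refine ⟨?_, hm0, hmt, ?_, ?_, ?_, ?_⟩
    · intro k
      rw [hphk, hξk, ENNReal.mul_div_cancel hm0 hmt]
    · rw [ae_iff_of_countable]
      intro k hk
      rw [hξk] at hk
      exact hPD k hk
    · rw [ae_iff_of_countable]
      intro k hk
      rw [hξk] at hk
      exact hP2 k hk
    · rw [ae_iff_of_countable]
      intro k hk
      rw [hphk] at hk
      have h1 : P (k + 1) ≠ 0 := by
        intro h0; apply hk; rw [h0]; simp
      have := hPD _ h1
      omega
    · rw [ae_iff_of_countable]
      intro k hk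
      rw [hphk] at hk
      have h1 : P (k + 1) ≠ 0 := by
        intro h0; apply hk; rw [h0]; simp
      have := hP2 _ h1
      omega
  have hallD : ∀ᵐ ω ∂(volume : Measure Ω), ∀ w, N w ω ≤ D := by
    have h1 : ∀ᵐ T ∂(mu ξ ph), ∀ w, T w ≤ D := by
      rw [ae_all_iff]
      intro w
      refine mu_ae_eval ξ ph (P := fun n => n ≤ D) w ?_
      rw [lw]
      split_ifs
      · exact hy.xi_le
      · exact hy.ph_le
    rw [← hlaw] at h1
    exact ae_of_ae_map hNm.aemeasurable h1
  have hRae : ∀ᵐ x ∂ν, x ∈ Set.Icc (-R) R := by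
    rw [ae_iff]; exact hR
  obtain ⟨d, hd⟩ := hy.main
  obtain ⟨S, hS, hSl⟩ := exceptional D d
  refine hS.subset fun l hl => ?_
  by_contra hlS
  apply hl
  have hmm0 : ∀ᵐ T ∂(mu ξ ph), mm D l T = 0 := hd l (hSl l hlS)
  set C := Cc D l with hC
  -- moments
  have hmeasAk : ∀ k, Measurable (fun ω => Ak D (fun w => N w ω) k ([] : W)) := fun k =>
    (MF_Ak D k []).comp hNm
  have hintAk : ∀ k, Integrable (fun ω => Ak D (fun w => N w ω) k ([] : W)) volume := by
    intro k
    refine Integrable.of_bound (hmeasAk k).aestronglyMeasurable ((2 * D) ^ k)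
      (Eventually.of_forall fun ω => ?_)
    refine le_trans ?_ (norm_Ak_le D k (fun w => N w ω))
    exact lp.norm_apply_le_norm (by norm_num) _ _
  have hmomAk : ∀ k, ∫ x, x ^ k ∂ν = ∫ ω, Ak D (fun w => N w ω) k ([] : W) := by
    intro k
    rw [hmom k]
    refine integral_congr_ae (hallD.mono fun ω hω => ?_)
    exact (Ak_ncard (t := fun w => N w ω) hω k).symm
  have hintx : ∀ k : ℕ, Integrable (fun x : ℝ => x ^ k) ν := by
    intro k
    refine Integrable.of_bound (by fun_prop) (R ^ k) (hRae.mono fun x hx => ?_)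
    rw [norm_pow, Real.norm_eq_abs]
    exact pow_le_pow_left₀ (abs_nonneg _) (abs_le.2 ⟨hx.1, hx.2⟩) k
  have hpoly : ∀ n, ∫ x, (pp C l n).eval x ∂ν = ∫ ω, av (Tt D l (fun w => N w ω)) C dl n := by
    intro n
    have h1 : ∀ x : ℝ, (pp C l n).eval x = ∑ k ∈ range ((pp C l n).natDegree + 1),
        (pp C l n).coeff k * x ^ k := fun x => Polynomial.eval_eq_sum_range x
    simp_rw [h1]
    rw [integral_finsetSum _ fun k _ => (hintx k).const_mul _]
    have h2 : ∀ ω, av (Tt D l (fun w => N w ω)) C dl n = ∑ k ∈ range ((pp C l n).natDegree + 1),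
        (pp C l n).coeff k * Ak D (fun w => N w ω) k ([] : W) := fun ω => av_eq _ n
    simp_rw [h2]
    rw [integral_finsetSum _ fun k _ => (hintAk k).const_mul _]
    refine sum_congr rfl fun k _ => ?_
    rw [integral_const_mul, integral_const_mul, hmomAk]
  have hCpos : 0 < C := (sbt D l (fun _ => 0)).pos
  -- upper bound of the atom
  have hle : ∀ n, ν.real {l} ≤ ∫ ω, av (Tt D l (fun w => N w ω)) C dl n := by
    intro n
    rw [← hpoly n, ← integral_indicator_one (measurableSet_singleton l)]
    refine integral_mono_ae ?_ ?_ (hRae.mono fun x hx => ?_)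
    · exact (integrable_const (1 : ℝ)).indicator (measurableSet_singleton l)
    · have h1 : ∀ x : ℝ, (pp C l n).eval x = ∑ k ∈ range ((pp C l n).natDegree + 1),
        (pp C l n).coeff k * x ^ k := fun x => Polynomial.eval_eq_sum_range x
      simp_rw [h1]
      exact integrable_finsetSum _ fun k _ => (hintx k).const_mul _
    · change ({l} : Set ℝ).indicator 1 x ≤ (pp C l n).eval x
      rw [pp_eval]
      by_cases hx2 : x = l
      · rw [hx2, Set.indicator_of_mem (Set.mem_singleton l)]
        simp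
      · rw [Set.indicator_of_notMem (by simpa using hx2)]
        apply pow_nonneg
        have h3 : (x - l) ^ 2 ≤ C ^ 2 := by
          rw [sq_le_sq, abs_of_pos hCpos]
          have h4 : |x - l| ≤ |x| + |l| := abs_sub _ _
          have h5 : |x| ≤ R := abs_le.2 ⟨hx.1, hx.2⟩
          have h6 : C = 2 * D + |l| + 1 := rfl
          have h7 : (0 : ℝ) ≤ D := by positivity
          rw [h6]; linarith
        have h8 : (C ^ 2)⁻¹ * (x - l) ^ 2 ≤ (C ^ 2)⁻¹ * C ^ 2 := by gcongr
        rw [inv_mul_cancel₀ (by positivity)] at h8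
        linarith
  have hlim : Tendsto (fun n => ∫ ω, av (Tt D l (fun w => N w ω)) C dl n) atTop
      (𝓝 (∫ ω, mm D l (fun w => N w ω))) := by
    refine tendsto_integral_of_dominated_convergence (fun _ => 1) (fun n => ?_)
      (integrable_const _) (fun n => Eventually.of_forall fun ω => ?_)
      (Eventually.of_forall fun ω => mm_tendsto _)
    · exact ((measurable_av n).comp hNm).aestronglyMeasurable
    · have h1 := (sbt D l (fun w => N w ω)).av_nonneg dl n
      have h2 := (sbt D l (fun w => N w ω)).av_antitone dl (Nat.zero_le n)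
      have h3 : av (Tt D l (fun w => N w ω)) (Cc D l) dl 0 = 1 := by
        rw [av, it, inner_dl, dl_nil]
      rw [h3] at h2
      rw [Real.norm_eq_abs, abs_of_nonneg h1]
      exact h2
  have hzero : ∫ ω, mm D l (fun w => N w ω) = 0 := by
    rw [← hlaw] at hmm0
    have h1 := ae_of_ae_map hNm.aemeasurable hmm0
    exact integral_eq_zero_of_ae h1
  rw [hzero] at hlim
  have h0 : ν.real {l} ≤ 0 := ge_of_tendsto' hlim hle
  have h1 : ν.real {l} = 0 := le_antisymm h0 measureReal_nonneg
  exact (measureReal_eq_zero_iff).1 h1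

end Pool.Agent.K4H57.UGW
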